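import Mathlib

set_option autoImplicit false
set_option linter.unusedSectionVars false

open Finset BigOperators

namespace Pool.Agent.Helper56.QCl

open Classical in
/-- adjacency indicator -/
noncomputable def ad {V : Type} (G : SimpleGraph V) (u v : V) : ℝ := if G.Adj u v then 1 else 0

variable {V : Type} [Fintype V] [DecidableEq V]

noncomputable def EE (G : SimpleGraph V) (X p : V → ℝ) : ℝ :=
  (1/2) * ∑ u, ∑ v, p u * p v * (ad G u v * (X u + X v)^2)

noncomputable def WW (p : V → ℝ) : ℝ := ∑ v, p v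

noncomputable def PP (X p : V → ℝ) : ℝ := ∑ v, p v * X v ^ 2

noncomputable def Gam (G : SimpleGraph V) (X : V → ℝ) (l : ℝ) (p : V → ℝ) : ℝ :=
  EE G X p - l * WW p * PP X p

noncomputable def cc (G : SimpleGraph V) (X : V → ℝ) (l : ℝ) (u v : V) : ℝ :=
  ad G u v * (X u + X v)^2 - l * (X u ^ 2 + X v ^ 2)

open Classical in
noncomputable def kap (G : SimpleGraph V) (r : ℕ) (p : V → ℝ) : ℝ :=
  ∑ T ∈ univ.filter (fun T : Finset V => G.IsNClique r T), ∏ v ∈ T, p v

theorem ad_nonneg (G : SimpleGraph V) (u v : V) : 0 ≤ ad G u v := by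
  unfold ad; split_ifs <;> norm_num

theorem ad_le_one (G : SimpleGraph V) (u v : V) : ad G u v ≤ 1 := by
  unfold ad; split_ifs <;> norm_num

theorem ad_self (G : SimpleGraph V) (u : V) : ad G u u = 0 := by
  unfold ad; simp

theorem ad_comm (G : SimpleGraph V) (u v : V) : ad G u v = ad G v u := by
  unfold ad
  by_cases h : G.Adj u v
  · rw [if_pos h, if_pos h.symm]
  · rw [if_neg h, if_neg (fun h' => h h'.symm)]

theorem cc_comm (G : SimpleGraph V) (X : V → ℝ) (l : ℝ) (u v : V) :
    cc G X l u v = cc G X l v u := by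
  unfold cc; rw [ad_comm]; ring

theorem Gam_eq (G : SimpleGraph V) (X : V → ℝ) (l : ℝ) (p : V → ℝ) :
    Gam G X l p = (1/2) * ∑ u, ∑ v, p u * p v * cc G X l u v := by
  have h1 : ∑ u, ∑ v, p u * p v * cc G X l u v =
      ∑ u, ∑ v, p u * p v * (ad G u v * (X u + X v)^2)
      - l * (∑ u, ∑ v, p u * p v * X u ^ 2 + ∑ u, ∑ v, p u * p v * X v ^ 2) := by
    rw [← Finset.sum_add_distrib, Finset.mul_sum, ← Finset.sum_sub_distrib]
    refine Finset.sum_congr rfl fun u _ => ?_
    rw [← Finset.sum_add_distrib, Finset.mul_sum, ← Finset.sum_sub_distrib]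
    refine Finset.sum_congr rfl fun v _ => ?_
    unfold cc; ring
  have h2 : ∑ u, ∑ v, p u * p v * X v ^ 2 = WW p * PP X p := by
    unfold WW PP
    rw [Finset.sum_mul_sum]
    refine Finset.sum_congr rfl fun u _ => Finset.sum_congr rfl fun v _ => by ring
  have h3 : ∑ u, ∑ v, p u * p v * X u ^ 2 = WW p * PP X p := by
    rw [Finset.sum_comm, ← h2]
    refine Finset.sum_congr rfl fun u _ => Finset.sum_congr rfl fun v _ => by ring
  rw [h1, h2, h3]
  unfold Gam EE
  ring

/-- bilinear form -/
noncomputable def Bil (G : SimpleGraph V) (X : V → ℝ) (l : ℝ) (p h : V → ℝ) : ℝ :=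
  ∑ u, ∑ v, p u * h v * cc G X l u v

theorem Gam_add (G : SimpleGraph V) (X : V → ℝ) (l : ℝ) (p h : V → ℝ) :
    Gam G X l (fun v => p v + h v) = Gam G X l p + Bil G X l p h + Gam G X l h := by
  have hsym : ∑ u, ∑ v, h u * p v * cc G X l u v = Bil G X l p h := by
    unfold Bil
    rw [Finset.sum_comm]
    refine Finset.sum_congr rfl fun u _ => Finset.sum_congr rfl fun v _ => ?_
    rw [cc_comm]; ring
  simp only [Gam_eq]
  have : ∑ u, ∑ v, (p u + h u) * (p v + h v) * cc G X l u v =
      ∑ u, ∑ v, p u * p v * cc G X l u v + Bil G X l p h + ∑ u, ∑ v, h u * p v * cc G X l u v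
      + ∑ u, ∑ v, h u * h v * cc G X l u v := by
    unfold Bil
    rw [← Finset.sum_add_distrib, ← Finset.sum_add_distrib, ← Finset.sum_add_distrib]
    refine Finset.sum_congr rfl fun u _ => ?_
    rw [← Finset.sum_add_distrib, ← Finset.sum_add_distrib, ← Finset.sum_add_distrib]
    refine Finset.sum_congr rfl fun v _ => ?_
    ring
  rw [this, hsym]
  ring

/-- direction moving mass from `v` to `u` -/
noncomputable def dir (u v : V) (s : ℝ) : V → ℝ :=
  fun a => (if a = u then s else 0) - (if a = v then s else 0)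

theorem Bil_dir (G : SimpleGraph V) (X : V → ℝ) (l : ℝ) (p : V → ℝ) (u v : V) (s : ℝ) :
    Bil G X l p (dir u v s) = s * (∑ a, p a * (cc G X l a u - cc G X l a v)) := by
  unfold Bil dir
  rw [Finset.mul_sum]
  refine Finset.sum_congr rfl fun a _ => ?_
  have : ∀ b, p a * ((if b = u then s else 0) - (if b = v then s else 0)) * cc G X l a b
      = (if b = u then p a * s * cc G X l a b else 0) - (if b = v then p a * s * cc G X l a b else 0) := by
    intro b; split_ifs <;> ring
  simp only [this, Finset.sum_sub_distrib, Finset.sum_ite_eq', Finset.mem_univ, if_true]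
  ring

theorem Gam_dir (G : SimpleGraph V) (X : V → ℝ) (l : ℝ) (u v : V) (s : ℝ)
    (huv : ¬ G.Adj u v) : Gam G X l (dir u v s) = 0 := by
  rw [Gam_eq]
  have h1 : ∀ a, ∑ b, dir u v s a * dir u v s b * cc G X l a b =
      dir u v s a * (s * (cc G X l a u - cc G X l a v)) := by
    intro a
    unfold dir
    have : ∀ b, ((if a = u then s else 0) - (if a = v then s else 0)) *
        ((if b = u then s else 0) - (if b = v then s else 0)) * cc G X l a b
      = (if b = u then ((if a = u then s else 0) - (if a = v then s else 0)) * s * cc G X l a b else 0)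
       - (if b = v then ((if a = u then s else 0) - (if a = v then s else 0)) * s * cc G X l a b else 0) := by
      intro b; split_ifs <;> ring
    simp only [this, Finset.sum_sub_distrib, Finset.sum_ite_eq', Finset.mem_univ, if_true]
    ring
  simp only [h1]
  have h2 : ∀ a, dir u v s a * (s * (cc G X l a u - cc G X l a v))
      = (if a = u then s * (s * (cc G X l a u - cc G X l a v)) else 0)
      - (if a = v then s * (s * (cc G X l a u - cc G X l a v)) else 0) := by
    intro a; unfold dir; split_ifs <;> ring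
  simp only [h2, Finset.sum_sub_distrib, Finset.sum_ite_eq', Finset.mem_univ, if_true]
  have e1 : cc G X l u u = - l * (X u ^2 + X u ^2) := by unfold cc; rw [ad_self]; ring
  have e2 : cc G X l v v = - l * (X v ^2 + X v ^2) := by unfold cc; rw [ad_self]; ring
  have e3 : cc G X l u v = - l * (X u ^2 + X v ^2) := by
    unfold cc ad; rw [if_neg huv]; ring
  have e4 : cc G X l v u = - l * (X u ^2 + X v ^2) := by rw [cc_comm, e3]
  rw [e1, e2, e3, e4]; ring

theorem prod_dir (G : SimpleGraph V) (p : V → ℝ) (u v : V) (huv : ¬ G.Adj u v) (hne : u ≠ v)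
    (T : Finset V) (r : ℕ) (hT : G.IsNClique r T) :
    ∃ m : ℝ, ∀ s : ℝ, ∏ a ∈ T, (p a + dir u v s a) = ∏ a ∈ T, p a + s * m := by
  by_cases hu : u ∈ T
  · have hv : v ∉ T := fun hv => huv (hT.isClique (by exact_mod_cast hu) (by exact_mod_cast hv) hne)
    refine ⟨∏ a ∈ T.erase u, p a, fun s => ?_⟩
    rw [← Finset.mul_prod_erase T _ hu, ← Finset.mul_prod_erase T p hu]
    have : ∏ a ∈ T.erase u, (p a + dir u v s a) = ∏ a ∈ T.erase u, p a := by
      refine Finset.prod_congr rfl fun a ha => ?_
      have h1 : a ≠ u := Finset.ne_of_mem_erase ha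
      have h2 : a ≠ v := fun h => hv (h ▸ Finset.mem_of_mem_erase ha)
      simp [dir, h1, h2]
    rw [this]
    have : dir u v s u = s := by simp [dir, hne]
    rw [this]; ring
  · by_cases hv : v ∈ T
    · refine ⟨- ∏ a ∈ T.erase v, p a, fun s => ?_⟩
      rw [← Finset.mul_prod_erase T _ hv, ← Finset.mul_prod_erase T p hv]
      have : ∏ a ∈ T.erase v, (p a + dir u v s a) = ∏ a ∈ T.erase v, p a := by
        refine Finset.prod_congr rfl fun a ha => ?_
        have h1 : a ≠ v := Finset.ne_of_mem_erase ha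
        have h2 : a ≠ u := fun h => hu (h ▸ Finset.mem_of_mem_erase ha)
        simp [dir, h1, h2]
      rw [this]
      have : dir u v s v = - s := by simp [dir, hne.symm]
      rw [this]; ring
    · refine ⟨0, fun s => ?_⟩
      have : ∏ a ∈ T, (p a + dir u v s a) = ∏ a ∈ T, p a := by
        refine Finset.prod_congr rfl fun a ha => ?_
        have h1 : a ≠ v := fun h => hv (h ▸ ha)
        have h2 : a ≠ u := fun h => hu (h ▸ ha)
        simp [dir, h1, h2]
      rw [this]; ring

theorem kap_dir (G : SimpleGraph V) (r : ℕ) (p : V → ℝ) (u v : V) (huv : ¬ G.Adj u v)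
    (hne : u ≠ v) : ∃ m : ℝ, ∀ s : ℝ, kap G r (fun a => p a + dir u v s a) = kap G r p + s * m := by
  classical
  have h : ∀ T : Finset V, ∃ m : ℝ, G.IsNClique r T →
      ∀ s : ℝ, ∏ a ∈ T, (p a + dir u v s a) = ∏ a ∈ T, p a + s * m := by
    intro T
    by_cases hT : G.IsNClique r T
    · obtain ⟨m, hm⟩ := prod_dir G p u v huv hne T r hT
      exact ⟨m, fun _ => hm⟩
    · exact ⟨0, fun h => absurd h hT⟩
  choose m hm using h
  refine ⟨∑ T ∈ univ.filter (fun T : Finset V => G.IsNClique r T), m T, fun s => ?_⟩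
  unfold kap
  rw [Finset.mul_sum, ← Finset.sum_add_distrib]
  refine Finset.sum_congr ?_ fun T hT => ?_
  · ext T; simp
  · exact hm T (by simpa using hT) s

/-- Support reduction. -/
theorem reduce (G : SimpleGraph V) (X : V → ℝ) (l C : ℝ) (r : ℕ) :
    ∀ (N : ℕ) (p : V → ℝ), (∀ v, 0 ≤ p v) → (univ.filter (fun v => p v ≠ 0)).card ≤ N →
    ∃ p' : V → ℝ, (∀ v, 0 ≤ p' v) ∧ WW p' = WW p ∧
      Gam G X l p - C * kap G r p ≤ Gam G X l p' - C * kap G r p' ∧
      (∀ u v, p' u ≠ 0 → p' v ≠ 0 → u ≠ v → G.Adj u v) := by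
  intro N
  induction N with
  | zero =>
    intro p hp hc
    refine ⟨p, hp, rfl, le_rfl, fun u v hu => ?_⟩
    have : u ∈ univ.filter (fun v => p v ≠ 0) := by simp [hu]
    rw [Finset.card_eq_zero.mp (Nat.le_zero.mp hc)] at this
    simp at this
  | succ N ih =>
    intro p hp hc
    by_cases hcl : ∀ u v, p u ≠ 0 → p v ≠ 0 → u ≠ v → G.Adj u v
    · exact ⟨p, hp, rfl, le_rfl, hcl⟩
    push Not at hcl
    obtain ⟨u, v, hu, hv, hne, huv⟩ := hcl
    obtain ⟨m, hm⟩ := kap_dir G r p u v huv hne
    set e : ℝ := ∑ a, p a * (cc G X l a u - cc G X l a v) with he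
    have hf : ∀ s, Gam G X l (fun a => p a + dir u v s a) - C * kap G r (fun a => p a + dir u v s a)
        = Gam G X l p - C * kap G r p + s * (e - C * m) := by
      intro s
      rw [Gam_add, hm, Bil_dir, Gam_dir G X l u v s huv]; ring
    have hW : ∀ s, WW (fun a => p a + dir u v s a) = WW p := by
      intro s
      unfold WW dir
      rw [Finset.sum_add_distrib, Finset.sum_sub_distrib]
      simp
    -- generic step
    have key : ∀ s : ℝ, 0 ≤ s * (e - C * m) → (∀ a, 0 ≤ p a + dir u v s a) →
        (∀ a, p a = 0 → p a + dir u v s a = 0) → (∃ a, p a ≠ 0 ∧ p a + dir u v s a = 0) →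
        ∃ p' : V → ℝ, (∀ v, 0 ≤ p' v) ∧ WW p' = WW p ∧
        Gam G X l p - C * kap G r p ≤ Gam G X l p' - C * kap G r p' ∧
        (∀ u v, p' u ≠ 0 → p' v ≠ 0 → u ≠ v → G.Adj u v) := by
      intro s hs h0 hz hdrop
      have hcard : (univ.filter (fun a => p a + dir u v s a ≠ 0)).card ≤ N := by
        obtain ⟨a, ha1, ha2⟩ := hdrop
        have : univ.filter (fun a => p a + dir u v s a ≠ 0) ⊂ univ.filter (fun v => p v ≠ 0) := by
          refine Finset.ssubset_iff_subset_ne.mpr ⟨?_, ?_⟩
          · intro b hb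
            simp only [Finset.mem_filter, Finset.mem_univ, true_and] at hb ⊢
            exact fun h => hb (hz b h)
          · intro h
            have : a ∈ univ.filter (fun v => p v ≠ 0) := by simp [ha1]
            rw [← h] at this
            simp [ha2] at this
        have := Finset.card_lt_card this
        omega
      obtain ⟨p', h1, h2, h3, h4⟩ := ih (fun a => p a + dir u v s a) h0 hcard
      refine ⟨p', h1, by rw [h2, hW], ?_, h4⟩
      rw [hf] at h3
      linarith
    by_cases hsign : 0 ≤ e - C * m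
    · refine key (p v) (mul_nonneg (hp v) hsign) ?_ ?_ ?_
      · intro a
        unfold dir
        by_cases h1 : a = v
        · subst h1; simp [hne.symm]
        · by_cases h2 : a = u
          · subst h2; simp [h1]; linarith [hp a, hp v]
          · simp [h1, h2, hp a]
      · intro a ha
        have h1 : a ≠ v := fun h => hv (h ▸ ha)
        have h2 : a ≠ u := fun h => hu (h ▸ ha)
        simp [dir, h1, h2, ha]
      · exact ⟨v, hv, by simp [dir, hne.symm]⟩
    · push Not at hsign
      refine key (- p u) ?_ ?_ ?_ ?_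
      · nlinarith [hp u]
      · intro a
        unfold dir
        by_cases h1 : a = u
        · subst h1; simp [hne]
        · by_cases h2 : a = v
          · subst h2; simp [h1]; linarith [hp a, hp u]
          · simp [h1, h2, hp a]
      · intro a ha
        have h1 : a ≠ v := fun h => hv (h ▸ ha)
        have h2 : a ≠ u := fun h => hu (h ▸ ha)
        simp [dir, h1, h2, ha]
      · exact ⟨u, hu, by simp [dir, hne]⟩

end Pool.Agent.Helper56.QCl
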