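import Pool.Agent.Helper56.QCl.Robust

set_option autoImplicit false
set_option linter.unusedSectionVars false

open Finset BigOperators

namespace Pool.Agent.Helper56.QCl

variable {V : Type} [Fintype V] [DecidableEq V]

noncomputable def u0 (V : Type) [Fintype V] : V → ℝ := fun _ => 1 / (Fintype.card V : ℝ)

noncomputable def gg (G : SimpleGraph V) (X : V → ℝ) (l : ℝ) (v : V) : ℝ :=
  ∑ a, u0 V a * cc G X l a v

open Classical in
noncomputable def NA (G : SimpleGraph V) (u : V) : Finset V := univ.filter (fun v => ¬ G.Adj u v)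

open Classical in
noncomputable def NN (G : SimpleGraph V) (u : V) : Finset V := univ.filter (fun v => G.Adj u v)

open Classical in
noncomputable def cq (G : SimpleGraph V) (j : ℕ) : ℕ :=
  (univ.filter (fun T : Finset V => G.IsNClique j T)).card

noncomputable def wt (G : SimpleGraph V) (X : V → ℝ) (a b : V) : ℝ := ad G a b * (X a + X b)^2

theorem mem_NA (G : SimpleGraph V) (u v : V) : v ∈ NA G u ↔ ¬ G.Adj u v := by
  unfold NA; simp

theorem mem_NN (G : SimpleGraph V) (u v : V) : v ∈ NN G u ↔ G.Adj u v := by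
  unfold NN; simp

theorem card_NA_add (G : SimpleGraph V) (u : V) :
    (NA G u).card + (NN G u).card = Fintype.card V := by
  classical
  unfold NA NN
  rw [add_comm, Finset.card_filter_add_card_filter_not]; rfl

theorem wt_comm (G : SimpleGraph V) (X : V → ℝ) (a b : V) : wt G X a b = wt G X b a := by
  unfold wt; rw [ad_comm]; ring

theorem wt_self (G : SimpleGraph V) (X : V → ℝ) (a : V) : wt G X a a = 0 := by
  unfold wt; rw [ad_self]; ring

theorem wt_nonneg (G : SimpleGraph V) (X : V → ℝ) (a b : V) : 0 ≤ wt G X a b :=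
  mul_nonneg (ad_nonneg G a b) (sq_nonneg _)

theorem wt_le (G : SimpleGraph V) (X : V → ℝ) (a b : V) : wt G X a b ≤ (X a + X b)^2 := by
  unfold wt
  calc _ ≤ 1 * (X a + X b)^2 := mul_le_mul_of_nonneg_right (ad_le_one G a b) (sq_nonneg _)
    _ = _ := one_mul _

theorem Bil_u0 (G : SimpleGraph V) (X : V → ℝ) (l : ℝ) (h : V → ℝ) :
    Bil G X l (u0 V) h = ∑ b, h b * gg G X l b := by
  unfold Bil gg
  rw [Finset.sum_comm]
  refine Finset.sum_congr rfl fun b _ => ?_
  rw [Finset.mul_sum]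
  refine Finset.sum_congr rfl fun a _ => ?_
  ring

noncomputable def hv (u : V) (B : Finset V) : V → ℝ := fun v =>
  (if v = u then (B.card : ℝ) * (1 / (Fintype.card V : ℝ)) else 0)
    - (if v ∈ B then 1 / (Fintype.card V : ℝ) else 0)

theorem sum_hv (u : V) (B : Finset V) (f : V → ℝ) :
    ∑ v, hv u B v * f v = (B.card : ℝ) * (1 / (Fintype.card V : ℝ)) * f u
      - (1 / (Fintype.card V : ℝ)) * ∑ b ∈ B, f b := by
  unfold hv
  have : ∀ v, ((if v = u then (B.card : ℝ) * (1 / (Fintype.card V : ℝ)) else 0)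
    - (if v ∈ B then 1 / (Fintype.card V : ℝ) else 0)) * f v =
    (if v = u then (B.card : ℝ) * (1 / (Fintype.card V : ℝ)) * f v else 0)
    - (if v ∈ B then 1 / (Fintype.card V : ℝ) * f v else 0) := by
    intro v; split_ifs <;> ring
  simp only [this, Finset.sum_sub_distrib, Finset.sum_ite_eq', Finset.mem_univ, if_true]
  rw [← Finset.sum_filter]
  have h : univ.filter (fun v => v ∈ B) = B := by ext; simp
  rw [h, Finset.mul_sum]

theorem WW_hv (u : V) (B : Finset V) : WW (hv u B) = 0 := by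
  have := sum_hv u B (fun _ => 1)
  simp only [mul_one, Finset.sum_const, nsmul_eq_mul] at this
  unfold WW
  rw [this]; ring

theorem EE_hv (G : SimpleGraph V) (X : V → ℝ) (u : V) (B : Finset V) :
    EE G X (hv u B) = (1/2) * (1 / (Fintype.card V : ℝ))^2 * ∑ a ∈ B, ∑ b ∈ B, wt G X a b
      - (B.card : ℝ) * (1 / (Fintype.card V : ℝ)) * (1 / (Fintype.card V : ℝ)) * ∑ b ∈ B, wt G X u b := by
  have h1 : ∀ a, ∑ b, hv u B a * hv u B b * (ad G a b * (X a + X b)^2) =
      hv u B a * ((B.card : ℝ) * (1 / (Fintype.card V : ℝ)) * wt G X a u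
      - (1 / (Fintype.card V : ℝ)) * ∑ b ∈ B, wt G X a b) := by
    intro a
    rw [← sum_hv u B (fun b => wt G X a b), Finset.mul_sum]
    refine Finset.sum_congr rfl fun b _ => ?_
    unfold wt; ring
  unfold EE
  simp only [h1]
  rw [sum_hv u B (fun a => ((B.card : ℝ) * (1 / (Fintype.card V : ℝ)) * wt G X a u
      - (1 / (Fintype.card V : ℝ)) * ∑ b ∈ B, wt G X a b)), wt_self, Finset.sum_sub_distrib,
      ← Finset.mul_sum, ← Finset.mul_sum]
  have h2 : ∑ i ∈ B, wt G X i u = ∑ b ∈ B, wt G X u b :=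
    Finset.sum_congr rfl fun b _ => wt_comm G X b u
  rw [h2]
  ring

theorem Gam_clone (G : SimpleGraph V) (X : V → ℝ) (l : ℝ) (u : V) (B : Finset V) :
    Gam G X l (fun v => u0 V v + hv u B v) = Gam G X l (u0 V)
      + (1 / (Fintype.card V : ℝ)) * ∑ b ∈ B, (gg G X l u - gg G X l b) + EE G X (hv u B) := by
  rw [Gam_add, Bil_u0, sum_hv]
  have : Gam G X l (hv u B) = EE G X (hv u B) := by
    unfold Gam; rw [WW_hv]; ring
  rw [this, Finset.sum_sub_distrib, Finset.sum_const, nsmul_eq_mul]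
  ring

theorem kap_le (G : SimpleGraph V) (u : V) (p : V → ℝ) (hn : 1 ≤ Fintype.card V)
    (hp : ∀ v, 0 ≤ p v) (hpu : p u ≤ 1) (hpv : ∀ v, v ≠ u → p v ≤ 1 / (Fintype.card V : ℝ)) (j : ℕ) :
    kap G (j+1) p ≤ (cq G (j+1) : ℝ) * (1 / (Fintype.card V : ℝ))^j := by
  classical
  unfold kap cq
  rw [← nsmul_eq_mul, ← Finset.sum_const]
  refine Finset.sum_le_sum fun T hT => ?_
  have hT' : G.IsNClique (j+1) T := by simpa using hT
  have hc := hT'.card_eq
  have hn' : (1:ℝ) ≤ (Fintype.card V : ℝ) := by exact_mod_cast hn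
  have hi : 1 / (Fintype.card V : ℝ) ≤ 1 := by rw [div_le_one (by linarith)]; exact hn'
  have hi0 : 0 ≤ 1 / (Fintype.card V : ℝ) := by positivity
  by_cases hu : u ∈ T
  · rw [← Finset.mul_prod_erase T p hu]
    have h1 : ∏ x ∈ T.erase u, p x ≤ (1 / (Fintype.card V : ℝ))^j := by
      have : (T.erase u).card = j := by rw [Finset.card_erase_of_mem hu, hc]; rfl
      rw [← this, ← Finset.prod_const]
      exact Finset.prod_le_prod (fun v _ => hp v) (fun v hv => hpv v (Finset.ne_of_mem_erase hv))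
    have h2 : 0 ≤ ∏ x ∈ T.erase u, p x := Finset.prod_nonneg fun v _ => hp v
    calc p u * ∏ x ∈ T.erase u, p x ≤ 1 * ∏ x ∈ T.erase u, p x := mul_le_mul_of_nonneg_right hpu h2
      _ = ∏ x ∈ T.erase u, p x := one_mul _
      _ ≤ _ := h1
  · have h1 : ∏ x ∈ T, p x ≤ (1 / (Fintype.card V : ℝ))^(j+1) := by
      rw [← hc, ← Finset.prod_const]
      exact Finset.prod_le_prod (fun v _ => hp v) (fun v hv => hpv v (fun h => hu (h ▸ hv)))
    refine h1.trans ?_
    exact pow_le_pow_of_le_one hi0 hi (Nat.le_succ j)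

theorem clone_nonneg (u : V) (B : Finset V) (v : V) : 0 ≤ u0 V v + hv u B v := by
  unfold u0 hv
  have h0 : 0 ≤ 1 / (Fintype.card V : ℝ) := by positivity
  have h1 : 0 ≤ (B.card : ℝ) * (1 / (Fintype.card V : ℝ)) := by positivity
  split_ifs <;> linarith

theorem clone_le (hn : 1 ≤ Fintype.card V) (u : V) (B : Finset V) : u0 V u + hv u B u ≤ 1 := by
  unfold u0 hv
  have hn' : (1:ℝ) ≤ (Fintype.card V : ℝ) := by exact_mod_cast hn
  simp only [if_true]
  split_ifs with h
  · have : (B.card : ℝ) ≤ Fintype.card V := by exact_mod_cast Finset.card_le_univ B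
    have h2 : (B.card : ℝ) * (1 / (Fintype.card V : ℝ)) ≤ (Fintype.card V : ℝ) * (1 / (Fintype.card V : ℝ)) :=
      mul_le_mul_of_nonneg_right this (by positivity)
    rw [mul_one_div_cancel (by linarith)] at h2
    linarith
  · have : B.card + 1 ≤ Fintype.card V := by
      have := Finset.card_lt_univ_of_notMem h
      omega
    have : (B.card : ℝ) + 1 ≤ Fintype.card V := by exact_mod_cast this
    have h2 : ((B.card : ℝ) + 1) * (1 / (Fintype.card V : ℝ)) ≤ (Fintype.card V : ℝ) * (1 / (Fintype.card V : ℝ)) :=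
      mul_le_mul_of_nonneg_right this (by positivity)
    rw [mul_one_div_cancel (by linarith)] at h2
    linarith

theorem clone_le' (u : V) (B : Finset V) (v : V) (hvu : v ≠ u) :
    u0 V v + hv u B v ≤ 1 / (Fintype.card V : ℝ) := by
  unfold u0 hv
  have h0 : 0 ≤ 1 / (Fintype.card V : ℝ) := by positivity
  simp only [hvu, if_false]
  split_ifs <;> linarith

theorem WW_u0 (hn : 1 ≤ Fintype.card V) : WW (u0 V) = 1 := by
  unfold WW u0
  have hn' : (1:ℝ) ≤ (Fintype.card V : ℝ) := by exact_mod_cast hn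
  rw [Finset.sum_const, nsmul_eq_mul, Finset.card_univ, mul_one_div_cancel (by linarith)]

theorem WW_clone (hn : 1 ≤ Fintype.card V) (u : V) (B : Finset V) :
    WW (fun v => u0 V v + hv u B v) = 1 := by
  have h1 := WW_u0 (V := V) hn
  have h2 := WW_hv u B
  unfold WW at *
  rw [Finset.sum_add_distrib, h1, h2]; ring

/-- the bundled data -/
structure Dat (G : SimpleGraph V) (X : V → ℝ) (k : ℕ) (e C : ℝ) : Prop where
  hk : 3 ≤ k
  hn : 1 ≤ Fintype.card V
  hX0 : ∀ v, 0 ≤ X v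
  hX6 : ∀ v, X v ≤ 6
  hXs : ∑ v, X v ^ 2 = Fintype.card V
  hG : 0 < Gam G X (2 * (1 - 1/(k:ℝ))) (u0 V)
  hN : (cq G (k+1) : ℝ) * (1 / (Fintype.card V : ℝ))^k ≤ 1 / (Fintype.card V : ℝ)
  he : 0 < e
  hC : 0 ≤ C
  hCn : C * (1 / (Fintype.card V : ℝ)) ≤ e
  rob : ∀ p : V → ℝ, (∀ v, 0 ≤ p v) → WW p ≤ 1 →
    Gam G X (2 * (1 - 1/(k:ℝ))) p ≤ e + C * kap G (k+1) p
  rob' : ∀ p : V → ℝ, (∀ v, 0 ≤ p v) → WW p ≤ 1 →
    Gam G X (2 * (1 - 1/((k-1:ℕ):ℝ))) p ≤ e + C * kap G k p

theorem clone_upper {G : SimpleGraph V} {X : V → ℝ} {k : ℕ} {e C : ℝ} (D : Dat G X k e C)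
    (u : V) (B : Finset V) :
    Gam G X (2 * (1 - 1/(k:ℝ))) (fun v => u0 V v + hv u B v) ≤ 2 * e := by
  have h1 := D.rob (fun v => u0 V v + hv u B v) (clone_nonneg u B) (WW_clone D.hn u B).le
  have h2 := kap_le G u (fun v => u0 V v + hv u B v) D.hn (clone_nonneg u B) (clone_le D.hn u B)
    (clone_le' u B) k
  have h3 := mul_le_mul_of_nonneg_left (h2.trans D.hN) D.hC
  have h4 := D.hCn
  linarith

end Pool.Agent.Helper56.QCl
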