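import Pool.Agent.Helper56.QCl.Clone

set_option autoImplicit false
set_option linter.unusedSectionVars false

open Finset BigOperators

namespace Pool.Agent.Helper56.QCl

variable {V : Type} [Fintype V] [DecidableEq V]

section
variable {G : SimpleGraph V} {X : V → ℝ} {k : ℕ} {e C : ℝ}

theorem Dat.npos (D : Dat G X k e C) : (0:ℝ) < (Fintype.card V : ℝ) := by
  have := D.hn
  have : (1:ℝ) ≤ (Fintype.card V : ℝ) := by exact_mod_cast this
  linarith

theorem Dat.kinv (D : Dat G X k e C) : 0 < 1/(k:ℝ) ∧ 1/(k:ℝ) ≤ 1/3 := by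
  have := D.hk
  have h3 : (3:ℝ) ≤ k := by exact_mod_cast this
  constructor
  · positivity
  · exact one_div_le_one_div_of_le (by norm_num) h3

theorem Dat.meanX2 (D : Dat G X k e C) : (1 / (Fintype.card V : ℝ)) * ∑ v, X v ^ 2 = 1 := by
  rw [D.hXs, one_div_mul_cancel D.npos.ne']

theorem Dat.sumX_le (D : Dat G X k e C) : (1 / (Fintype.card V : ℝ)) * ∑ v, X v ≤ 1 := by
  have h1 := sq_sum_le_card_mul_sum_sq (s := univ) (f := X)
  rw [D.hXs, Finset.card_univ] at h1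
  have h2 := abs_le_of_sq_le_sq (by nlinarith : (∑ v, X v)^2 ≤ (Fintype.card V : ℝ)^2) D.npos.le
  rw [one_div, inv_mul_le_iff₀ D.npos]
  linarith [(abs_le.mp h2).2]

theorem Dat.gg_eq (D : Dat G X k e C) (l : ℝ) (v : V) :
    gg G X l v = (1 / (Fintype.card V : ℝ)) * ∑ a, wt G X a v - l * (1 + X v ^ 2) := by
  have h0 := D.meanX2
  have h1 : gg G X l v = (1 / (Fintype.card V : ℝ)) * ∑ a, wt G X a v
      - l * ((1 / (Fintype.card V : ℝ)) * ∑ v, X v ^ 2) - l * X v ^ 2 * (∑ a : V, (1 / (Fintype.card V : ℝ))) := by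
    unfold gg u0 cc wt
    rw [Finset.mul_sum, Finset.mul_sum, Finset.mul_sum, Finset.mul_sum, ← Finset.sum_sub_distrib,
      ← Finset.sum_sub_distrib]
    refine Finset.sum_congr rfl fun a _ => ?_
    ring
  have h2 : (∑ a : V, (1 / (Fintype.card V : ℝ))) = 1 := by
    rw [Finset.sum_const, nsmul_eq_mul, Finset.card_univ, mul_one_div_cancel D.npos.ne']
  rw [h1, h0, h2]; ring

theorem Dat.gg_lower (D : Dat G X k e C) (v : V) : -74 ≤ gg G X (2 * (1 - 1/(k:ℝ))) v := by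
  rw [D.gg_eq]
  have h1 : 0 ≤ (1 / (Fintype.card V : ℝ)) * ∑ a, wt G X a v :=
    mul_nonneg (by positivity) (Finset.sum_nonneg fun a _ => wt_nonneg G X a v)
  have h2 := D.kinv
  have h3 := D.hX0 v
  have h4 := D.hX6 v
  have h5 : X v ^ 2 ≤ 36 := by nlinarith
  nlinarith

theorem Dat.phi_le (D : Dat G X k e C) (v : V) :
    (1 / (Fintype.card V : ℝ)) * ∑ a, wt G X a v ≤ 1 + 2 * X v + X v ^ 2 := by
  have h1 : ∑ a, wt G X a v ≤ ∑ a, (X a ^ 2 + 2 * X v * X a + X v ^ 2) := by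
    refine Finset.sum_le_sum fun a _ => (wt_le G X a v).trans (le_of_eq (by ring))
  rw [Finset.sum_add_distrib, Finset.sum_add_distrib, ← Finset.mul_sum, Finset.sum_const,
    nsmul_eq_mul, Finset.card_univ] at h1
  have h2 := mul_le_mul_of_nonneg_left h1 (by positivity : 0 ≤ 1 / (Fintype.card V : ℝ))
  have h3 : (1 / (Fintype.card V : ℝ)) * (∑ a, X a ^ 2 + 2 * X v * ∑ a, X a + (Fintype.card V : ℝ) * X v ^ 2)
      = (1 / (Fintype.card V : ℝ)) * ∑ a, X a ^ 2 + 2 * X v * ((1 / (Fintype.card V : ℝ)) * ∑ a, X a)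
        + ((1 / (Fintype.card V : ℝ)) * (Fintype.card V : ℝ)) * X v ^ 2 := by ring
  rw [h3, D.meanX2, one_div_mul_cancel D.npos.ne'] at h2
  have h4 := D.sumX_le
  have h5 := D.hX0 v
  nlinarith

theorem Dat.X_lower (D : Dat G X k e C) (v : V) (h : -(1/12) ≤ gg G X (2 * (1 - 1/(k:ℝ))) v) :
    1/8 ≤ X v := by
  rw [D.gg_eq] at h
  have h1 := D.phi_le v
  have h2 := D.kinv
  nlinarith [sq_nonneg (X v)]

theorem Dat.sum_gg (_D : Dat G X k e C) (l : ℝ) :
    (1 / (Fintype.card V : ℝ)) * ∑ v, gg G X l v = 2 * Gam G X l (u0 V) := by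
  rw [Gam_eq]
  have : ∑ u, ∑ v, u0 V u * u0 V v * cc G X l u v = (1 / (Fintype.card V : ℝ)) * ∑ v, gg G X l v := by
    rw [Finset.sum_comm, Finset.mul_sum]
    refine Finset.sum_congr rfl fun v _ => ?_
    unfold gg
    rw [Finset.mul_sum]
    refine Finset.sum_congr rfl fun a _ => ?_
    unfold u0; ring
  rw [this]; ring

theorem Dat.wt_le' (D : Dat G X k e C) (a b : V) : wt G X a b ≤ 144 := by
  refine (wt_le G X a b).trans ?_
  have h1 := D.hX0 a
  have h2 := D.hX0 b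
  have h3 := D.hX6 a
  have h4 := D.hX6 b
  nlinarith

theorem Dat.Gam_u0_le (D : Dat G X k e C) : Gam G X (2 * (1 - 1/(k:ℝ))) (u0 V) ≤ 2 * e := by
  obtain ⟨u⟩ : Nonempty V := Fintype.card_pos_iff.mp D.hn
  have h1 := clone_upper D u ∅
  rw [Gam_clone, EE_hv] at h1
  simpa using h1

open Classical in
/-- the low set -/
noncomputable def LL (G : SimpleGraph V) (X : V → ℝ) (k : ℕ) (g : ℝ) : Finset V :=
  univ.filter (fun v => gg G X (2 * (1 - 1/(k:ℝ))) v < -g)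

theorem mem_LL (g : ℝ) (v : V) : v ∈ LL G X k g ↔ gg G X (2 * (1 - 1/(k:ℝ))) v < -g := by
  unfold LL; simp

theorem Dat.card_LL (D : Dat G X k e C) (g : ℝ) (hg : 0 < g) (hg1 : g ≤ 1)
    (he : e ≤ g^2 / 10000) (hn : 1 / (Fintype.card V : ℝ) ≤ g / 1000) :
    ((LL G X k g).card : ℝ) * (1 / (Fintype.card V : ℝ)) ≤ g / 1000 := by
  by_contra hcon
  push Not at hcon
  have hnpos := D.npos
  set n : ℝ := (Fintype.card V : ℝ) with hn_def
  set m := ⌈g / 1000 * n⌉₊ with hm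
  have hLn : g / 1000 * n < ((LL G X k g).card : ℝ) := by
    have := mul_lt_mul_of_pos_right hcon hnpos
    rwa [mul_assoc, one_div_mul_cancel hnpos.ne', mul_one] at this
  have hmL : m ≤ (LL G X k g).card := by
    rw [hm]; exact Nat.ceil_le.mpr hLn.le
  obtain ⟨B, hBL, hBm⟩ := Finset.exists_subset_card_eq hmL
  have hm1 : g / 1000 * n ≤ (m:ℝ) := Nat.le_ceil _
  have hm2 : (m:ℝ) < g / 1000 * n + 1 := Nat.ceil_lt_add_one (by positivity)
  have hex : ∃ u, 0 ≤ gg G X (2 * (1 - 1/(k:ℝ))) u := by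
    by_contra hno
    push Not at hno
    have h1 := D.sum_gg (2 * (1 - 1/(k:ℝ)))
    have h2 := D.hG
    have h3 : ∑ v, gg G X (2 * (1 - 1/(k:ℝ))) v ≤ 0 := Finset.sum_nonpos fun v _ => (hno v).le
    have h4 : 0 ≤ (1 / (Fintype.card V : ℝ)) := by positivity
    nlinarith
  obtain ⟨u, hu⟩ := hex
  have h1 := clone_upper D u B
  rw [Gam_clone, EE_hv, hBm] at h1
  have h2 : ∑ b ∈ B, wt G X u b ≤ (m:ℝ) * 144 := by
    rw [← hBm, ← nsmul_eq_mul, ← Finset.sum_const]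
    exact Finset.sum_le_sum fun b _ => D.wt_le' u b
  have h3 : (m:ℝ) * g ≤ ∑ b ∈ B, (gg G X (2 * (1 - 1/(k:ℝ))) u - gg G X (2 * (1 - 1/(k:ℝ))) b) := by
    rw [← hBm, ← nsmul_eq_mul, ← Finset.sum_const]
    refine Finset.sum_le_sum fun b hb => ?_
    have := (mem_LL g b).mp (hBL hb)
    linarith
  have h4 : 0 ≤ ∑ a ∈ B, ∑ b ∈ B, wt G X a b :=
    Finset.sum_nonneg fun a _ => Finset.sum_nonneg fun b _ => wt_nonneg G X a b
  have h5 := D.hG
  have hi : 0 < 1 / n := by positivity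
  rw [← hn_def] at h1
  set y : ℝ := (m:ℝ) * (1/n) with hy
  have hy1 : g / 1000 ≤ y := by
    have := mul_le_mul_of_nonneg_right hm1 hi.le
    rwa [mul_assoc, mul_one_div_cancel hnpos.ne', mul_one] at this
  have hy2 : y ≤ 2 * (g / 1000) := by
    have := mul_le_mul_of_nonneg_right hm2.le hi.le
    rw [add_mul, mul_assoc, mul_one_div_cancel hnpos.ne', mul_one, one_mul] at this
    linarith
  have e1 : (1/n) * ((m:ℝ) * g) = y * g := by rw [hy]; ring
  have e2 : (m:ℝ) * (1/n) * (1/n) * ((m:ℝ) * 144) = 144 * y^2 := by rw [hy]; ring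
  have h6 : y * g ≤ (1/n) * ∑ b ∈ B, (gg G X (2 * (1 - 1/(k:ℝ))) u - gg G X (2 * (1 - 1/(k:ℝ))) b) := by
    rw [← e1]; exact mul_le_mul_of_nonneg_left h3 hi.le
  have h7 : (m:ℝ) * (1/n) * (1/n) * ∑ b ∈ B, wt G X u b ≤ 144 * y^2 := by
    rw [← e2]; exact mul_le_mul_of_nonneg_left h2 (by positivity)
  have h8 : 0 ≤ (1/2) * (1/n)^2 * ∑ a ∈ B, ∑ b ∈ B, wt G X a b := mul_nonneg (by positivity) h4
  have h9 : y * g - 144 * y^2 ≤ 2 * e := by linarith
  nlinarith

theorem Dat.gg_ge (D : Dat G X k e C) (g : ℝ) (hg : 0 < g) (b : V) :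
    - g - (if b ∈ LL G X k g then 74 else 0) ≤ gg G X (2 * (1 - 1/(k:ℝ))) b := by
  by_cases hb : b ∈ LL G X k g
  · rw [if_pos hb]; linarith [D.gg_lower b]
  · rw [if_neg hb]
    rw [mem_LL] at hb
    push Not at hb
    linarith

/-- main cloning bound -/
theorem Dat.clone_main (D : Dat G X k e C) (g : ℝ) (hg : 0 < g) (hg1 : g ≤ 1)
    (he : e ≤ g^2 / 10000) (hn : 1 / (Fintype.card V : ℝ) ≤ g / 1000) (u : V)
    (hu : u ∉ LL G X k g) :
    -(3 * g) + (1/2) * (1 / (Fintype.card V : ℝ))^2 * ∑ a ∈ NA G u, ∑ b ∈ NA G u, wt G X a b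
      ≤ Gam G X (2 * (1 - 1/(k:ℝ))) (fun v => u0 V v + hv u (NA G u) v) := by
  have hL := D.card_LL g hg hg1 he hn
  rw [Gam_clone, EE_hv]
  have hz : ∑ b ∈ NA G u, wt G X u b = 0 := by
    refine Finset.sum_eq_zero fun b hb => ?_
    rw [mem_NA] at hb
    unfold wt ad
    rw [if_neg hb]; ring
  rw [hz]
  have hnpos := D.npos
  set n : ℝ := (Fintype.card V : ℝ) with hn_def
  have hi : 0 < 1 / n := by positivity
  set gf := gg G X (2 * (1 - 1/(k:ℝ))) with hgf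
  have hug : -g ≤ gf u := by
    rw [mem_LL] at hu; push Not at hu; exact hu
  have h1 : ∑ b ∈ NA G u, gf b + ∑ b ∈ (NA G u)ᶜ, gf b = ∑ b, gf b := Finset.sum_add_sum_compl _ _
  have h2 : -(g * n) - 74 * ((LL G X k g).card : ℝ) ≤ ∑ b ∈ (NA G u)ᶜ, gf b := by
    have h3 : ∑ b ∈ (NA G u)ᶜ, (- g - (if b ∈ LL G X k g then 74 else 0)) ≤ ∑ b ∈ (NA G u)ᶜ, gf b :=
      Finset.sum_le_sum fun b _ => D.gg_ge g hg b
    refine le_trans ?_ h3
    have h4 : ∑ b : V, (- g - (if b ∈ LL G X k g then 74 else 0)) ≤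
        ∑ b ∈ (NA G u)ᶜ, (- g - (if b ∈ LL G X k g then (74:ℝ) else 0)) := by
      rw [← Finset.sum_add_sum_compl (NA G u)]
      have : ∑ b ∈ NA G u, (- g - (if b ∈ LL G X k g then (74:ℝ) else 0)) ≤ 0 :=
        Finset.sum_nonpos fun b _ => by split_ifs <;> linarith
      linarith
    refine le_trans (le_of_eq ?_) h4
    rw [Finset.sum_sub_distrib, Finset.sum_const, nsmul_eq_mul, Finset.card_univ,
      ← Finset.sum_filter]
    have : univ.filter (fun b => b ∈ LL G X k g) = LL G X k g := by ext; simp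
    rw [this, Finset.sum_const, nsmul_eq_mul]
    ring
  have h3 := D.sum_gg (2 * (1 - 1/(k:ℝ)))
  rw [← hgf, ← hn_def] at h3
  have h4 := D.Gam_u0_le
  have h5 : (1/n) * ∑ b ∈ NA G u, gf b ≤ 2 * Gam G X (2 * (1 - 1/(k:ℝ))) (u0 V) + g + 74 * (g/1000) := by
    have h6 : ∑ b ∈ NA G u, gf b ≤ ∑ b, gf b + g * n + 74 * ((LL G X k g).card : ℝ) := by linarith
    have h7 := mul_le_mul_of_nonneg_left h6 hi.le
    have h8 : (1/n) * (∑ b, gf b + g * n + 74 * ((LL G X k g).card : ℝ)) =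
      (1/n) * ∑ b, gf b + g * ((1/n) * n) + 74 * (((LL G X k g).card : ℝ) * (1/n)) := by ring
    rw [h8, h3, one_div_mul_cancel hnpos.ne'] at h7
    linarith
  have h6 : (1/n) * ∑ b ∈ NA G u, (gf u - gf b) = ((NA G u).card : ℝ) * (1/n) * gf u
      - (1/n) * ∑ b ∈ NA G u, gf b := by
    rw [Finset.sum_sub_distrib, Finset.sum_const, nsmul_eq_mul]; ring
  have h7 : ((NA G u).card : ℝ) * (1/n) ≤ 1 := by
    have : ((NA G u).card : ℝ) ≤ n := by rw [hn_def]; exact_mod_cast Finset.card_le_univ _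
    have := mul_le_mul_of_nonneg_right this hi.le
    rwa [mul_one_div_cancel hnpos.ne'] at this
  have h8 : 0 ≤ ((NA G u).card : ℝ) * (1/n) := by positivity
  have h9 : -g ≤ ((NA G u).card : ℝ) * (1/n) * gf u := by nlinarith
  rw [h6]
  have hgg : g^2 ≤ g := by nlinarith
  nlinarith

theorem Dat.EA (D : Dat G X k e C) (g : ℝ) (hg : 0 < g) (hg1 : g ≤ 1)
    (he : e ≤ g^2 / 10000) (hn : 1 / (Fintype.card V : ℝ) ≤ g / 1000) (u : V)
    (hu : u ∉ LL G X k g) :
    (1 / (Fintype.card V : ℝ))^2 * ∑ a ∈ NA G u, ∑ b ∈ NA G u, wt G X a b ≤ 8 * g := by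
  have h1 := D.clone_main g hg hg1 he hn u hu
  have h2 := clone_upper D u (NA G u)
  have hgg : g^2 ≤ g := by nlinarith
  nlinarith

open Classical in
theorem Dat.pairs (D : Dat G X k e C) (g : ℝ) (hg : 0 < g) (hg1 : g ≤ 1/12)
    (he : e ≤ g^2 / 10000) (hn : 1 / (Fintype.card V : ℝ) ≤ g / 1000) (u : V)
    (hu : u ∉ LL G X k g) :
    ((((NA G u \ LL G X k g) ×ˢ (NA G u \ LL G X k g)).filter (fun p => G.Adj p.1 p.2)).card : ℝ)
      ≤ 128 * g * (Fintype.card V : ℝ)^2 := by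
  have h1 := D.EA g hg (by linarith) he hn u hu
  have hnpos := D.npos
  set n : ℝ := (Fintype.card V : ℝ) with hn_def
  set S := ((NA G u \ LL G X k g) ×ˢ (NA G u \ LL G X k g)).filter (fun p => G.Adj p.1 p.2) with hS
  have h2 : (S.card : ℝ) * (1/16) ≤ ∑ a ∈ NA G u, ∑ b ∈ NA G u, wt G X a b := by
    rw [← Finset.sum_product', ← nsmul_eq_mul, ← Finset.sum_const]
    calc ∑ p ∈ S, (1/16 : ℝ) ≤ ∑ p ∈ S, wt G X p.1 p.2 := by
          refine Finset.sum_le_sum fun p hp => ?_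
          rw [hS, Finset.mem_filter, Finset.mem_product, Finset.mem_sdiff, Finset.mem_sdiff] at hp
          have ha : 1/8 ≤ X p.1 := D.X_lower p.1 (by
            have := hp.1.1.2
            rw [mem_LL] at this
            push Not at this
            linarith)
          have hb : 1/8 ≤ X p.2 := D.X_lower p.2 (by
            have := hp.1.2.2
            rw [mem_LL] at this
            push Not at this
            linarith)
          unfold wt ad
          rw [if_pos hp.2]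
          nlinarith
      _ ≤ ∑ p ∈ NA G u ×ˢ NA G u, wt G X p.1 p.2 := by
          refine Finset.sum_le_sum_of_subset_of_nonneg ?_ (fun p _ _ => wt_nonneg G X p.1 p.2)
          intro p hp
          rw [hS, Finset.mem_filter, Finset.mem_product, Finset.mem_sdiff, Finset.mem_sdiff] at hp
          rw [Finset.mem_product]
          exact ⟨hp.1.1.1, hp.1.2.1⟩
  have h3 : ∑ a ∈ NA G u, ∑ b ∈ NA G u, wt G X a b ≤ 8 * g * n^2 := by
    have h4 := mul_le_mul_of_nonneg_left h1 (by positivity : 0 ≤ n^2)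
    have h5 : n^2 * ((1/n)^2 * ∑ a ∈ NA G u, ∑ b ∈ NA G u, wt G X a b) =
      ∑ a ∈ NA G u, ∑ b ∈ NA G u, wt G X a b := by field_simp
    rw [h5] at h4
    linarith
  linarith

end

end Pool.Agent.Helper56.QCl
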