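import Pool.Agent.Helper56.QCl.Degree

set_option autoImplicit false
set_option linter.unusedSectionVars false

open Finset BigOperators

namespace Pool.Agent.Helper56.QCl

variable {V : Type} [Fintype V] [DecidableEq V]

section
variable {G : SimpleGraph V} {X : V → ℝ} {k : ℕ} {e C : ℝ}

noncomputable def w1 (G : SimpleGraph V) (u : V) : V → ℝ :=
  fun v => if v ∈ NN G u then 1 / (Fintype.card V : ℝ) else 0

theorem clone_split (G : SimpleGraph V) (u : V) :
    (fun v => u0 V v + hv u (NA G u) v) =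
      (fun v => w1 G u v + (if v = u then ((NA G u).card : ℝ) * (1 / (Fintype.card V : ℝ)) else 0)) := by
  funext v
  unfold u0 hv w1
  by_cases h : G.Adj u v
  · have h1 : v ≠ u := fun h' => by subst h'; exact G.irrefl h
    have h2 : v ∈ NN G u := (mem_NN G u v).mpr h
    have h3 : v ∉ NA G u := fun h' => (mem_NA G u v).mp h' h
    simp [h1, h2, h3]
  · have h2 : v ∉ NN G u := fun h' => h ((mem_NN G u v).mp h')
    have h3 : v ∈ NA G u := (mem_NA G u v).mpr h
    by_cases h1 : v = u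
    · subst h1; simp [h2, h3]
    · simp [h1, h2, h3]

theorem sum_w1 (G : SimpleGraph V) (u : V) (f : V → ℝ) :
    ∑ v, w1 G u v * f v = (1 / (Fintype.card V : ℝ)) * ∑ v ∈ NN G u, f v := by
  unfold w1
  have : ∀ v, (if v ∈ NN G u then 1 / (Fintype.card V : ℝ) else 0) * f v =
      if v ∈ NN G u then 1 / (Fintype.card V : ℝ) * f v else 0 := by
    intro v; split_ifs <;> ring
  simp only [this]
  rw [← Finset.sum_filter]
  have h : univ.filter (fun v => v ∈ NN G u) = NN G u := by ext; simp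
  rw [h, Finset.mul_sum]

theorem kap_w1 (G : SimpleGraph V) (u : V) (k : ℕ) :
    kap G k (w1 G u) ≤ (cq G (k+1) : ℝ) * (1 / (Fintype.card V : ℝ))^k := by
  classical
  unfold kap
  have h1 : ∑ T ∈ univ.filter (fun T : Finset V => G.IsNClique k T), ∏ v ∈ T, w1 G u v
      = ∑ T ∈ univ.filter (fun T : Finset V => G.IsNClique k T ∧ T ⊆ NN G u), ∏ v ∈ T, w1 G u v := by
    symm
    refine Finset.sum_subset ?_ ?_
    · intro T hT
      simp only [Finset.mem_filter, Finset.mem_univ, true_and] at hT ⊢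
      exact hT.1
    · intro T hT hT'
      simp only [Finset.mem_filter, Finset.mem_univ, true_and] at hT hT'
      have : ¬ T ⊆ NN G u := fun h => hT' ⟨hT, h⟩
      rw [Finset.not_subset] at this
      obtain ⟨v, hv, hv'⟩ := this
      exact Finset.prod_eq_zero hv (by unfold w1; rw [if_neg hv'])
  have h2 : ∀ T ∈ univ.filter (fun T : Finset V => G.IsNClique k T ∧ T ⊆ NN G u),
      ∏ v ∈ T, w1 G u v = (1 / (Fintype.card V : ℝ))^k := by
    intro T hT
    simp only [Finset.mem_filter, Finset.mem_univ, true_and] at hT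
    rw [← hT.1.card_eq, ← Finset.prod_const]
    refine Finset.prod_congr rfl fun v hv => ?_
    unfold w1; rw [if_pos (hT.2 hv)]
  have h3 : (univ.filter (fun T : Finset V => G.IsNClique k T ∧ T ⊆ NN G u)).card ≤ cq G (k+1) := by
    unfold cq
    refine Finset.card_le_card_of_injOn (fun T => insert u T) ?_ ?_
    · intro T hT
      simp only [Finset.coe_filter, Finset.mem_univ, true_and, Set.mem_ofPred_eq] at hT ⊢
      exact hT.1.insert (fun b hb => (mem_NN G u b).mp (hT.2 hb))
    · intro T hT T' hT' heq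
      simp only [Finset.coe_filter, Finset.mem_univ, true_and, Set.mem_ofPred_eq] at hT hT' heq
      have e1 : u ∉ T := fun h => G.irrefl ((mem_NN G u u).mp (hT.2 h))
      have e2 : u ∉ T' := fun h => G.irrefl ((mem_NN G u u).mp (hT'.2 h))
      rw [← Finset.erase_insert e1, ← Finset.erase_insert e2, heq]
  have h4 : ∑ T ∈ univ.filter (fun T : Finset V => G.IsNClique k T), ∏ v ∈ T, w1 G u v
      ≤ (cq G (k+1) : ℝ) * (1 / (Fintype.card V : ℝ))^k := by
    rw [h1, Finset.sum_congr rfl h2, Finset.sum_const, nsmul_eq_mul]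
    refine mul_le_mul_of_nonneg_right ?_ (by positivity)
    exact_mod_cast h3
  refine le_trans (le_of_eq ?_) h4
  refine Finset.sum_congr ?_ (fun _ _ => rfl)
  ext T; simp

theorem Gam_split (G : SimpleGraph V) (X : V → ℝ) (l : ℝ) (u : V) (a nu P S : ℝ)
    (ha : a = ((NA G u).card : ℝ) * (1 / (Fintype.card V : ℝ)))
    (hnu : nu = ((NN G u).card : ℝ) * (1 / (Fintype.card V : ℝ)))
    (hP : P = (1 / (Fintype.card V : ℝ)) * ∑ v ∈ NN G u, X v ^ 2)
    (hS : S = (1 / (Fintype.card V : ℝ)) * ∑ v ∈ NN G u, X v) :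
    Gam G X l (fun v => u0 V v + hv u (NA G u) v) =
      EE G X (w1 G u) - l * nu * P + a * (nu * X u ^ 2 + 2 * X u * S + P - l * nu * X u ^ 2 - l * P)
      - l * a^2 * X u ^ 2 := by
  rw [clone_split, Gam_add]
  have h1 : Gam G X l (w1 G u) = EE G X (w1 G u) - l * nu * P := by
    unfold Gam
    have e1 : WW (w1 G u) = nu := by
      have := sum_w1 G u (fun _ => 1)
      simp only [mul_one, Finset.sum_const, nsmul_eq_mul] at this
      unfold WW
      rw [this, hnu]; ring
    have e2 : PP X (w1 G u) = P := by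
      unfold PP
      rw [sum_w1, hP]
    rw [e1, e2]
  have h2 : Bil G X l (w1 G u) (fun v => if v = u then ((NA G u).card : ℝ) * (1 / (Fintype.card V : ℝ)) else 0)
      = a * (nu * X u ^ 2 + 2 * X u * S + P - l * nu * X u ^ 2 - l * P) := by
    unfold Bil
    have e1 : ∀ x, ∑ y, w1 G u x * (if y = u then ((NA G u).card : ℝ) * (1 / (Fintype.card V : ℝ)) else 0)
        * cc G X l x y = w1 G u x * (a * cc G X l x u) := by
      intro x
      have : ∀ y, w1 G u x * (if y = u then ((NA G u).card : ℝ) * (1 / (Fintype.card V : ℝ)) else 0)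
        * cc G X l x y = if y = u then w1 G u x * (a * cc G X l x y) else 0 := by
        intro y; rw [ha]; split_ifs <;> ring
      simp only [this, Finset.sum_ite_eq', Finset.mem_univ, if_true]
    simp only [e1]
    rw [sum_w1]
    have e2 : ∑ v ∈ NN G u, a * cc G X l v u = ∑ v ∈ NN G u,
        a * ((1-l) * X v ^2 + 2 * X u * X v + (1-l) * X u ^ 2) := by
      refine Finset.sum_congr rfl fun v hv => ?_
      unfold cc ad
      rw [if_pos ((mem_NN G u v).mp hv).symm]; ring
    rw [e2, ← Finset.mul_sum, Finset.sum_add_distrib, Finset.sum_add_distrib, ← Finset.mul_sum,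
      ← Finset.mul_sum, Finset.sum_const, nsmul_eq_mul, hnu, hS, hP]
    ring
  have h3 : Gam G X l (fun v => if v = u then ((NA G u).card : ℝ) * (1 / (Fintype.card V : ℝ)) else 0)
      = - (l * a^2 * X u ^ 2) := by
    rw [Gam_eq]
    have e1 : ∀ x, ∑ y, (if x = u then ((NA G u).card : ℝ) * (1 / (Fintype.card V : ℝ)) else 0)
        * (if y = u then ((NA G u).card : ℝ) * (1 / (Fintype.card V : ℝ)) else 0)
        * cc G X l x y = if x = u then a * a * cc G X l x u else 0 := by
      intro x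
      have : ∀ y, (if x = u then ((NA G u).card : ℝ) * (1 / (Fintype.card V : ℝ)) else 0)
        * (if y = u then ((NA G u).card : ℝ) * (1 / (Fintype.card V : ℝ)) else 0)
        * cc G X l x y = if y = u then (if x = u then a * a * cc G X l x y else 0) else 0 := by
        intro y; rw [ha]; split_ifs <;> ring
      simp only [this, Finset.sum_ite_eq', Finset.mem_univ, if_true]
    simp only [e1, Finset.sum_ite_eq', Finset.mem_univ, if_true]
    unfold cc; rw [ad_self]; ring
  rw [h1, h2, h3]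
  ring

theorem Dat.deg (D : Dat G X k e C) (g : ℝ) (hg : 0 < g) (hg1 : g ≤ 1/12)
    (he : e ≤ g^2 / 10000) (hn : 1 / (Fintype.card V : ℝ) ≤ g / 1000) (u : V)
    (hu : u ∉ LL G X k g) :
    (((NN G u).card : ℝ) * (1 / (Fintype.card V : ℝ)) - (1 - 1/(k:ℝ)))^2 ≤ 32 * g := by
  have hnpos := D.npos
  have hK := D.hk
  have hK3 : (3:ℝ) ≤ k := by exact_mod_cast hK
  obtain ⟨a, ha⟩ : ∃ a, a = ((NA G u).card : ℝ) * (1 / (Fintype.card V : ℝ)) := ⟨_, rfl⟩
  obtain ⟨nu, hnu⟩ : ∃ nu, nu = ((NN G u).card : ℝ) * (1 / (Fintype.card V : ℝ)) := ⟨_, rfl⟩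
  obtain ⟨P, hP⟩ : ∃ P, P = (1 / (Fintype.card V : ℝ)) * ∑ v ∈ NN G u, X v ^ 2 := ⟨_, rfl⟩
  obtain ⟨S, hS⟩ : ∃ S, S = (1 / (Fintype.card V : ℝ)) * ∑ v ∈ NN G u, X v := ⟨_, rfl⟩
  rw [← hnu]
  have hsplit := Gam_split G X (2 * (1 - 1/(k:ℝ))) u a nu P S ha hnu hP hS
  have hmain := D.clone_main g hg (by linarith) he hn u hu
  rw [hsplit] at hmain
  have hnn : 0 ≤ (1/2) * (1 / (Fintype.card V : ℝ))^2 * ∑ a ∈ NA G u, ∑ b ∈ NA G u, wt G X a b :=
    mul_nonneg (by positivity) (Finset.sum_nonneg fun a _ => Finset.sum_nonneg fun b _ => wt_nonneg G X a b)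
  have hanu : a + nu = 1 := by
    have h1 : ((NA G u).card : ℝ) + ((NN G u).card : ℝ) = (Fintype.card V : ℝ) := by
      exact_mod_cast card_NA_add G u
    rw [ha, hnu, ← add_mul, h1, mul_one_div_cancel hnpos.ne']
  have ha0 : 0 ≤ a := by rw [ha]; positivity
  have hnu0 : 0 ≤ nu := by rw [hnu]; positivity
  have hnu1 : nu ≤ 1 := by linarith
  have hP0 : 0 ≤ P := by
    rw [hP]; exact mul_nonneg (by positivity) (Finset.sum_nonneg fun v _ => sq_nonneg _)
  have hSP : S^2 ≤ nu * P := by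
    have h1 := sq_sum_le_card_mul_sum_sq (s := NN G u) (f := X)
    have h2 := mul_le_mul_of_nonneg_left h1 (by positivity : 0 ≤ (1 / (Fintype.card V : ℝ))^2)
    rw [hS, hnu, hP]
    calc _ = (1 / (Fintype.card V : ℝ))^2 * (∑ v ∈ NN G u, X v)^2 := by ring
      _ ≤ _ := h2
      _ = _ := by ring
  have hrob := D.rob' (w1 G u) (by intro v; unfold w1; split_ifs <;> positivity) (by
    have := sum_w1 G u (fun _ => 1)
    simp only [mul_one, Finset.sum_const, nsmul_eq_mul] at this
    unfold WW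
    rw [this]; linarith)
  have hkap := (kap_w1 G u k).trans D.hN
  have hCk := mul_le_mul_of_nonneg_left hkap D.hC
  have hCn := D.hCn
  have hE : EE G X (w1 G u) ≤ 2 * (1 - 1/((k-1:ℕ):ℝ)) * nu * P + 2 * e := by
    unfold Gam at hrob
    have e1 : WW (w1 G u) = nu := by
      have := sum_w1 G u (fun _ => 1)
      simp only [mul_one, Finset.sum_const, nsmul_eq_mul] at this
      unfold WW
      rw [this, hnu]; ring
    have e2 : PP X (w1 G u) = P := by
      unfold PP
      rw [sum_w1, hP]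
    rw [e1, e2] at hrob
    linarith
  -- lower bound for P
  have hgu : -g ≤ gg G X (2 * (1 - 1/(k:ℝ))) u := by
    rw [mem_LL] at hu; push Not at hu; exact hu
  have hPhi : (1 / (Fintype.card V : ℝ)) * ∑ a, wt G X a u = nu * X u ^ 2 + 2 * X u * S + P := by
    have e1 : ∑ a, wt G X a u = ∑ a ∈ NN G u, (X a ^ 2 + 2 * X u * X a + X u ^ 2) := by
      symm
      rw [← Finset.sum_subset (Finset.subset_univ (NN G u))]
      · refine Finset.sum_congr rfl fun v hv => ?_
        unfold wt ad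
        rw [if_pos ((mem_NN G u v).mp hv).symm]; ring
      · intro v _ hv
        unfold wt ad
        rw [if_neg (fun h => hv ((mem_NN G u v).mpr (SimpleGraph.Adj.symm h)))]; ring
    rw [e1, Finset.sum_add_distrib, Finset.sum_add_distrib, ← Finset.mul_sum, Finset.sum_const,
      nsmul_eq_mul, hnu, hS, hP]
    ring
  rw [D.gg_eq, hPhi] at hgu
  have hx0 := D.hX0 u
  set x := X u with hx
  -- parameters
  have hcast : ((k-1:ℕ):ℝ) = (k:ℝ) - 1 := by
    rw [Nat.cast_sub (by omega)]; simp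
  rw [hcast] at hE
  obtain ⟨kk, hkk⟩ : ∃ kk, kk = (k:ℝ) := ⟨_, rfl⟩
  rw [← hkk] at hE hgu hmain hK3 ⊢
  obtain ⟨l, hl⟩ : ∃ l, l = 2 * (1 - 1/kk) := ⟨_, rfl⟩
  obtain ⟨l', hl'⟩ : ∃ l', l' = 2 * (1 - 1/(kk-1)) := ⟨_, rfl⟩
  rw [← hl'] at hE
  rw [← hl] at hgu hmain
  have hl1 : 4/3 ≤ l := by
    have : 1/kk ≤ 1/3 := one_div_le_one_div_of_le (by norm_num) hK3
    rw [hl]; linarith
  have hl2 : l ≤ 2 := by
    have : 0 < 1/kk := by positivity
    rw [hl]; linarith
  have hl'1 : 1 ≤ l' := by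
    have : 1/(kk-1) ≤ 1/2 := one_div_le_one_div_of_le (by norm_num) (by linarith)
    rw [hl']; linarith
  have hident : (l - l' * nu - a) * (l - nu) - a * nu = l' * (nu - (1 - 1/kk))^2 := by
    have : a = 1 - nu := by linarith
    rw [this, hl, hl']
    have hk0 : kk ≠ 0 := by linarith
    have hk1 : kk - 1 ≠ 0 := by linarith
    field_simp
    ring
  obtain ⟨b, hb⟩ : ∃ b, b = l - nu := ⟨_, rfl⟩
  have hb1 : 1/3 ≤ b := by linarith
  have hb2 : b ≤ 2 := by linarith
  have hP1 : 1/4 ≤ P := by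
    have h1 : l - g + b * x^2 ≤ P + 2 * x * S := by rw [hb]; linarith
    have h2 : b * (l - g + b * x^2) ≤ b * (P + 2 * x * S) := mul_le_mul_of_nonneg_left h1 (by linarith)
    have h3 : 0 ≤ (b * x - S)^2 := sq_nonneg _
    have h4 : S^2 ≤ P := hSP.trans (mul_le_of_le_one_left hP0 hnu1)
    have e1 : b * (l - g + b*x^2) = b*(l-g) + (b*x)^2 := by ring
    have e2 : b*(P+2*x*S) = b*P + 2*(b*x)*S := by ring
    have e3 : (b*x-S)^2 = (b*x)^2 - 2*(b*x)*S + S^2 := by ring
    have e4 : (1 + b) * P = P + b * P := by ring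
    have h5 : b * (l - g) ≤ (1 + b) * P := by linarith
    have h6 : 5/4 ≤ l - g := by linarith
    have h7 : b * (5/4) ≤ b * (l - g) := mul_le_mul_of_nonneg_left h6 (by linarith)
    by_contra hcon
    push Not at hcon
    have h8 : (1 + b) * P < (1 + b) * (1/4) := mul_lt_mul_of_pos_left hcon (by linarith)
    linarith
  -- main inequality
  have hQ : (l - l' * nu - a) * P - 2 * a * x * S + a * b * x^2 ≤ 3 * g + 2 * e := by
    have hid : EE G X (w1 G u) - l * nu * P + a * (nu * x ^ 2 + 2 * x * S + P - l * nu * x ^ 2 - l * P)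
        - l * a^2 * x ^ 2 = EE G X (w1 G u) - l * P + a * P + 2 * a * x * S - a * b * x^2 := by
      have hnu' : nu = 1 - a := by linarith
      rw [hb, hnu']; ring
    rw [hid] at hmain
    have hid2 : (l - l' * nu - a) * P = l * P - l' * nu * P - a * P := by ring
    rw [hid2]
    linarith
  have hQb := mul_le_mul_of_nonneg_left hQ (by linarith : 0 ≤ b)
  have hfin : l' * (nu - (1 - 1/kk))^2 * P ≤ b * (3 * g + 2 * e) := by
    have h3 : 0 ≤ a * (b * x - S)^2 := mul_nonneg ha0 (sq_nonneg _)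
    have h4 : a * S^2 ≤ a * (nu * P) := mul_le_mul_of_nonneg_left hSP ha0
    rw [← hident, ← hb]
    have h5 : ((l - l' * nu - a) * b - a * nu) * P =
      b * ((l - l' * nu - a) * P - 2 * a * x * S + a * b * x^2) - a * (b * x - S)^2
        + (a * S^2 - a * (nu * P)) := by ring
    rw [h5]; linarith
  have hgg : g^2 ≤ g := by
    have : g * g ≤ 1 * g := mul_le_mul_of_nonneg_right (by linarith) hg.le
    rw [sq]; linarith
  have hsq : 0 ≤ (nu - (1 - 1/kk))^2 := sq_nonneg _
  have h7 : 1 * (nu - (1 - 1/kk))^2 ≤ l' * (nu - (1 - 1/kk))^2 := mul_le_mul_of_nonneg_right hl'1 hsq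
  rw [one_mul] at h7
  have h8 : (nu - (1 - 1/kk))^2 * P ≤ l' * (nu - (1 - 1/kk))^2 * P :=
    mul_le_mul_of_nonneg_right h7 hP0
  have h9 : (nu - (1 - 1/kk))^2 * (1/4) ≤ (nu - (1 - 1/kk))^2 * P := mul_le_mul_of_nonneg_left hP1 hsq
  have h10 : b * (3 * g + 2 * e) ≤ 2 * (3 * g + 2 * e) :=
    mul_le_mul_of_nonneg_right hb2 (by linarith [D.he])
  linarith

end

end Pool.Agent.Helper56.QCl
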