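import Pool.Agent.Helper56.QCl.Slack

set_option autoImplicit false
set_option linter.unusedSectionVars false

open Finset BigOperators

namespace Pool.Agent.Helper56.QCl

variable {V : Type} [Fintype V] [DecidableEq V]

section
variable {G : SimpleGraph V} {X : V → ℝ} {k : ℕ} {e C : ℝ}

theorem Dat.Gam_pL (D : Dat G X k e C) (g : ℝ) (hg : 0 < g)
    (hcard : ((LL G X k g).card : ℝ) * (1 / (Fintype.card V : ℝ)) ≤ g / 1000) :
    Gam G X (2 * (1 - 1/(k:ℝ))) (u0 V) + (9/10) * g * (((LL G X k g).card : ℝ) * (1 / (Fintype.card V : ℝ)))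
      ≤ Gam G X (2 * (1 - 1/(k:ℝ))) (pL V (LL G X k g)) := by
  classical
  set L := LL G X k g with hL
  set i : ℝ := 1 / (Fintype.card V : ℝ) with hi
  have hi0 : 0 ≤ i := by positivity
  have e0 : pL V L = fun v => u0 V v + (if v ∈ L then -i else 0) := by
    funext v
    unfold pL u0
    split_ifs <;> simp [hi]
  have hsum : ∀ f : V → ℝ, ∑ v, (if v ∈ L then -i else 0) * f v = - i * ∑ v ∈ L, f v := by
    intro f
    have : ∀ v, (if v ∈ L then -i else 0) * f v = if v ∈ L then -i * f v else 0 := by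
      intro v; split_ifs <;> ring
    simp only [this]
    rw [← Finset.sum_filter]
    have h : univ.filter (fun v => v ∈ L) = L := by ext; simp
    rw [h, Finset.mul_sum]
  rw [e0, Gam_add, Bil_u0, hsum]
  have h1 : ∑ v ∈ L, gg G X (2 * (1 - 1/(k:ℝ))) v ≤ (L.card : ℝ) * (-g) := by
    rw [← nsmul_eq_mul, ← Finset.sum_const]
    refine Finset.sum_le_sum fun v hv => ?_
    exact ((mem_LL g v).mp hv).le
  have h2 : - (72 * ((L.card : ℝ) * i)^2) ≤ Gam G X (2 * (1 - 1/(k:ℝ))) (fun v => if v ∈ L then -i else 0) := by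
    unfold Gam
    have hE : 0 ≤ EE G X (fun v => if v ∈ L then -i else 0) := by
      unfold EE
      refine mul_nonneg (by norm_num) (Finset.sum_nonneg fun a _ => Finset.sum_nonneg fun b _ => ?_)
      refine mul_nonneg ?_ (mul_nonneg (ad_nonneg G a b) (sq_nonneg _))
      show 0 ≤ (if a ∈ L then -i else 0) * (if b ∈ L then -i else 0)
      split_ifs <;> nlinarith
    have hW : WW (fun v => if v ∈ L then -i else 0) = - (i * L.card) := by
      have := hsum (fun _ => 1)
      simp only [mul_one, Finset.sum_const, nsmul_eq_mul] at this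
      unfold WW
      rw [this]; ring
    have hP : PP X (fun v => if v ∈ L then -i else 0) = - i * ∑ v ∈ L, X v ^ 2 := by
      unfold PP; rw [hsum]
    rw [hW, hP]
    have h3 : ∑ v ∈ L, X v ^ 2 ≤ (L.card : ℝ) * 36 := by
      rw [← nsmul_eq_mul, ← Finset.sum_const]
      refine Finset.sum_le_sum fun v _ => ?_
      have := D.hX0 v
      have := D.hX6 v
      nlinarith
    have h4 : 0 ≤ ∑ v ∈ L, X v ^ 2 := Finset.sum_nonneg fun v _ => sq_nonneg _
    have hkk := D.kinv
    have h5 : 0 ≤ i * (L.card : ℝ) * i := by positivity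
    have h6 : (i * (L.card : ℝ) * i) * ∑ v ∈ L, X v ^ 2 ≤ (i * (L.card : ℝ) * i) * ((L.card : ℝ) * 36) :=
      mul_le_mul_of_nonneg_left h3 h5
    have h7 : 0 ≤ (i * (L.card : ℝ) * i) * ∑ v ∈ L, X v ^ 2 := mul_nonneg h5 h4
    have h8 : 2 * (1 - 1/(k:ℝ)) * ((i * (L.card : ℝ) * i) * ∑ v ∈ L, X v ^ 2) ≤
        2 * ((i * (L.card : ℝ) * i) * ∑ v ∈ L, X v ^ 2) :=
      mul_le_mul_of_nonneg_right (by linarith) h7
    have h9 : 2 * (1 - 1 / (k:ℝ)) * -(i * (L.card : ℝ)) * (-i * ∑ v ∈ L, X v ^ 2) =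
      2 * (1 - 1/(k:ℝ)) * ((i * (L.card : ℝ) * i) * ∑ v ∈ L, X v ^ 2) := by ring
    have h10 : (i * (L.card : ℝ) * i) * ((L.card : ℝ) * 36) = 36 * ((L.card : ℝ) * i)^2 := by ring
    rw [h9]
    linarith
  have h3 : i * ((L.card : ℝ) * g) ≤ - i * ∑ v ∈ L, gg G X (2 * (1 - 1/(k:ℝ))) v := by
    have := mul_le_mul_of_nonneg_left h1 hi0
    linarith
  have h4 : 72 * ((L.card : ℝ) * i)^2 ≤ (1/10) * g * ((L.card : ℝ) * i) := by
    have h5 : 0 ≤ (L.card : ℝ) * i := by positivity
    have := mul_le_mul_of_nonneg_right hcard h5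
    nlinarith
  have h5 : i * ((L.card : ℝ) * g) = g * ((L.card : ℝ) * i) := by ring
  linarith

theorem Dat.L_empty (D : Dat G X k e C) (g : ℝ) (hg : 0 < g)
    (hcard : ((LL G X k g).card : ℝ) * (1 / (Fintype.card V : ℝ)) ≤ g / 1000)
    (col : V → V) (S : Finset V) (hcol : ∀ v, col v ∈ S) (hS : S.card = k)
    (huniq : ∀ a b a' b', a ∉ LL G X k g → b ∉ LL G X k g → a' ∉ LL G X k g → b' ∉ LL G X k g →
        G.Adj a b → G.Adj a' b' →
        col a = col b → col a' = col b' → ({a, b} : Finset V) = {a', b'})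
    (hn : 160 * (1 / (Fintype.card V : ℝ)) < g) : LL G X k g = ∅ := by
  have h1 := D.Gam_pL g hg hcard
  have h2 := Gam_le_mono G X col S k hcol hS D.hk (pL V (LL G X k g)) (pL_nonneg _)
  have h3 := mono_le G X col (LL G X k g) D.wt_le' huniq
  have h4 := D.hG
  have hnpos := D.npos
  set i : ℝ := 1 / (Fintype.card V : ℝ) with hi
  have hi0 : 0 < i := by positivity
  by_contra hne
  have h5 : 1 ≤ (LL G X k g).card := Finset.card_pos.mpr (Finset.nonempty_iff_ne_empty.mpr hne)
  have h6 : (1:ℝ) ≤ ((LL G X k g).card : ℝ) := by exact_mod_cast h5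
  have h7 : i ≤ ((LL G X k g).card : ℝ) * i := by nlinarith
  have h8 : (9/10) * g * i ≤ (9/10) * g * (((LL G X k g).card : ℝ) * i) :=
    mul_le_mul_of_nonneg_left h7 (by positivity)
  have h9 : (9/10) * g * i < 144 * i^2 := by linarith
  have h10 : 144 * i^2 < (9/10) * g * i := by nlinarith
  linarith

open Classical in
/-- ordered non-adjacent cross pairs -/
noncomputable def MC (G : SimpleGraph V) (col : V → V) : Finset (V × V) :=
  univ.filter (fun x => ¬ G.Adj x.1 x.2 ∧ col x.1 ≠ col x.2)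

theorem mem_MC (G : SimpleGraph V) (col : V → V) (x : V × V) :
    x ∈ MC G col ↔ ¬ G.Adj x.1 x.2 ∧ col x.1 ≠ col x.2 := by
  unfold MC; simp

theorem pL_empty : pL V (∅ : Finset V) = u0 V := by
  funext v; unfold pL u0; simp

theorem Dat.final (D : Dat G X k e C) (hX : ∀ v, 1/8 ≤ X v)
    (col : V → V) (S : Finset V) (hcol : ∀ v, col v ∈ S) (hS : S.card = k)
    (huniq : ∀ a b a' b', G.Adj a b → G.Adj a' b' →
        col a = col b → col a' = col b' → ({a, b} : Finset V) = {a', b'})
    (hn : 24 ≤ Fintype.card V) :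
    (∃ a b, G.Adj a b ∧ col a = col b) ∧ (MC G col).card ≤ 4608 ∧
    ∀ i ∈ S, (Fintype.card V : ℝ) / k - 64 ≤ ((cl col i).card : ℝ) := by
  classical
  have hnpos := D.npos
  obtain ⟨i, hi⟩ : ∃ i : ℝ, i = 1 / (Fintype.card V : ℝ) := ⟨_, rfl⟩
  have hi0 : 0 < i := by rw [hi]; positivity
  have hni : (Fintype.card V : ℝ) * i = 1 := by rw [hi, mul_one_div_cancel hnpos.ne']
  have hi24 : i ≤ 1/24 := by
    rw [hi]; exact one_div_le_one_div_of_le (by norm_num) (by exact_mod_cast hn)
  have h4 := D.hG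
  have hu0 : ∀ v, 0 ≤ u0 V v := fun v => by unfold u0; positivity
  have hmono : mono G X col (u0 V) ≤ 144 * i^2 := by
    have := mono_le G X col (∅ : Finset V) D.wt_le' (fun a b a' b' _ _ _ _ => huniq a b a' b')
    rw [pL_empty, ← hi] at this
    exact this
  have hk3 : (3:ℝ) ≤ k := by exact_mod_cast D.hk
  -- constants
  have hW : (1:ℝ) = ∑ v, u0 V v := (WW_u0 D.hn).symm
  have hP : (1:ℝ) = ∑ v, u0 V v * X v ^ 2 := by
    have := D.meanX2
    rw [← this, Finset.mul_sum]
    rfl
  obtain ⟨s, hs⟩ : ∃ s, s = ∑ v, u0 V v * X v := ⟨_, rfl⟩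
  have hsl := slack G X col S k hcol hS D.hk (u0 V) 1 1 s hW hP hs
  have n1 := miss_nonneg G X col (u0 V) hu0
  have n2 : 0 ≤ ∑ i ∈ S, ((∑ v ∈ cl col i, u0 V v) * (∑ v ∈ cl col i, u0 V v * X v ^ 2) - (∑ v ∈ cl col i, u0 V v * X v)^2) :=
    Finset.sum_nonneg fun i _ => slack_nonneg X (u0 V) hu0 _
  have n3 : 0 ≤ ∑ i ∈ S, (∑ v ∈ cl col i, u0 V v * X v - s / k)^2 :=
    Finset.sum_nonneg fun i _ => sq_nonneg _
  have n4 : 0 ≤ (1:ℝ) * 1 - s^2 := by
    have := slack_nonneg X (u0 V) hu0 univ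
    rw [← hW, ← hP, ← hs] at this
    exact this
  have n5 : 1/3 ≤ 1 - 2 / (k:ℝ) := by
    have : 2 / (k:ℝ) ≤ 2/3 := by
      rw [div_le_div_iff₀ (by linarith) (by norm_num)]; linarith
    linarith
  have n6 : (1/3) * (1 * 1 - s^2) ≤ (1 - 2/(k:ℝ)) * (1 * 1 - s^2) := mul_le_mul_of_nonneg_right n5 n4
  have hs0 : 0 ≤ (1/3) * ((1:ℝ) * 1 - s^2) := by positivity
  have k1 : miss G X col (u0 V) ≤ 144 * i^2 := by linarith
  have k2 : ∑ i ∈ S, (∑ v ∈ cl col i, u0 V v * X v - s / k)^2 ≤ 72 * i^2 := by linarith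
  have k3 : 1 - s^2 ≤ 432 * i^2 := by linarith
  refine ⟨?_, ?_, ?_⟩
  · by_contra hno
    push Not at hno
    have : mono G X col (u0 V) = 0 := by
      unfold mono
      have : ∑ a, ∑ b, (if col a = col b then u0 V a * u0 V b * wt G X a b else 0) = 0 := by
        refine Finset.sum_eq_zero fun a _ => Finset.sum_eq_zero fun b _ => ?_
        split_ifs with h
        · have : ¬ G.Adj a b := fun h' => hno a b h' h
          unfold wt ad
          rw [if_neg this]; ring
        · rfl
      rw [this]; ring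
    linarith
  · have h1 : ((MC G col).card : ℝ) * (i^2 * (1/16)) ≤
        ∑ a, ∑ b, (if col a = col b then 0 else u0 V a * u0 V b * ((1 - ad G a b) * (X a + X b)^2)) := by
      have e1 : ∑ a, ∑ b, (if col a = col b then 0 else u0 V a * u0 V b * ((1 - ad G a b) * (X a + X b)^2))
        = ∑ x : V × V, (if col x.1 = col x.2 then 0 else u0 V x.1 * u0 V x.2 * ((1 - ad G x.1 x.2) * (X x.1 + X x.2)^2)) := by
        rw [Fintype.sum_prod_type]
      rw [e1, ← nsmul_eq_mul, ← Finset.sum_const]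
      calc ∑ x ∈ MC G col, (i^2 * (1/16)) ≤ ∑ x ∈ MC G col, (if col x.1 = col x.2 then 0 else u0 V x.1 * u0 V x.2 * ((1 - ad G x.1 x.2) * (X x.1 + X x.2)^2)) := by
            refine Finset.sum_le_sum fun x hx => ?_
            rw [mem_MC] at hx
            rw [if_neg hx.2]
            unfold u0 ad
            rw [if_neg hx.1, ← hi]
            have h1 := hX x.1
            have h2 := hX x.2
            have h3 : 1/16 ≤ (X x.1 + X x.2)^2 := by nlinarith
            have := mul_le_mul_of_nonneg_left h3 (by positivity : 0 ≤ i^2)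
            linarith
        _ ≤ _ := by
            refine Finset.sum_le_sum_of_subset_of_nonneg (Finset.subset_univ _) fun x _ _ => ?_
            split_ifs
            · exact le_rfl
            · refine mul_nonneg (mul_nonneg (hu0 _) (hu0 _)) (mul_nonneg ?_ (sq_nonneg _))
              linarith [ad_le_one G x.1 x.2]
    unfold miss at k1
    have h2 : ((MC G col).card : ℝ) * i^2 ≤ 4608 * i^2 := by linarith
    have h3 : ((MC G col).card : ℝ) ≤ 4608 := le_of_mul_le_mul_right h2 (by positivity)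
    exact_mod_cast h3
  · intro j hj
    obtain ⟨sj, hsj⟩ : ∃ sj, sj = ∑ v ∈ cl col j, u0 V v * X v := ⟨_, rfl⟩
    obtain ⟨nj, hnj⟩ : ∃ nj, nj = ((cl col j).card : ℝ) * i := ⟨_, rfl⟩
    have a1 : (sj - s / k)^2 ≤ 72 * i^2 := by
      rw [hsj]
      refine le_trans ?_ k2
      exact Finset.single_le_sum (f := fun i => (∑ v ∈ cl col i, u0 V v * X v - s / k)^2)
        (fun i _ => sq_nonneg _) hj
    have a2 : (sj - s * nj)^2 ≤ 432 * i^2 := by
      have e1 : sj - s * nj = i * ∑ v ∈ cl col j, (X v - s) := by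
        rw [hsj, hnj, Finset.sum_sub_distrib, Finset.sum_const, nsmul_eq_mul]
        have : ∑ v ∈ cl col j, u0 V v * X v = i * ∑ v ∈ cl col j, X v := by
          rw [Finset.mul_sum, hi]; rfl
        rw [this]; ring
      have e2 := sq_sum_le_card_mul_sum_sq (s := cl col j) (f := fun v => X v - s)
      have e3 : ((cl col j).card : ℝ) ≤ (Fintype.card V : ℝ) := by exact_mod_cast Finset.card_le_univ _
      have e4 : ∑ v ∈ cl col j, (X v - s)^2 ≤ ∑ v, (X v - s)^2 :=
        Finset.sum_le_sum_of_subset_of_nonneg (Finset.subset_univ _) (fun _ _ _ => sq_nonneg _)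
      have e5 : ∑ v, (X v - s)^2 = (Fintype.card V : ℝ) * (1 - s^2) := by
        have f1 : ∑ v, (X v - s)^2 = ∑ v, X v ^ 2 - 2 * s * ∑ v, X v + (Fintype.card V : ℝ) * s^2 := by
          have : ∀ v, (X v - s)^2 = X v ^ 2 - 2 * s * X v + s^2 := fun v => by ring
          simp only [this]
          rw [Finset.sum_add_distrib, Finset.sum_sub_distrib, ← Finset.mul_sum, Finset.sum_const,
            nsmul_eq_mul, Finset.card_univ]
        have f2 : ∑ v, X v = (Fintype.card V : ℝ) * s := by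
          have : s = i * ∑ v, X v := by rw [hs, Finset.mul_sum, hi]; rfl
          rw [this, ← mul_assoc, hni, one_mul]
        rw [f1, f2, D.hXs]; ring
      have e6 : 0 ≤ ∑ v, (X v - s)^2 := Finset.sum_nonneg fun _ _ => sq_nonneg _
      have e7 : (∑ v ∈ cl col j, (X v - s))^2 ≤ (Fintype.card V : ℝ) * ((Fintype.card V : ℝ) * (1 - s^2)) := by
        rw [← e5]
        refine e2.trans (mul_le_mul e3 e4 (Finset.sum_nonneg fun _ _ => sq_nonneg _) hnpos.le)
      rw [e1, mul_pow]
      have e8 := mul_le_mul_of_nonneg_left e7 (by positivity : 0 ≤ i^2)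
      have e9 : i^2 * ((Fintype.card V : ℝ) * ((Fintype.card V : ℝ) * (1 - s^2))) = 1 - s^2 := by
        have : i^2 * ((Fintype.card V : ℝ) * ((Fintype.card V : ℝ) * (1 - s^2))) =
          ((Fintype.card V : ℝ) * i) * ((Fintype.card V : ℝ) * i) * (1 - s^2) := by ring
        rw [this, hni]; ring
      rw [e9] at e8
      linarith
    have a3 : s^2 * (nj - 1/k)^2 ≤ 1008 * i^2 := by
      have : s^2 * (nj - 1/k)^2 = ((s * nj - sj) + (sj - s/k))^2 := by ring
      rw [this]
      nlinarith [sq_nonneg ((s * nj - sj) - (sj - s/k))]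
    have a4 : 1/4 ≤ s^2 := by nlinarith
    have a5 : (nj - 1/k)^2 ≤ (64 * i)^2 := by
      have : (1/4) * (nj - 1/k)^2 ≤ s^2 * (nj - 1/k)^2 := mul_le_mul_of_nonneg_right a4 (sq_nonneg _)
      nlinarith
    have a6 := abs_le_of_sq_le_sq a5 (by positivity)
    have a7 := (abs_le.mp a6).1
    have a8 := mul_le_mul_of_nonneg_left a7 hnpos.le
    have a9 : (Fintype.card V : ℝ) * nj = ((cl col j).card : ℝ) := by
      rw [hnj]
      have : (Fintype.card V : ℝ) * (((cl col j).card : ℝ) * i) = ((cl col j).card : ℝ) * ((Fintype.card V : ℝ) * i) := by ring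
      rw [this, hni, mul_one]
    have a10 : (Fintype.card V : ℝ) * (nj - 1/k) = ((cl col j).card : ℝ) - (Fintype.card V : ℝ) / k := by
      rw [mul_sub, a9]; ring
    have a11 : (Fintype.card V : ℝ) * -(64 * i) = -64 := by
      have : (Fintype.card V : ℝ) * -(64 * i) = -64 * ((Fintype.card V : ℝ) * i) := by ring
      rw [this, hni, mul_one]
    rw [a10, a11] at a8
    linarith only [a8]

end

/-- final counting -/
theorem count (G : SimpleGraph V) (k : ℕ) (hk : 3 ≤ k) (col : V → V) (S : Finset V)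
    (hcol : ∀ v, col v ∈ S) (hS : S.card = k) (a b : V) (hab : G.Adj a b) (hc : col a = col b)
    (hMC : (MC G col).card ≤ 4608)
    (hcl : ∀ i ∈ S, (Fintype.card V : ℝ) / k - 64 ≤ ((cl col i).card : ℝ))
    (hbig : 4672 * (k:ℝ) ≤ (Fintype.card V : ℝ)) :
    ((Fintype.card V : ℝ) / k)^(k-1) - 4672 * (k:ℝ) * (Fintype.card V : ℝ)^(k-2) ≤ (cq G (k+1) : ℝ) := by
  classical
  have hk3 : (3:ℝ) ≤ k := by exact_mod_cast hk
  set y : ℝ := (Fintype.card V : ℝ) / k with hy
  have hy1 : 4672 ≤ y := by rw [hy, le_div_iff₀ (by linarith)]; linarith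
  have hu := hcol a
  have hIc : (S.erase (col a)).card = k - 1 := by rw [Finset.card_erase_of_mem hu, hS]
  have hmain := greedy_count G (fun r => cl col r) (S.erase (col a)) a b hab ?_ ?_
    (y - 4672) (by linarith) ?_
  · rw [hIc] at hmain
    have : k - 1 + 2 = k + 1 := by omega
    rw [this] at hmain
    have h1 : ((cqe G (k+1) a b).card : ℝ) ≤ (cq G (k+1) : ℝ) := by exact_mod_cast card_cqe_le G (k+1) a b
    refine le_trans ?_ (hmain.trans h1)
    -- Bernoulli
    have hy0 : 0 < y := by linarith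
    have e1 : y - 4672 = y * (1 + -(4672 / y)) := by field_simp; ring
    have hb := one_add_mul_le_pow (by
      have : 4672 / y ≤ 1 := by rw [div_le_one hy0]; exact hy1
      linarith : (-2:ℝ) ≤ -(4672/y)) (k-1)
    have hkc : ((k-1:ℕ):ℝ) = (k:ℝ) - 1 := by rw [Nat.cast_sub (by omega)]; simp
    rw [hkc] at hb
    have e2 : y^(k-1) * (1 + ((k:ℝ) - 1) * -(4672/y)) = y^(k-1) - ((k:ℝ) - 1) * 4672 * y^(k-2) := by
      have : k - 1 = (k-2) + 1 := by omega
      rw [this, pow_succ]
      field_simp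
      ring
    have e3 := mul_le_mul_of_nonneg_left hb (by positivity : 0 ≤ y^(k-1))
    rw [e2] at e3
    rw [e1, mul_pow]
    refine le_trans ?_ e3
    have e4 : y^(k-2) ≤ (Fintype.card V : ℝ)^(k-2) := by
      refine pow_le_pow_left₀ hy0.le ?_ _
      rw [hy]; exact div_le_self (by positivity) (by linarith)
    have e5 : ((k:ℝ) - 1) * 4672 * y^(k-2) ≤ 4672 * (k:ℝ) * (Fintype.card V : ℝ)^(k-2) := by
      refine mul_le_mul ?_ e4 (by positivity) (by positivity)
      linarith
    linarith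
  · intro r _ r' _ hrr'
    rw [Finset.disjoint_left]
    intro v hv hv'
    simp only [mem_cl] at hv hv'
    exact hrr' (hv.symm.trans hv')
  · intro r hr
    have := Finset.ne_of_mem_erase hr
    simp only [mem_cl]
    exact ⟨fun h => this h.symm, fun h => this (h.symm.trans hc.symm)⟩
  · intro r hr R' hR' hrR' Q hQ _
    refine le_trans ?_ (ext_lower G _ _)
    have hrS := Finset.mem_of_mem_erase hr
    have hra := Finset.ne_of_mem_erase hr
    have h1 := hcl r hrS
    have h2 : ∑ x ∈ insert a (insert b Q), ((NA G x ∩ cl col r).card : ℝ) ≤ 4608 := by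
      have e1 : ∑ x ∈ insert a (insert b Q), (NA G x ∩ cl col r).card =
          ((insert a (insert b Q)).sigma (fun x => NA G x ∩ cl col r)).card := by
        rw [Finset.card_sigma]
      have e2 : ((insert a (insert b Q)).sigma (fun x => NA G x ∩ cl col r)).card ≤ (MC G col).card := by
        refine Finset.card_le_card_of_injOn (fun x => (x.1, x.2)) ?_ ?_
        · rintro ⟨x, w⟩ hx
          rw [Finset.mem_coe, Finset.mem_sigma, Finset.mem_inter, mem_NA, mem_cl] at hx
          simp only at hx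
          rw [Finset.mem_coe, mem_MC]
          refine ⟨hx.2.1, ?_⟩
          simp only
          rw [hx.2.2]
          rcases Finset.mem_insert.mp hx.1 with h | h
          · rw [h]; exact hra.symm
          · rcases Finset.mem_insert.mp h with h | h
            · rw [h, ← hc]; exact hra.symm
            · obtain ⟨r', hr', hxr'⟩ := Finset.mem_biUnion.mp (hQ h)
              simp only [mem_cl] at hxr'
              rw [hxr']
              exact fun h => hrR' (h ▸ hr')
        · rintro ⟨x, w⟩ _ ⟨x', w'⟩ _ heq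
          simp only [Prod.mk.injEq] at heq
          obtain ⟨rfl, rfl⟩ := heq
          rfl
      have e3 : ∑ x ∈ insert a (insert b Q), (NA G x ∩ cl col r).card ≤ 4608 := by
        rw [e1]; exact e2.trans hMC
      exact_mod_cast e3
    linarith

end Pool.Agent.Helper56.QCl
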