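import Pool.Agent.Helper56.QCl.Degree2

set_option autoImplicit false
set_option linter.unusedSectionVars false

open Finset BigOperators

namespace Pool.Agent.Helper56.QCl

variable {V : Type} [Fintype V] [DecidableEq V]

open Classical in
noncomputable def ext (G : SimpleGraph V) (T Q : Finset V) : Finset V :=
  T.filter (fun w => ∀ x ∈ Q, G.Adj w x)

theorem mem_ext (G : SimpleGraph V) (T Q : Finset V) (w : V) :
    w ∈ ext G T Q ↔ w ∈ T ∧ ∀ x ∈ Q, G.Adj w x := by unfold ext; simp

open Classical in
noncomputable def fam {α : Type} (G : SimpleGraph V) (T : α → Finset V) (a b : V)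
    (R : Finset α) : Finset (Finset V) :=
  univ.filter (fun Q : Finset V => Q ⊆ R.biUnion T ∧ Q.card = R.card ∧
    G.IsClique (↑(insert a (insert b Q)) : Set V))

theorem mem_fam {α : Type} (G : SimpleGraph V) (T : α → Finset V) (a b : V)
    (R : Finset α) (Q : Finset V) : Q ∈ fam G T a b R ↔ Q ⊆ R.biUnion T ∧ Q.card = R.card ∧
    G.IsClique (↑(insert a (insert b Q)) : Set V) := by unfold fam; simp

theorem greedy {α : Type} [DecidableEq α] (G : SimpleGraph V) (T : α → Finset V) (I : Finset α)
    (a b : V) (hab : G.Adj a b)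
    (hdisj : ∀ r ∈ I, ∀ r' ∈ I, r ≠ r' → Disjoint (T r) (T r')) (m : ℝ) (hm : 0 ≤ m)
    (hext : ∀ r ∈ I, ∀ R ⊆ I, r ∉ R → ∀ Q ⊆ R.biUnion T, Q.card = R.card →
      m ≤ ((ext G (T r) (insert a (insert b Q))).card : ℝ)) :
    ∀ R ⊆ I, m ^ R.card ≤ ((fam G T a b R).card : ℝ) := by
  intro R
  induction R using Finset.induction_on with
  | empty =>
    intro _
    have : (∅ : Finset V) ∈ fam G T a b ∅ := by
      rw [mem_fam]
      refine ⟨by simp, by simp, ?_⟩
      intro x hx y hy hxy
      simp only [Finset.coe_insert, Finset.coe_empty, Set.mem_insert_iff, Set.mem_empty_iff_false,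
        or_false, insert_empty_eq] at hx hy
      simp at hx hy
      rcases hx with rfl | rfl <;> rcases hy with rfl | rfl
      · exact absurd rfl hxy
      · exact hab
      · exact hab.symm
      · exact absurd rfl hxy
    have h1 : 1 ≤ (fam G T a b ∅).card := Finset.card_pos.mpr ⟨_, this⟩
    simp only [Finset.card_empty, pow_zero]
    exact_mod_cast h1
  | insert r R hr ih =>
    intro hRI
    have hrI : r ∈ I := hRI (Finset.mem_insert_self _ _)
    have hRI' : R ⊆ I := (Finset.subset_insert _ _).trans hRI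
    have ih' := ih hRI'
    have hdisj' : Disjoint (T r) (R.biUnion T) := by
      rw [Finset.disjoint_biUnion_right]
      intro r' hr'
      exact hdisj r hrI r' (hRI' hr') (fun h => hr (h ▸ hr'))
    -- sigma type
    set P := (fam G T a b R).sigma (fun Q => ext G (T r) (insert a (insert b Q))) with hP
    have hcard : (P.card : ℝ) = ∑ Q ∈ fam G T a b R, ((ext G (T r) (insert a (insert b Q))).card : ℝ) := by
      rw [hP, Finset.card_sigma]; push_cast; rfl
    have h1 : m ^ R.card * m ≤ (P.card : ℝ) := by
      rw [hcard]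
      calc m ^ R.card * m ≤ ((fam G T a b R).card : ℝ) * m := mul_le_mul_of_nonneg_right ih' hm
        _ = ∑ Q ∈ fam G T a b R, m := by rw [Finset.sum_const, nsmul_eq_mul]
        _ ≤ _ := by
          refine Finset.sum_le_sum fun Q hQ => ?_
          rw [mem_fam] at hQ
          exact hext r hrI R hRI' hr Q hQ.1 hQ.2.1
    have h2 : P.card ≤ (fam G T a b (insert r R)).card := by
      refine Finset.card_le_card_of_injOn (fun x => insert x.2 x.1) ?_ ?_
      · rintro ⟨Q, w⟩ hx
        rw [hP, Finset.mem_coe, Finset.mem_sigma, mem_fam, mem_ext] at hx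
        obtain ⟨⟨hQ1, hQ2, hQ3⟩, hw1, hw2⟩ := hx
        simp only at hQ1 hQ2 hQ3 hw1 hw2
        rw [Finset.mem_coe, mem_fam]
        have hwQ : w ∉ Q := fun h => Finset.disjoint_left.mp hdisj' hw1 (hQ1 h)
        refine ⟨?_, ?_, ?_⟩
        · rw [Finset.biUnion_insert]
          refine Finset.insert_subset (Finset.mem_union_left _ hw1) ?_
          exact hQ1.trans Finset.subset_union_right
        · rw [Finset.card_insert_of_notMem hwQ, Finset.card_insert_of_notMem hr, hQ2]
        · have he : (insert a (insert b (insert w Q)) : Finset V) = insert w (insert a (insert b Q)) := by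
            ext x; simp only [Finset.mem_insert]; tauto
          simp only
          rw [he, Finset.coe_insert, SimpleGraph.isClique_insert]
          refine ⟨hQ3, fun x hx _ => hw2 x (by exact_mod_cast hx)⟩
      · rintro ⟨Q, w⟩ hx ⟨Q', w'⟩ hx' heq
        rw [hP, Finset.mem_coe, Finset.mem_sigma, mem_fam, mem_ext] at hx hx'
        obtain ⟨⟨hQ1, hQ2, hQ3⟩, hw1, hw2⟩ := hx
        obtain ⟨⟨hQ1', hQ2', hQ3'⟩, hw1', hw2'⟩ := hx'
        simp only at hQ1 hQ2 hQ3 hw1 hw2 hQ1' hQ2' hQ3' hw1' hw2' heq
        have hwQ : w ∉ Q := fun h => Finset.disjoint_left.mp hdisj' hw1 (hQ1 h)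
        have hwQ' : w' ∉ Q' := fun h => Finset.disjoint_left.mp hdisj' hw1' (hQ1' h)
        have hww : w = w' := by
          have : w ∈ insert w' Q' := heq ▸ Finset.mem_insert_self w Q
          rcases Finset.mem_insert.mp this with h | h
          · exact h
          · exact absurd (hQ1' h) (Finset.disjoint_left.mp hdisj' hw1)
        subst hww
        have : Q = Q' := by
          rw [← Finset.erase_insert hwQ, ← Finset.erase_insert hwQ', heq]
        subst this
        rfl
    rw [Finset.card_insert_of_notMem hr, pow_succ]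
    exact h1.trans (by exact_mod_cast h2)

open Classical in
noncomputable def cqe (G : SimpleGraph V) (j : ℕ) (a b : V) : Finset (Finset V) :=
  univ.filter (fun T : Finset V => G.IsNClique j T ∧ a ∈ T ∧ b ∈ T)

theorem mem_cqe (G : SimpleGraph V) (j : ℕ) (a b : V) (T : Finset V) :
    T ∈ cqe G j a b ↔ G.IsNClique j T ∧ a ∈ T ∧ b ∈ T := by unfold cqe; simp

theorem greedy_count {α : Type} [DecidableEq α] (G : SimpleGraph V) (T : α → Finset V)
    (I : Finset α) (a b : V) (hab : G.Adj a b)
    (hdisj : ∀ r ∈ I, ∀ r' ∈ I, r ≠ r' → Disjoint (T r) (T r'))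
    (hna : ∀ r ∈ I, a ∉ T r ∧ b ∉ T r) (m : ℝ) (hm : 0 ≤ m)
    (hext : ∀ r ∈ I, ∀ R ⊆ I, r ∉ R → ∀ Q ⊆ R.biUnion T, Q.card = R.card →
      m ≤ ((ext G (T r) (insert a (insert b Q))).card : ℝ)) :
    m ^ I.card ≤ ((cqe G (I.card + 2) a b).card : ℝ) := by
  have h1 := greedy G T I a b hab hdisj m hm hext I (Finset.Subset.refl _)
  refine h1.trans ?_
  have h2 : (fam G T a b I).card ≤ (cqe G (I.card + 2) a b).card := by
    have hkey : ∀ Q ∈ fam G T a b I, a ∉ insert b Q ∧ b ∉ Q := by
      intro Q hQ
      rw [mem_fam] at hQ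
      have ha : a ∉ Q := fun h => by
        obtain ⟨r, hr, har⟩ := Finset.mem_biUnion.mp (hQ.1 h)
        exact (hna r hr).1 har
      have hb : b ∉ Q := fun h => by
        obtain ⟨r, hr, har⟩ := Finset.mem_biUnion.mp (hQ.1 h)
        exact (hna r hr).2 har
      refine ⟨fun h => ?_, hb⟩
      rcases Finset.mem_insert.mp h with h | h
      · exact hab.ne h
      · exact ha h
    refine Finset.card_le_card_of_injOn (fun Q => insert a (insert b Q)) ?_ ?_
    · intro Q hQ
      have hk := hkey Q hQ
      rw [Finset.mem_coe, mem_fam] at hQ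
      rw [Finset.mem_coe, mem_cqe]
      refine ⟨⟨hQ.2.2, ?_⟩, by simp, by simp⟩
      rw [Finset.card_insert_of_notMem hk.1, Finset.card_insert_of_notMem hk.2, hQ.2.1]
    · intro Q hQ Q' hQ' heq
      have hk := hkey Q hQ
      have hk' := hkey Q' hQ'
      simp only at heq
      have h3 : insert b Q = insert b Q' := by
        rw [← Finset.erase_insert hk.1, ← Finset.erase_insert hk'.1, heq]
      rw [← Finset.erase_insert hk.2, ← Finset.erase_insert hk'.2, h3]
  exact_mod_cast h2

theorem card_cqe_le (G : SimpleGraph V) (j : ℕ) (a b : V) : (cqe G j a b).card ≤ cq G j := by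
  classical
  unfold cq
  refine Finset.card_le_card ?_
  intro T hT
  rw [mem_cqe] at hT
  simp [hT.1]

/-- cliques containing two distinct edges -/
theorem two_edges (G : SimpleGraph V) (k : ℕ) (hk : 2 ≤ k) (a b a' b' : V) (hab : a ≠ b)
    (hab' : a' ≠ b') (hne : ({a, b} : Finset V) ≠ {a', b'}) :
    ((cqe G (k+1) a b).card : ℝ) + ((cqe G (k+1) a' b').card : ℝ) ≤
      (cq G (k+1) : ℝ) + (Fintype.card V : ℝ)^(k-2) := by
  classical
  have h1 : (cqe G (k+1) a b).card + (cqe G (k+1) a' b').card =
      (cqe G (k+1) a b ∪ cqe G (k+1) a' b').card + (cqe G (k+1) a b ∩ cqe G (k+1) a' b').card :=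
    (Finset.card_union_add_card_inter _ _).symm
  have h2 : (cqe G (k+1) a b ∪ cqe G (k+1) a' b').card ≤ cq G (k+1) := by
    unfold cq
    refine Finset.card_le_card ?_
    intro T hT
    rw [Finset.mem_union, mem_cqe, mem_cqe] at hT
    rcases hT with hT | hT <;> simp [hT.1]
  -- a three-element set
  obtain ⟨U, hU, hU3⟩ : ∃ U ⊆ ({a, b} ∪ {a', b'} : Finset V), U.card = 3 := by
    refine Finset.exists_subset_card_eq ?_
    by_contra hcon
    push Not at hcon
    have hc1 : ({a, b} : Finset V).card = 2 := Finset.card_pair hab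
    have hc2 : ({a', b'} : Finset V).card = 2 := Finset.card_pair hab'
    have e1 : ({a, b} : Finset V) = {a, b} ∪ {a', b'} :=
      Finset.eq_of_subset_of_card_le Finset.subset_union_left (by omega)
    have e2 : ({a', b'} : Finset V) = {a, b} ∪ {a', b'} :=
      Finset.eq_of_subset_of_card_le Finset.subset_union_right (by omega)
    exact hne (e1.trans e2.symm)
  have h3 : (cqe G (k+1) a b ∩ cqe G (k+1) a' b').card ≤ (Fintype.card V)^(k-2) := by
    have hsub : (cqe G (k+1) a b ∩ cqe G (k+1) a' b').card ≤
        ((univ : Finset V).powersetCard (k-2)).card := by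
      have hU' : ∀ T ∈ cqe G (k+1) a b ∩ cqe G (k+1) a' b', U ⊆ T ∧ T.card = k+1 := by
        intro T hT
        rw [Finset.mem_inter, mem_cqe, mem_cqe] at hT
        refine ⟨hU.trans ?_, hT.1.1.card_eq⟩
        intro x hx
        simp only [Finset.mem_union, Finset.mem_insert, Finset.mem_singleton] at hx
        rcases hx with (rfl | rfl) | (rfl | rfl)
        · exact hT.1.2.1
        · exact hT.1.2.2
        · exact hT.2.2.1
        · exact hT.2.2.2
      refine Finset.card_le_card_of_injOn (fun T => T \ U) ?_ ?_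
      · intro T hT
        have := hU' T hT
        rw [Finset.mem_coe, Finset.mem_powersetCard]
        refine ⟨Finset.subset_univ _, ?_⟩
        simp only
        rw [Finset.card_sdiff_of_subset this.1, this.2, hU3]
        omega
      · intro T hT T' hT' heq
        have h := hU' T hT
        have h' := hU' T' hT'
        simp only at heq
        rw [← Finset.sdiff_union_of_subset h.1, ← Finset.sdiff_union_of_subset h'.1, heq]
    rw [Finset.card_powersetCard, Finset.card_univ] at hsub
    exact hsub.trans (Nat.choose_le_pow _ _)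
  have h4 : (cqe G (k+1) a b).card + (cqe G (k+1) a' b').card ≤ cq G (k+1) + (Fintype.card V)^(k-2) := by
    omega
  exact_mod_cast h4

end Pool.Agent.Helper56.QCl
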