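import Pool.Agent.Helper56.QCl.Maxi

set_option autoImplicit false
set_option linter.unusedSectionVars false

open Finset BigOperators

namespace Pool.Agent.Helper56.QCl

theorem kap_nonneg {V : Type} [Fintype V] [DecidableEq V] (G : SimpleGraph V) (r : ℕ) (p : V → ℝ)
    (hp : ∀ v, 0 ≤ p v) : 0 ≤ kap G r p := by
  unfold kap
  exact Finset.sum_nonneg fun U _ => Finset.prod_nonneg fun v _ => hp v

theorem pairs_sum {V : Type} [Fintype V] [DecidableEq V] (G : SimpleGraph V) (W : Finset V) :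
    ∑ a ∈ W, ((NN G a ∩ W).card : ℝ) = (((W ×ˢ W).filter (fun p => @decide (G.Adj p.1 p.2) (Classical.dec _) = true)).card : ℝ) := by
  classical
  have h1 : ∑ a ∈ W, (NN G a ∩ W).card = (W.sigma (fun a => NN G a ∩ W)).card := by
    rw [Finset.card_sigma]
  have h2 : (W.sigma (fun a => NN G a ∩ W)).card =
      ((W ×ˢ W).filter (fun p => @decide (G.Adj p.1 p.2) (Classical.dec _) = true)).card := by
    refine Finset.card_bij' (fun x _ => (x.1, x.2)) (fun x _ => ⟨x.1, x.2⟩) ?_ ?_ ?_ ?_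
    · rintro ⟨a, b⟩ hx
      rw [Finset.mem_sigma, Finset.mem_inter, mem_NN] at hx
      rw [Finset.mem_filter, Finset.mem_product]
      simp only at hx ⊢
      exact ⟨⟨hx.1, hx.2.2⟩, by simpa using hx.2.1⟩
    · rintro ⟨a, b⟩ hx
      rw [Finset.mem_filter, Finset.mem_product] at hx
      rw [Finset.mem_sigma, Finset.mem_inter, mem_NN]
      simp only at hx ⊢
      exact ⟨hx.1.1, by simpa using hx.2, hx.1.2⟩
    · rintro ⟨a, b⟩ _; rfl
    · rintro ⟨a, b⟩ _; rfl
  rw [← h2, ← h1]; push_cast; rfl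

theorem main_count (k : ℕ) (hk : 3 ≤ k) : ∃ n0 : ℝ, ∀ (V : Type) [Fintype V] [DecidableEq V]
    (G : SimpleGraph V), n0 ≤ (Fintype.card V : ℝ) →
    (∃ z : V → ℝ, (2 * (1 - 1/(k:ℝ))) * (Fintype.card V : ℝ) * ∑ v, z v ^ 2 < qf G z) →
    ((Fintype.card V : ℝ) / k)^(k-1) - 4672 * (k:ℝ) * (Fintype.card V : ℝ)^(k-2) ≤ (cq G (k+1) : ℝ) := by
  classical
  have hk3 : (3:ℝ) ≤ k := by exact_mod_cast hk
  obtain ⟨κ, hκ⟩ : ∃ κ : ℝ, κ = 1 / (k:ℝ) := ⟨_, rfl⟩
  have hκ0 : 0 < κ := by rw [hκ]; positivity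
  have hκ1 : κ ≤ 1/3 := by rw [hκ]; exact one_div_le_one_div_of_le (by norm_num) hk3
  obtain ⟨θ, hθ⟩ : ∃ θ : ℝ, θ = κ^3 / 8 := ⟨_, rfl⟩
  obtain ⟨ε, hε⟩ : ∃ ε : ℝ, ε = θ^2 / 2 := ⟨_, rfl⟩
  have hθ0 : 0 < θ := by rw [hθ]; positivity
  have hθ1 : θ ≤ 1/8 := by
    have : κ^3 ≤ 1 := pow_le_one₀ hκ0.le (by linarith)
    rw [hθ]; linarith
  have hε0 : 0 < ε := by rw [hε]; positivity
  have hε1 : ε ≤ 1/128 := by rw [hε]; nlinarith
  obtain ⟨g, hg⟩ : ∃ g : ℝ, g = ε^2 / 128 := ⟨_, rfl⟩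
  have hg0 : 0 < g := by rw [hg]; positivity
  have hg1 : g ≤ 1/12 := by rw [hg]; nlinarith
  have hgε : 128 * g ≤ ε := by rw [hg]; nlinarith
  have hgε2 : 32 * g ≤ ε^2 := by rw [hg]; nlinarith [sq_nonneg ε]
  obtain ⟨e, he⟩ : ∃ e : ℝ, e = g^2 / 10000 := ⟨_, rfl⟩
  have he0 : 0 < e := by rw [he]; positivity
  obtain ⟨C1, hC1, hrob1⟩ := robust k (by omega) 6 e he0
  obtain ⟨C2, hC2, hrob2⟩ := robust (k-1) (by omega) 6 e he0
  obtain ⟨C, hC⟩ : ∃ C : ℝ, C = C1 + C2 := ⟨_, rfl⟩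
  have hC0 : 0 ≤ C := by rw [hC]; positivity
  have p1 : 0 ≤ 1000 / g := by positivity
  have p2 : 0 ≤ 161 / g := by positivity
  have p3 : 0 ≤ C / e := by positivity
  have p4 : 0 ≤ (2:ℝ)^k * ((k+1).factorial : ℝ) / κ := by positivity
  have p5 : 0 ≤ 2 / κ^(k-1) := by positivity
  have p6 : 0 ≤ 4672 * (k:ℝ) := by positivity
  refine ⟨1000 / g + 161 / g + C / e + (2:ℝ)^k * ((k+1).factorial : ℝ) / κ + 2 / κ^(k-1) + 24 + 4672 * (k:ℝ), ?_⟩
  intro V _ _ G hn0 hz
  have hn24 : (24:ℝ) ≤ (Fintype.card V : ℝ) := by linarith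
  have hn24' : 24 ≤ Fintype.card V := by exact_mod_cast hn24
  have hn1 : 1 ≤ Fintype.card V := by omega
  obtain ⟨n, hn⟩ : ∃ n : ℝ, n = (Fintype.card V : ℝ) := ⟨_, rfl⟩
  have hnpos : 0 < n := by rw [hn]; linarith
  have q1 : 1 / n ≤ g / 1000 := by
    have : 1000 / g ≤ n := by rw [hn]; linarith
    rw [div_le_iff₀ hg0] at this
    rw [div_le_div_iff₀ hnpos (by norm_num)]; linarith
  have q2 : 160 * (1 / n) < g := by
    have : 161 / g ≤ n := by rw [hn]; linarith
    rw [div_le_iff₀ hg0] at this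
    rw [mul_one_div, div_lt_iff₀ hnpos]; linarith
  have q3 : C * (1 / n) ≤ e := by
    have : C / e ≤ n := by rw [hn]; linarith
    rw [div_le_iff₀ he0] at this
    rw [mul_one_div, div_le_iff₀ hnpos]; linarith
  have q4 : (2:ℝ)^k * ((k+1).factorial : ℝ) ≤ n * κ := by
    have : (2:ℝ)^k * ((k+1).factorial : ℝ) / κ ≤ n := by rw [hn]; linarith
    rwa [div_le_iff₀ hκ0] at this
  have q5 : 2 ≤ n * κ^(k-1) := by
    have : 2 / κ^(k-1) ≤ n := by rw [hn]; linarith
    rwa [div_le_iff₀ (by positivity)] at this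
  have q6 : 4672 * (k:ℝ) ≤ n := by rw [hn]; linarith
  by_cases hN : (cq G (k+1) : ℝ) < (n * κ)^(k-1)
  swap
  · push Not at hN
    have e1 : n * κ = (Fintype.card V : ℝ) / k := by rw [hn, hκ]; ring
    rw [e1] at hN
    have : 0 ≤ 4672 * (k:ℝ) * (Fintype.card V : ℝ)^(k-2) := by positivity
    linarith
  obtain ⟨X, hX0, hXs, hmax⟩ := exists_max G hn1
  obtain ⟨z, hz⟩ := hz
  -- q > lambda n^2
  have hl1 : 4/3 ≤ 2 * (1 - 1/(k:ℝ)) := by rw [← hκ]; linarith
  have hzs : 0 ≤ ∑ v, z v ^ 2 := Finset.sum_nonneg fun v _ => sq_nonneg _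
  have hq : (2 * (1 - 1/(k:ℝ))) * n^2 < qf G X := by
    have h1 := hmax (fun v => |z v|) (fun v => abs_nonneg _)
    simp only [sq_abs] at h1
    have h2 := qf_abs G z
    rw [← hn] at h1 hz
    have h3 : (2 * (1 - 1/(k:ℝ))) * n * (∑ v, z v ^ 2) * n < qf G X * ∑ v, z v ^ 2 := by
      calc _ < qf G z * n := mul_lt_mul_of_pos_right hz hnpos
        _ ≤ qf G (fun v => |z v|) * n := mul_le_mul_of_nonneg_right h2 hnpos.le
        _ ≤ _ := h1
    have hzp : 0 < ∑ v, z v ^ 2 := by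
      rcases hzs.lt_or_eq with h | h
      · exact h
      · rw [← h] at h3; simp at h3
    have h4 : (2 * (1 - 1/(k:ℝ)) * n^2) * (∑ v, z v ^ 2) < qf G X * ∑ v, z v ^ 2 := by
      calc _ = (2 * (1 - 1/(k:ℝ))) * n * (∑ v, z v ^ 2) * n := by ring
        _ < _ := h3
    exact lt_of_mul_lt_mul_right h4 hzs
  have hX6 : ∀ v, X v ≤ 6 := by
    refine max_bound G X hn1 hX0 hXs hmax ?_
    rw [← hn]
    have : (4/3) * n^2 ≤ (2 * (1 - 1/(k:ℝ))) * n^2 := mul_le_mul_of_nonneg_right hl1 (sq_nonneg _)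
    linarith
  have hXabs : ∀ v, |X v| ≤ 6 := fun v => by rw [abs_of_nonneg (hX0 v)]; exact hX6 v
  have hGam : 0 < Gam G X (2 * (1 - 1/(k:ℝ))) (u0 V) := by
    rw [Gam_u0_qf G X _ hn1 hXs, ← hn]
    have h1 := mul_lt_mul_of_pos_left hq (by positivity : 0 < (1/n)^2)
    have h2 : (1/n)^2 * (2 * (1 - 1/(k:ℝ)) * n^2) = 2 * (1 - 1/(k:ℝ)) := by field_simp
    rw [h2] at h1
    linarith
  have hni : n * (1/n) = 1 := mul_one_div_cancel hnpos.ne'
  have hNn : (cq G (k+1) : ℝ) * (1 / (Fintype.card V : ℝ))^k ≤ 1 / (Fintype.card V : ℝ) := by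
    rw [← hn]
    have h1 : (cq G (k+1) : ℝ) * (1/n)^k ≤ (n*κ)^(k-1) * (1/n)^k :=
      mul_le_mul_of_nonneg_right hN.le (by positivity)
    have h2 : (n*κ)^(k-1) * (1/n)^k = κ^(k-1) * (1/n) := by
      have : k = (k-1) + 1 := by omega
      calc (n*κ)^(k-1) * (1/n)^k = (n*κ)^(k-1) * (1/n)^((k-1)+1) := by rw [← this]
        _ = (n * (1/n))^(k-1) * κ^(k-1) * (1/n) := by rw [pow_succ, mul_pow, mul_pow]; ring
        _ = κ^(k-1) * (1/n) := by rw [hni, one_pow]; ring
    have h3 : κ^(k-1) ≤ 1 := pow_le_one₀ hκ0.le (by linarith)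
    have h4 : κ^(k-1) * (1/n) ≤ 1 * (1/n) := mul_le_mul_of_nonneg_right h3 (by positivity)
    linarith
  have D : Dat G X k e C :=
    { hk := hk
      hn := hn1
      hX0 := hX0
      hX6 := hX6
      hXs := hXs
      hG := hGam
      hN := hNn
      he := he0
      hC := hC0
      hCn := by rw [← hn]; exact q3
      rob := by
        intro p hp hW
        have h1 := hrob1 V G X p hXabs hp hW
        have h2 := kap_nonneg G (k+1) p hp
        have h3 : C1 * kap G (k+1) p ≤ C * kap G (k+1) p :=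
          mul_le_mul_of_nonneg_right (by linarith) h2
        linarith
      rob' := by
        intro p hp hW
        have h1 := hrob2 V G X p hXabs hp hW
        have hkk : k - 1 + 1 = k := by omega
        rw [hkk] at h1
        have h2 := kap_nonneg G k p hp
        have h3 : C2 * kap G k p ≤ C * kap G k p :=
          mul_le_mul_of_nonneg_right (by linarith) h2
        linarith }
  have hLcard := D.card_LL g hg0 (by linarith) (by rw [he]) (by rw [← hn]; exact q1)
  have R : Reg G (LL G X k g) k n κ ε θ :=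
    { hn := hn
      hn0 := hnpos
      hk := hk
      hκ := hκ
      hθ := hθ
      hε := hε
      H1 := by
        intro u hu
        have h1 := D.deg g hg0 hg1 (by rw [he]) (by rw [← hn]; exact q1) u hu
        rw [← hn, ← hκ] at h1
        have h2 : (((NN G u).card : ℝ) * (1/n) - (1 - κ))^2 ≤ ε^2 := h1.trans hgε2
        have h3 := abs_le_of_sq_le_sq h2 hε0.le
        have h4 : ((NN G u).card : ℝ) - (1-κ)*n = (((NN G u).card : ℝ) * (1/n) - (1 - κ)) * n := by
          field_simp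
        rw [h4, abs_mul, abs_of_pos hnpos]
        exact mul_le_mul_of_nonneg_right h3 hnpos.le
      H2 := by
        intro u hu
        have h1 := D.pairs g hg0 hg1 (by rw [he]) (by rw [← hn]; exact q1) u hu
        rw [pairs_sum]
        rw [← hn] at h1
        refine le_trans (le_of_eq ?_) (h1.trans (mul_le_mul_of_nonneg_right hgε (sq_nonneg _)))
        congr 2
        ext p
        simp
      H3 := by
        have h1 := hLcard
        rw [← hn] at h1
        have h2 := mul_le_mul_of_nonneg_right h1 hnpos.le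
        have h3 : ((LL G X k g).card : ℝ) * (1/n) * n = ((LL G X k g).card : ℝ) := by field_simp
        rw [h3] at h2
        have h4 : g / 1000 * n ≤ ε * n := mul_le_mul_of_nonneg_right (by linarith) hnpos.le
        linarith
      H4 := hN
      H5 := q4 }
  obtain ⟨S, col, hS, hcol, huniq⟩ := R.coloring q5
  have hempty := D.L_empty g hg0 hLcard col S hcol hS huniq (by rw [← hn]; exact q2)
  have huniq' : ∀ a b a' b', G.Adj a b → G.Adj a' b' →
        col a = col b → col a' = col b' → ({a, b} : Finset V) = {a', b'} := by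
    intro a b a' b'
    have := huniq a b a' b'
    rw [hempty] at this
    exact this (by simp) (by simp) (by simp) (by simp)
  have hX8 : ∀ v, 1/8 ≤ X v := by
    intro v
    refine D.X_lower v ?_
    have : v ∉ LL G X k g := by rw [hempty]; simp
    rw [mem_LL] at this
    push Not at this
    linarith
  obtain ⟨⟨a, b, hab, hc⟩, hMC, hcl⟩ := D.final hX8 col S hcol hS huniq' hn24'
  exact count G k hk col S hcol hS a b hab hc hMC hcl (by rw [← hn]; exact q6)

end Pool.Agent.Helper56.QCl
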