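import Pool.Agent.Helper56.QCl.Final

set_option autoImplicit false
set_option linter.unusedSectionVars false

open Finset BigOperators

namespace Pool.Agent.Helper56.QCl

variable {V : Type} [Fintype V] [DecidableEq V]

/-- quadratic form of the signless Laplacian -/
noncomputable def qf (G : SimpleGraph V) (z : V → ℝ) : ℝ :=
  (1/2) * ∑ a, ∑ b, ad G a b * (z a + z b)^2

theorem qf_smul (G : SimpleGraph V) (z : V → ℝ) (t : ℝ) :
    qf G (fun v => t * z v) = t^2 * qf G z := by
  unfold qf
  have : ∀ a b, ad G a b * (t * z a + t * z b)^2 = t^2 * (ad G a b * (z a + z b)^2) := fun a b => by ring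
  simp only [this, ← Finset.mul_sum]
  ring

theorem qf_nonneg (G : SimpleGraph V) (z : V → ℝ) : 0 ≤ qf G z :=
  mul_nonneg (by norm_num) (Finset.sum_nonneg fun a _ => Finset.sum_nonneg fun b _ =>
    mul_nonneg (ad_nonneg G a b) (sq_nonneg _))

theorem qf_abs (G : SimpleGraph V) (z : V → ℝ) : qf G z ≤ qf G (fun v => |z v|) := by
  unfold qf
  refine mul_le_mul_of_nonneg_left ?_ (by norm_num)
  refine Finset.sum_le_sum fun a _ => Finset.sum_le_sum fun b _ => ?_
  refine mul_le_mul_of_nonneg_left ?_ (ad_nonneg G a b)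
  have h1 := sq_abs (z a)
  have h2 := sq_abs (z b)
  have h3 : z a * z b ≤ |z a| * |z b| := by rw [← abs_mul]; exact le_abs_self _
  nlinarith

theorem qf_cont (G : SimpleGraph V) : Continuous (qf G) := by
  unfold qf
  fun_prop

theorem exists_max (G : SimpleGraph V) (hn : 1 ≤ Fintype.card V) :
    ∃ X : V → ℝ, (∀ v, 0 ≤ X v) ∧ ∑ v, X v ^ 2 = Fintype.card V ∧
      ∀ Y : V → ℝ, (∀ v, 0 ≤ Y v) → qf G Y * Fintype.card V ≤ qf G X * ∑ v, Y v ^ 2 := by
  have hn' : (1:ℝ) ≤ (Fintype.card V : ℝ) := by exact_mod_cast hn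
  set n : ℝ := (Fintype.card V : ℝ) with hn_def
  set K : Set (V → ℝ) := {X | (∀ v, 0 ≤ X v) ∧ ∑ v, X v ^ 2 = n} with hK
  have hKclosed : IsClosed K := by
    have h1 : IsClosed {X : V → ℝ | ∀ v, 0 ≤ X v} := by
      have : {X : V → ℝ | ∀ v, 0 ≤ X v} = ⋂ v, {X : V → ℝ | 0 ≤ X v} := by
        ext X; simp
      rw [this]
      exact isClosed_iInter fun v => isClosed_le continuous_const (continuous_apply v)
    have h2 : IsClosed {X : V → ℝ | ∑ v, X v ^ 2 = n} :=
      isClosed_eq (by fun_prop) continuous_const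
    exact h1.inter h2
  have hKsub : K ⊆ Set.Icc (fun _ => 0) (fun _ => n) := by
    rintro X ⟨h1, h2⟩
    refine ⟨fun v => h1 v, fun v => ?_⟩
    have h3 : X v ^ 2 ≤ n := by
      rw [← h2]
      exact Finset.single_le_sum (f := fun v => X v ^ 2) (fun _ _ => sq_nonneg _) (Finset.mem_univ v)
    have : X v ^ 2 ≤ n ^ 2 := by nlinarith
    exact (abs_le.mp (abs_le_of_sq_le_sq this (by linarith))).2
  have hKc : IsCompact K := isCompact_Icc.of_isClosed_subset hKclosed hKsub
  have hone : (fun _ => (1:ℝ)) ∈ K := by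
    refine ⟨fun _ => by norm_num, ?_⟩
    simp [hn_def]
  obtain ⟨X, hXK, hmax⟩ := hKc.exists_isMaxOn ⟨_, hone⟩ (qf_cont G).continuousOn
  refine ⟨X, hXK.1, hXK.2, ?_⟩
  intro Y hY
  by_cases h0 : ∑ v, Y v ^ 2 = 0
  · have hz : ∀ v, Y v = 0 := by
      intro v
      have := (Finset.sum_eq_zero_iff_of_nonneg (fun v _ => sq_nonneg (Y v))).mp h0 v (Finset.mem_univ v)
      exact pow_eq_zero_iff (two_ne_zero) |>.mp this
    have : qf G Y = 0 := by
      unfold qf; simp [hz]
    rw [this, h0]; simp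
  · have hpos : 0 < ∑ v, Y v ^ 2 :=
      lt_of_le_of_ne (Finset.sum_nonneg fun v _ => sq_nonneg _) (Ne.symm h0)
    set s := ∑ v, Y v ^ 2 with hs
    have ht : 0 ≤ n / s := by positivity
    have hmem : (fun v => Real.sqrt (n / s) * Y v) ∈ K := by
      refine ⟨fun v => mul_nonneg (Real.sqrt_nonneg _) (hY v), ?_⟩
      have : ∀ v, (Real.sqrt (n / s) * Y v)^2 = (n / s) * Y v ^ 2 := fun v => by
        rw [mul_pow, Real.sq_sqrt ht]
      simp only [this, ← Finset.mul_sum, ← hs]
      field_simp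
    have h1 := hmax hmem
    simp only [Set.mem_ofPred_eq] at h1
    rw [qf_smul, Real.sq_sqrt ht] at h1
    rw [div_mul_eq_mul_div, div_le_iff₀ hpos] at h1
    linarith

theorem Gam_u0_qf (G : SimpleGraph V) (X : V → ℝ) (l : ℝ) (hn : 1 ≤ Fintype.card V)
    (hX : ∑ v, X v ^ 2 = Fintype.card V) :
    Gam G X l (u0 V) = (1 / (Fintype.card V : ℝ))^2 * qf G X - l := by
  have hn' : (1:ℝ) ≤ (Fintype.card V : ℝ) := by exact_mod_cast hn
  have h1 : EE G X (u0 V) = (1 / (Fintype.card V : ℝ))^2 * qf G X := by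
    unfold EE qf u0
    have : ∀ a b, 1 / (Fintype.card V : ℝ) * (1 / (Fintype.card V : ℝ)) * (ad G a b * (X a + X b)^2)
      = (1 / (Fintype.card V : ℝ))^2 * (ad G a b * (X a + X b)^2) := fun a b => by ring
    simp only [this, ← Finset.mul_sum]
    ring
  have h2 : PP X (u0 V) = 1 := by
    unfold PP u0
    rw [← Finset.mul_sum, hX, one_div_mul_cancel (by linarith)]
  unfold Gam
  rw [h1, WW_u0 hn, h2]; ring

theorem max_bound (G : SimpleGraph V) (X : V → ℝ) (hn : 1 ≤ Fintype.card V)
    (hX0 : ∀ v, 0 ≤ X v) (hX : ∑ v, X v ^ 2 = Fintype.card V)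
    (hmax : ∀ Y : V → ℝ, (∀ v, 0 ≤ Y v) → qf G Y * Fintype.card V ≤ qf G X * ∑ v, Y v ^ 2)
    (hq : (4/3) * (Fintype.card V : ℝ)^2 ≤ qf G X) (v : V) : X v ≤ 6 := by
  have hn' : (1:ℝ) ≤ (Fintype.card V : ℝ) := by exact_mod_cast hn
  set n : ℝ := (Fintype.card V : ℝ) with hn_def
  set Y := Function.update X v 0 with hY
  have hY0 : ∀ w, 0 ≤ Y w := by
    intro w
    rw [hY]
    by_cases h : w = v
    · subst h; simp
    · rw [Function.update_of_ne h]; exact hX0 w
  have h1 := hmax Y hY0
  have h2 : ∑ w, Y w ^ 2 = n - X v ^ 2 := by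
    have : ∑ w, Y w ^ 2 + X v ^ 2 = ∑ w, X w ^ 2 := by
      rw [← Finset.add_sum_erase univ (fun w => X w ^ 2) (Finset.mem_univ v),
        ← Finset.add_sum_erase univ (fun w => Y w ^ 2) (Finset.mem_univ v)]
      have e1 : Y v = 0 := by rw [hY]; simp
      have e2 : ∑ w ∈ univ.erase v, Y w ^ 2 = ∑ w ∈ univ.erase v, X w ^ 2 := by
        refine Finset.sum_congr rfl fun w hw => ?_
        rw [hY, Function.update_of_ne (Finset.ne_of_mem_erase hw)]
      rw [e2]
      simp only [e1]; ring
    rw [hX] at this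
    linarith
  have h3 : qf G X - qf G Y ≤ n * X v ^ 2 + 2 * X v * ∑ w, X w := by
    have hpt : ∀ a b, ad G a b * (X a + X b)^2 - ad G a b * (Y a + Y b)^2 ≤
        (if a = v then X v ^ 2 + 2 * X v * X b else 0) + (if b = v then X v ^ 2 + 2 * X v * X a else 0) := by
      intro a b
      have had0 := ad_nonneg G a b
      have had1 := ad_le_one G a b
      have hv := hX0 v
      have ha := hX0 a
      have hb := hX0 b
      by_cases h1 : a = v
      · by_cases h2 : b = v
        · subst h1; subst h2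
          rw [ad_self]; simp; positivity
        · subst h1
          have e1 : Y a = 0 := by rw [hY]; simp
          have e2 : Y b = X b := by rw [hY, Function.update_of_ne h2]
          rw [e1, e2]
          simp only [if_true, h2, if_false, add_zero, zero_add]
          have : 0 ≤ X a ^ 2 + 2 * X a * X b := by positivity
          nlinarith
      · by_cases h2 : b = v
        · subst h2
          have e1 : Y b = 0 := by rw [hY]; simp
          have e2 : Y a = X a := by rw [hY, Function.update_of_ne h1]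
          rw [e1, e2]
          simp only [if_true, h1, if_false, add_zero, zero_add]
          have : 0 ≤ X b ^ 2 + 2 * X b * X a := by positivity
          nlinarith
        · have e1 : Y b = X b := by rw [hY, Function.update_of_ne h2]
          have e2 : Y a = X a := by rw [hY, Function.update_of_ne h1]
          rw [e1, e2]
          simp [h1, h2]
    have hsum : ∑ a, ∑ b, (ad G a b * (X a + X b)^2 - ad G a b * (Y a + Y b)^2) ≤
        ∑ a, ∑ b, ((if a = v then X v ^ 2 + 2 * X v * X b else 0) + (if b = v then X v ^ 2 + 2 * X v * X a else 0)) :=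
      Finset.sum_le_sum fun a _ => Finset.sum_le_sum fun b _ => hpt a b
    have e1 : ∑ a, ∑ b, ((if a = v then X v ^ 2 + 2 * X v * X b else 0) + (if b = v then X v ^ 2 + 2 * X v * X a else 0))
        = 2 * (n * X v ^ 2 + 2 * X v * ∑ w, X w) := by
      have f1 : ∑ b : V, (X v ^ 2 + 2 * X v * X b) = n * X v ^ 2 + 2 * X v * ∑ w, X w := by
        rw [Finset.sum_add_distrib, ← Finset.mul_sum, Finset.sum_const, nsmul_eq_mul, Finset.card_univ]
      have f2 : ∑ a, ∑ b : V, (if a = v then X v ^ 2 + 2 * X v * X b else 0) = ∑ b : V, (X v ^ 2 + 2 * X v * X b) := by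
        rw [Finset.sum_comm]
        simp only [Finset.sum_ite_eq', Finset.mem_univ, if_true]
      have f3 : ∑ a : V, ∑ b, (if b = v then X v ^ 2 + 2 * X v * X a else 0) = ∑ b : V, (X v ^ 2 + 2 * X v * X b) := by
        simp only [Finset.sum_ite_eq', Finset.mem_univ, if_true]
      have f4 : ∑ a, ∑ b, ((if a = v then X v ^ 2 + 2 * X v * X b else 0) + (if b = v then X v ^ 2 + 2 * X v * X a else 0))
        = ∑ a, ∑ b : V, (if a = v then X v ^ 2 + 2 * X v * X b else 0)
          + ∑ a : V, ∑ b, (if b = v then X v ^ 2 + 2 * X v * X a else 0) := by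
        rw [← Finset.sum_add_distrib]
        exact Finset.sum_congr rfl fun a _ => Finset.sum_add_distrib
      rw [f4, f2, f3, f1]
      ring
    have e2 : ∑ a, ∑ b, (ad G a b * (X a + X b)^2 - ad G a b * (Y a + Y b)^2) = 2 * (qf G X - qf G Y) := by
      unfold qf
      simp only [Finset.sum_sub_distrib]
      ring
    rw [e1, e2] at hsum
    linarith
  have h4 : ∑ w, X w ≤ n := by
    have h1 := sq_sum_le_card_mul_sum_sq (s := univ) (f := X)
    rw [hX, Finset.card_univ] at h1
    have h2 := abs_le_of_sq_le_sq (by rw [← hn_def] at h1; nlinarith : (∑ v, X v)^2 ≤ n^2) (by linarith)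
    exact (abs_le.mp h2).2
  rw [h2] at h1
  have hv := hX0 v
  have h5 : qf G X * X v ^ 2 ≤ n * (qf G X - qf G Y) := by nlinarith
  have h6 : n * (qf G X - qf G Y) ≤ n * (n * X v ^ 2 + 2 * X v * n) := by
    refine mul_le_mul_of_nonneg_left (h3.trans ?_) (by linarith)
    have : 2 * X v * ∑ w, X w ≤ 2 * X v * n := mul_le_mul_of_nonneg_left h4 (by linarith)
    linarith
  have h7 : (4/3) * n^2 * X v ^ 2 ≤ qf G X * X v ^ 2 := mul_le_mul_of_nonneg_right hq (sq_nonneg _)
  have h8 : n^2 * ((1/3) * X v ^ 2) ≤ n^2 * (2 * X v) := by nlinarith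
  have h9 : (1/3) * X v ^ 2 ≤ 2 * X v := le_of_mul_le_mul_left h8 (by positivity)
  by_contra hcon
  push Not at hcon
  nlinarith

end Pool.Agent.Helper56.QCl
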