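import Pool.Agent.Helper56.QCl.Basic

set_option autoImplicit false
set_option linter.unusedSectionVars false

open Finset BigOperators

namespace Pool.Agent.Helper56.QCl

variable {V : Type} [Fintype V] [DecidableEq V]

theorem esymm_step (S : Finset V) (p : V → ℝ) (j : ℕ) :
    ∑ R ∈ S.powersetCard j, (∏ v ∈ R, p v) * ∑ w ∈ S \ R, p w
      = ((j : ℝ) + 1) * ∑ T ∈ S.powersetCard (j+1), ∏ v ∈ T, p v := by
  have h1 : ∑ R ∈ S.powersetCard j, (∏ v ∈ R, p v) * ∑ w ∈ S \ R, p w
      = ∑ x ∈ (S.powersetCard j).sigma (fun R => S \ R), ∏ v ∈ insert x.2 x.1, p v := by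
    rw [Finset.sum_sigma]
    refine Finset.sum_congr rfl fun R _ => ?_
    rw [Finset.mul_sum]
    refine Finset.sum_congr rfl fun w hw => ?_
    rw [Finset.prod_insert (Finset.mem_sdiff.mp hw).2]
    ring
  have h2 : ((j : ℝ) + 1) * ∑ T ∈ S.powersetCard (j+1), ∏ v ∈ T, p v
      = ∑ x ∈ (S.powersetCard (j+1)).sigma (fun T => T), ∏ v ∈ x.1, p v := by
    rw [Finset.sum_sigma, Finset.mul_sum]
    refine Finset.sum_congr rfl fun T hT => ?_
    show ((j : ℝ) + 1) * ∏ v ∈ T, p v = ∑ s ∈ T, ∏ v ∈ T, p v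
    rw [Finset.sum_const, (Finset.mem_powersetCard.mp hT).2, nsmul_eq_mul]
    push_cast; ring
  rw [h1, h2]
  refine Finset.sum_bij' (fun x _ => ⟨insert x.2 x.1, x.2⟩) (fun x _ => ⟨x.1.erase x.2, x.2⟩)
    ?_ ?_ ?_ ?_ ?_
  · rintro ⟨R, w⟩ hx
    simp only [Finset.mem_sigma, Finset.mem_powersetCard, Finset.mem_sdiff] at hx ⊢
    refine ⟨⟨Finset.insert_subset hx.2.1 hx.1.1, ?_⟩, Finset.mem_insert_self _ _⟩
    rw [Finset.card_insert_of_notMem hx.2.2, hx.1.2]
  · rintro ⟨T, w⟩ hx
    simp only [Finset.mem_sigma, Finset.mem_powersetCard, Finset.mem_sdiff] at hx ⊢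
    refine ⟨⟨(Finset.erase_subset _ _).trans hx.1.1, ?_⟩, hx.1.1 hx.2, Finset.notMem_erase _ _⟩
    rw [Finset.card_erase_of_mem hx.2, hx.1.2]; rfl
  · rintro ⟨R, w⟩ hx
    simp only [Finset.mem_sigma, Finset.mem_powersetCard, Finset.mem_sdiff] at hx
    simp [Finset.erase_insert hx.2.2]
  · rintro ⟨T, w⟩ hx
    simp only [Finset.mem_sigma, Finset.mem_powersetCard] at hx
    simp [Finset.insert_erase hx.2]
  · rintro ⟨R, w⟩ hx
    rfl

theorem esymm_lower (S : Finset V) (p : V → ℝ) (hp : ∀ v, 0 ≤ p v) (r : ℕ) (t : ℝ) (ht : 0 ≤ t)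
    (h : ∀ R ⊆ S, R.card ≤ r → t ≤ ∑ w ∈ S \ R, p w) :
    ∀ j, j ≤ r + 1 → t ^ j ≤ (j.factorial : ℝ) * ∑ T ∈ S.powersetCard j, ∏ v ∈ T, p v := by
  intro j
  induction j with
  | zero => intro _; simp
  | succ j ih =>
    intro hj
    have ih' := ih (by omega)
    have h1 : t ^ j * t ≤ ((j.factorial : ℝ) * ∑ T ∈ S.powersetCard j, ∏ v ∈ T, p v) * t :=
      mul_le_mul_of_nonneg_right ih' ht
    have h2 : (∑ T ∈ S.powersetCard j, ∏ v ∈ T, p v) * t ≤
        ∑ R ∈ S.powersetCard j, (∏ v ∈ R, p v) * ∑ w ∈ S \ R, p w := by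
      rw [Finset.sum_mul]
      refine Finset.sum_le_sum fun R hR => ?_
      rw [Finset.mem_powersetCard] at hR
      exact mul_le_mul_of_nonneg_left (h R hR.1 (by omega)) (Finset.prod_nonneg fun v _ => hp v)
    rw [esymm_step] at h2
    rw [pow_succ, Nat.factorial_succ]
    push_cast
    have h3 : (0:ℝ) ≤ (j.factorial : ℝ) := by positivity
    nlinarith [mul_le_mul_of_nonneg_left h2 h3]

theorem multi (T : Finset V) (p X : V → ℝ) (hp : ∀ v, 0 ≤ p v) (r : ℕ) (hr : 2 ≤ r)
    (hT : T.card ≤ r) :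
    (1/2) * ∑ a ∈ T, ∑ b ∈ T, (if a = b then 0 else p a * p b * (X a + X b)^2)
      ≤ 2 * (1 - 1/(r:ℝ)) * (∑ v ∈ T, p v) * (∑ v ∈ T, p v * X v ^ 2) := by
  set W := ∑ v ∈ T, p v with hW
  set P := ∑ v ∈ T, p v * X v ^ 2 with hP
  set S := ∑ v ∈ T, p v * X v with hS
  set S2 := ∑ v ∈ T, (p v * X v)^2 with hS2
  have h0 : ∑ a ∈ T, ∑ b ∈ T, (if a = b then 0 else p a * p b * (X a + X b)^2)
      = ∑ a ∈ T, ∑ b ∈ T, p a * p b * (X a + X b)^2 - ∑ a ∈ T, 4 * (p a * X a)^2 := by
    rw [← Finset.sum_sub_distrib]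
    refine Finset.sum_congr rfl fun a ha => ?_
    have : ∑ b ∈ T, p a * p b * (X a + X b)^2 =
        ∑ b ∈ T, (if a = b then 0 else p a * p b * (X a + X b)^2)
        + ∑ b ∈ T, (if a = b then 4 * (p a * X a)^2 else 0) := by
      rw [← Finset.sum_add_distrib]
      refine Finset.sum_congr rfl fun b _ => ?_
      split_ifs with h
      · subst h; ring
      · ring
    rw [this, Finset.sum_ite_eq, if_pos ha]; ring
  have h1 : ∑ a ∈ T, ∑ b ∈ T, p a * p b * (X a + X b)^2 = 2 * (W * P) + 2 * S^2 := by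
    have e1 : W * P = ∑ a ∈ T, ∑ b ∈ T, p a * (p b * X b ^ 2) := by
      rw [hW, hP, Finset.sum_mul_sum]
    have e2 : W * P = ∑ a ∈ T, ∑ b ∈ T, (p a * X a ^ 2) * p b := by
      rw [mul_comm, hW, hP, Finset.sum_mul_sum]
    have e3 : S^2 = ∑ a ∈ T, ∑ b ∈ T, (p a * X a) * (p b * X b) := by
      rw [sq, hS, Finset.sum_mul_sum]
    rw [two_mul (W * P)]
    nth_rewrite 1 [e1]
    rw [e2, e3, Finset.mul_sum, ← Finset.sum_add_distrib, ← Finset.sum_add_distrib]
    refine Finset.sum_congr rfl fun a _ => ?_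
    rw [Finset.mul_sum, ← Finset.sum_add_distrib, ← Finset.sum_add_distrib]
    refine Finset.sum_congr rfl fun b _ => ?_
    ring
  have h2 : ∑ a ∈ T, 4 * (p a * X a)^2 = 4 * S2 := by rw [hS2, Finset.mul_sum]
  have hr' : (2:ℝ) ≤ r := by exact_mod_cast hr
  have hS2nn : 0 ≤ S2 := Finset.sum_nonneg fun v _ => sq_nonneg _
  have h3 : S^2 ≤ (r:ℝ) * S2 := by
    have := sq_sum_le_card_mul_sum_sq (s := T) (f := fun v => p v * X v)
    have hc : (T.card : ℝ) ≤ r := by exact_mod_cast hT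
    calc S^2 ≤ (T.card : ℝ) * S2 := this
      _ ≤ (r:ℝ) * S2 := mul_le_mul_of_nonneg_right hc hS2nn
  have h4 : S^2 ≤ W * P := by
    refine Finset.sum_sq_le_sum_mul_sum_of_sq_le_mul T (fun i _ => hp i)
      (fun i _ => mul_nonneg (hp i) (sq_nonneg _)) (fun i _ => le_of_eq ?_)
    ring
  rw [h0, h1, h2]
  have h5 : S^2 / r ≤ S2 := by
    rw [div_le_iff₀ (by linarith)]; linarith
  have h6 : (1 - 2/(r:ℝ)) * S^2 ≤ (1 - 2/(r:ℝ)) * (W*P) := by
    refine mul_le_mul_of_nonneg_left h4 ?_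
    rw [sub_nonneg, div_le_one (by linarith)]; exact hr'
  have h7 : S^2 / r = (1/(r:ℝ)) * S^2 := by ring
  rw [h7] at h5
  have h8 : (1 - 2/(r:ℝ)) = 1 - 2 * (1/(r:ℝ)) := by ring
  rw [h8] at h6
  nlinarith

theorem clique_case (G : SimpleGraph V) (X p : V → ℝ) (hp : ∀ v, 0 ≤ p v) (hW : WW p ≤ 1)
    (K : ℝ) (hX : ∀ v, |X v| ≤ K) (r : ℕ) (hr : 2 ≤ r)
    (hcl : ∀ u v, p u ≠ 0 → p v ≠ 0 → u ≠ v → G.Adj u v) (d C : ℝ) (hd : 0 < d)
    (hC : 2 * K^2 * ((r+1).factorial : ℝ) / d^(r+1) ≤ C) :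
    Gam G X (2 * (1 - 1/(r:ℝ))) p - C * kap G (r+1) p ≤ 4 * K^2 * d := by
  classical
  have hr' : (2:ℝ) ≤ r := by exact_mod_cast hr
  have hlam : 0 ≤ 2 * (1 - 1/(r:ℝ)) := by
    have : 1/(r:ℝ) ≤ 1 := by rw [div_le_one (by linarith)]; linarith
    linarith
  have hWnn : 0 ≤ WW p := Finset.sum_nonneg fun v _ => hp v
  have hPnn : 0 ≤ PP X p := Finset.sum_nonneg fun v _ => mul_nonneg (hp v) (sq_nonneg _)
  have hXX : ∀ a b, (X a + X b)^2 ≤ 4 * K^2 := by
    intro a b
    have h1 := abs_le.mp (hX a)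
    have h2 := abs_le.mp (hX b)
    nlinarith [sq_nonneg (X a - X b)]
  set S := univ.filter (fun v => p v ≠ 0) with hS
  obtain ⟨T, hT, hmax⟩ := Finset.exists_max_image (S.powerset.filter (fun R => R.card ≤ r))
    (fun R => ∑ v ∈ R, p v) ⟨∅, by simp⟩
  simp only [Finset.mem_filter, Finset.mem_powerset] at hT hmax
  obtain ⟨hTS, hTr⟩ := hT
  set t := ∑ w ∈ S \ T, p w with ht
  have htnn : 0 ≤ t := Finset.sum_nonneg fun v _ => hp v
  have hcompl : ∑ w ∈ univ \ T, p w = t := by
    rw [ht]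
    symm
    refine Finset.sum_subset (Finset.sdiff_subset_sdiff (Finset.subset_univ _) le_rfl) ?_
    intro x hx hx'
    by_contra h
    apply hx'
    simp only [Finset.mem_sdiff, Finset.mem_univ, true_and] at hx ⊢
    exact ⟨by simp [hS, h], hx⟩
  by_cases htd : d ≤ t
  · -- large tail
    have hlow := esymm_lower S p hp r t htnn (by
      intro R hR hRr
      have h1 := hmax R ⟨hR, hRr⟩
      have h2 : ∑ w ∈ S \ R, p w + ∑ w ∈ R, p w = ∑ w ∈ S, p w := Finset.sum_sdiff hR
      have h3 : ∑ w ∈ S \ T, p w + ∑ w ∈ T, p w = ∑ w ∈ S, p w := Finset.sum_sdiff hTS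
      rw [ht]; linarith) (r+1) le_rfl
    have hkap : ∑ U ∈ S.powersetCard (r+1), ∏ v ∈ U, p v ≤ kap G (r+1) p := by
      unfold kap
      refine Finset.sum_le_sum_of_subset_of_nonneg ?_ ?_
      · intro U hU
        rw [Finset.mem_powersetCard] at hU
        simp only [Finset.mem_filter, Finset.mem_univ, true_and]
        refine ⟨?_, hU.2⟩
        intro a ha b hb hab
        have ha' := hU.1 (by exact_mod_cast ha : a ∈ U)
        have hb' := hU.1 (by exact_mod_cast hb : b ∈ U)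
        simp only [hS, Finset.mem_filter, Finset.mem_univ, true_and] at ha' hb'
        exact hcl a b ha' hb' hab
      · intro U _ _
        exact Finset.prod_nonneg fun v _ => hp v
    have hdp : 0 < d^(r+1) := by positivity
    have hdt : d^(r+1) ≤ t^(r+1) := pow_le_pow_left₀ hd.le htd _
    have hfac : (0:ℝ) < ((r+1).factorial : ℝ) := by positivity
    have hk2 : d^(r+1) / ((r+1).factorial : ℝ) ≤ kap G (r+1) p := by
      rw [div_le_iff₀ hfac]
      nlinarith [mul_le_mul_of_nonneg_left hkap hfac.le]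
    have hCnn : 0 ≤ C := le_trans (by positivity) hC
    have hCk : 2 * K^2 ≤ C * kap G (r+1) p := by
      calc 2 * K^2 = (2 * K^2 * ((r+1).factorial : ℝ) / d^(r+1)) * (d^(r+1) / ((r+1).factorial : ℝ)) := by
            field_simp
        _ ≤ C * kap G (r+1) p := mul_le_mul hC hk2 (by positivity) hCnn
    have hE : EE G X p ≤ 2 * K^2 := by
      unfold EE
      have : ∑ u, ∑ v, p u * p v * (ad G u v * (X u + X v)^2) ≤ ∑ u, ∑ v, p u * p v * (4 * K^2) := by
        refine Finset.sum_le_sum fun u _ => Finset.sum_le_sum fun v _ => ?_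
        refine mul_le_mul_of_nonneg_left ?_ (mul_nonneg (hp u) (hp v))
        calc ad G u v * (X u + X v)^2 ≤ 1 * (4*K^2) :=
              mul_le_mul (ad_le_one G u v) (hXX u v) (sq_nonneg _) zero_le_one
          _ = 4 * K^2 := one_mul _
      have h2 : ∑ u, ∑ v, p u * p v * (4 * K^2) = WW p * WW p * (4 * K^2) := by
        unfold WW
        rw [Finset.sum_mul_sum, Finset.sum_mul]
        refine Finset.sum_congr rfl fun u _ => ?_
        rw [Finset.sum_mul]
      have h3 : WW p * WW p ≤ 1 := by nlinarith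
      have h4 : WW p * WW p * (4*K^2) ≤ 1 * (4*K^2) := mul_le_mul_of_nonneg_right h3 (by positivity)
      linarith
    have : 0 ≤ 2 * (1 - 1/(r:ℝ)) * WW p * PP X p := mul_nonneg (mul_nonneg hlam hWnn) hPnn
    have h5 : 0 ≤ 4 * K^2 * d := by positivity
    unfold Gam
    linarith
  · push Not at htd
    have hkapnn : 0 ≤ kap G (r+1) p := by
      unfold kap
      exact Finset.sum_nonneg fun U _ => Finset.prod_nonneg fun v _ => hp v
    have hCnn : 0 ≤ C := le_trans (by positivity) hC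
    have hE : EE G X p ≤ (1/2) * ∑ a ∈ T, ∑ b ∈ T, (if a = b then 0 else p a * p b * (X a + X b)^2)
        + 4 * K^2 * t := by
      have hpt : ∀ a b, p a * p b * (ad G a b * (X a + X b)^2) ≤
          (if a ∈ T then (if b ∈ T then (if a = b then 0 else p a * p b * (X a + X b)^2) else 0) else 0)
          + (if a ∉ T then p a * p b * (4*K^2) else 0) + (if b ∉ T then p a * p b * (4*K^2) else 0) := by
        intro a b
        have hab := mul_nonneg (hp a) (hp b)
        have hb4 : ad G a b * (X a + X b)^2 ≤ 4*K^2 := by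
          calc ad G a b * (X a + X b)^2 ≤ 1 * (4*K^2) :=
              mul_le_mul (ad_le_one G a b) (hXX a b) (sq_nonneg _) zero_le_one
          _ = 4 * K^2 := one_mul _
        have hb5 := mul_le_mul_of_nonneg_left hb4 hab
        have hb6 : 0 ≤ p a * p b * (4*K^2) := mul_nonneg hab (by positivity)
        by_cases ha : a ∈ T
        · by_cases hb : b ∈ T
          · by_cases hh : a = b
            · subst hh; simp [ha, ad_self]
            · simp only [ha, hb, hh, if_true, if_false, not_true_eq_false, add_zero]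
              refine mul_le_mul_of_nonneg_left ?_ hab
              calc ad G a b * (X a + X b)^2 ≤ 1 * (X a + X b)^2 :=
                    mul_le_mul_of_nonneg_right (ad_le_one G a b) (sq_nonneg _)
                _ = _ := one_mul _
          · simp only [ha, hb, if_true, if_false, not_true_eq_false, not_false_eq_true, zero_add]
            linarith
        · by_cases hb : b ∈ T
          · simp only [ha, hb, if_true, if_false, not_true_eq_false, not_false_eq_true, zero_add,
              add_zero]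
            linarith
          · simp only [ha, hb, if_true, if_false, not_false_eq_true, zero_add]
            linarith
      unfold EE
      have h1 : ∑ a, ∑ b, p a * p b * (ad G a b * (X a + X b)^2) ≤
          ∑ a, ∑ b, ((if a ∈ T then (if b ∈ T then (if a = b then 0 else p a * p b * (X a + X b)^2) else 0) else 0)
          + (if a ∉ T then p a * p b * (4*K^2) else 0) + (if b ∉ T then p a * p b * (4*K^2) else 0)) :=
        Finset.sum_le_sum fun a _ => Finset.sum_le_sum fun b _ => hpt a b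
      have e1 : ∑ a, ∑ b, (if a ∈ T then (if b ∈ T then (if a = b then 0 else p a * p b * (X a + X b)^2) else 0) else 0)
          = ∑ a ∈ T, ∑ b ∈ T, (if a = b then 0 else p a * p b * (X a + X b)^2) := by
        rw [← Finset.sum_filter_add_sum_filter_not univ (fun a => a ∈ T)]
        have hz : ∑ a ∈ univ.filter (fun a => a ∉ T), ∑ b, (if a ∈ T then (if b ∈ T then (if a = b then 0 else p a * p b * (X a + X b)^2) else 0) else 0) = 0 := by
          refine Finset.sum_eq_zero fun a ha => ?_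
          simp only [Finset.mem_filter, Finset.mem_univ, true_and] at ha
          simp [ha]
        rw [hz, add_zero]
        have hTT : univ.filter (fun a => a ∈ T) = T := by ext; simp
        rw [hTT]
        refine Finset.sum_congr rfl fun a ha => ?_
        simp only [ha, if_true]
        rw [← Finset.sum_filter, hTT]
      have e2 : ∑ a, ∑ b, (if a ∉ T then p a * p b * (4*K^2) else 0) = t * WW p * (4*K^2) := by
        rw [← hcompl]
        unfold WW
        rw [Finset.sum_mul_sum, Finset.sum_mul]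
        have : univ \ T = univ.filter (fun a => a ∉ T) := by ext; simp
        rw [this, Finset.sum_filter]
        refine Finset.sum_congr rfl fun a _ => ?_
        split_ifs with h
        · simp
        · rw [Finset.sum_mul]
      have e3 : ∑ a, ∑ b, (if b ∉ T then p a * p b * (4*K^2) else 0) = t * WW p * (4*K^2) := by
        rw [← e2, Finset.sum_comm]
        refine Finset.sum_congr rfl fun a _ => Finset.sum_congr rfl fun b _ => ?_
        split_ifs <;> ring
      simp only [Finset.sum_add_distrib] at h1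
      rw [e1, e2, e3] at h1
      have h3 : t * WW p * (4*K^2) ≤ t * 1 * (4*K^2) :=
        mul_le_mul_of_nonneg_right (mul_le_mul_of_nonneg_left hW htnn) (by positivity)
      linarith
    have hM := multi T p X hp r hr hTr
    have hWT : ∑ v ∈ T, p v ≤ WW p :=
      Finset.sum_le_sum_of_subset_of_nonneg (Finset.subset_univ _) fun v _ _ => hp v
    have hPT : ∑ v ∈ T, p v * X v ^ 2 ≤ PP X p :=
      Finset.sum_le_sum_of_subset_of_nonneg (Finset.subset_univ _)
        fun v _ _ => mul_nonneg (hp v) (sq_nonneg _)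
    have hWTnn : 0 ≤ ∑ v ∈ T, p v := Finset.sum_nonneg fun v _ => hp v
    have hPTnn : 0 ≤ ∑ v ∈ T, p v * X v ^ 2 :=
      Finset.sum_nonneg fun v _ => mul_nonneg (hp v) (sq_nonneg _)
    have h7 : 2 * (1 - 1/(r:ℝ)) * (∑ v ∈ T, p v) * (∑ v ∈ T, p v * X v ^ 2)
        ≤ 2 * (1 - 1/(r:ℝ)) * WW p * PP X p :=
      mul_le_mul (mul_le_mul_of_nonneg_left hWT hlam) hPT hPTnn (mul_nonneg hlam hWnn)
    have h8 : 4 * K^2 * t ≤ 4 * K^2 * d := mul_le_mul_of_nonneg_left htd.le (by positivity)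
    have h9 : 0 ≤ C * kap G (r+1) p := mul_nonneg hCnn hkapnn
    unfold Gam
    linarith

/-- Penalised Motzkin-Straus. -/
theorem robust (r : ℕ) (hr : 2 ≤ r) (K e : ℝ) (he : 0 < e) :
    ∃ C : ℝ, 0 ≤ C ∧ ∀ (V : Type) [Fintype V] [DecidableEq V] (G : SimpleGraph V) (X p : V → ℝ),
      (∀ v, |X v| ≤ K) → (∀ v, 0 ≤ p v) → WW p ≤ 1 →
      Gam G X (2 * (1 - 1/(r:ℝ))) p ≤ e + C * kap G (r+1) p := by
  set d : ℝ := e / (4 * K^2 + 1) with hd
  have hd0 : 0 < d := by positivity
  refine ⟨2 * K^2 * ((r+1).factorial : ℝ) / d^(r+1), by positivity, ?_⟩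
  intro V _ _ G X p hX hp hW
  obtain ⟨p', h1, h2, h3, h4⟩ := reduce G X (2 * (1 - 1/(r:ℝ)))
    (2 * K^2 * ((r+1).factorial : ℝ) / d^(r+1)) (r+1) _ p hp le_rfl
  have h5 := clique_case G X p' h1 (h2 ▸ hW) K hX r hr h4 d _ hd0 le_rfl
  have h6 : 4 * K^2 * d ≤ e := by
    rw [hd, ← mul_div_assoc, div_le_iff₀ (by positivity)]
    nlinarith
  linarith

end Pool.Agent.Helper56.QCl
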