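import Pool.Agent.Helper56.QCl.Greedy

set_option autoImplicit false
set_option linter.unusedSectionVars false

open Finset BigOperators

namespace Pool.Agent.Helper56.QCl

variable {V : Type} [Fintype V] [DecidableEq V]

open Classical in
/-- j-cliques avoiding L -/
noncomputable def FF (G : SimpleGraph V) (L : Finset V) (j : ℕ) : Finset (Finset V) :=
  univ.filter (fun T : Finset V => G.IsNClique j T ∧ Disjoint T L)

theorem mem_FF (G : SimpleGraph V) (L : Finset V) (j : ℕ) (T : Finset V) :
    T ∈ FF G L j ↔ G.IsNClique j T ∧ Disjoint T L := by unfold FF; simp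

theorem FF_step (G : SimpleGraph V) (L : Finset V) (j m : ℕ)
    (h : ∀ Q ∈ FF G L j, m ≤ (ext G Lᶜ Q).card) :
    (FF G L j).card * m ≤ (FF G L (j+1)).card * (j+1) := by
  classical
  refine Finset.card_mul_le_card_mul (fun Q Q' : Finset V => Q ⊆ Q') ?_ ?_
  · intro Q hQ
    refine (h Q hQ).trans ?_
    refine Finset.card_le_card_of_injOn (fun w => insert w Q) ?_ ?_
    · intro w hw
      rw [Finset.mem_coe, mem_ext] at hw
      rw [mem_FF] at hQ
      rw [Finset.mem_coe, Finset.mem_bipartiteAbove, mem_FF]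
      refine ⟨⟨hQ.1.insert hw.2, ?_⟩, Finset.subset_insert _ _⟩
      rw [Finset.disjoint_insert_left]
      exact ⟨Finset.mem_compl.mp hw.1, hQ.2⟩
    · intro w hw w' hw' heq
      rw [Finset.mem_coe, mem_ext] at hw hw'
      simp only at heq
      have h1 : w ∉ Q := fun h => G.irrefl (hw.2 w h)
      have : w ∈ insert w' Q := heq ▸ Finset.mem_insert_self w Q
      rcases Finset.mem_insert.mp this with h | h
      · exact h
      · exact absurd h h1
  · intro Q' hQ'
    rw [mem_FF] at hQ'
    have : Finset.bipartiteBelow (fun Q Q' : Finset V => Q ⊆ Q') (FF G L j) Q' ⊆ Q'.powersetCard j := by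
      intro Q hQ
      rw [Finset.mem_bipartiteBelow, mem_FF] at hQ
      rw [Finset.mem_powersetCard]
      exact ⟨hQ.2, hQ.1.1.card_eq⟩
    refine (Finset.card_le_card this).trans ?_
    rw [Finset.card_powersetCard, hQ'.1.card_eq, Nat.choose_succ_self_right]

theorem FF_lower (G : SimpleGraph V) (L : Finset V) (k m : ℕ)
    (h : ∀ j < k, ∀ Q ∈ FF G L j, m ≤ (ext G Lᶜ Q).card) :
    ∀ j ≤ k, m ^ j ≤ j.factorial * (FF G L j).card := by
  intro j
  induction j with
  | zero =>
    intro _
    have : (∅ : Finset V) ∈ FF G L 0 := by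
      rw [mem_FF]; exact ⟨SimpleGraph.isNClique_zero.mpr rfl, by simp⟩
    have := Finset.card_pos.mpr ⟨_, this⟩
    simp only [pow_zero, Nat.factorial_zero, one_mul]
    exact this
  | succ j ih =>
    intro hj
    have ih' := ih (by omega)
    have h1 := FF_step G L j m (h j (by omega))
    calc m ^ (j+1) = m ^ j * m := pow_succ _ _
      _ ≤ (j.factorial * (FF G L j).card) * m := Nat.mul_le_mul_right _ ih'
      _ = j.factorial * ((FF G L j).card * m) := by ring
      _ ≤ j.factorial * ((FF G L (j+1)).card * (j+1)) := Nat.mul_le_mul_left _ h1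
      _ = (j+1).factorial * (FF G L (j+1)).card := by rw [Nat.factorial_succ]; ring

/-- existence of a k-clique avoiding L contained in no (k+1)-clique -/
theorem seed (G : SimpleGraph V) (L : Finset V) (k m : ℕ)
    (h : ∀ j < k, ∀ Q ∈ FF G L j, m ≤ (ext G Lᶜ Q).card)
    (hN : k.factorial * (cq G (k+1) * (k+1)) < m ^ k) :
    ∃ S : Finset V, G.IsNClique k S ∧ Disjoint S L ∧ ∀ w, ∃ u ∈ S, ¬ G.Adj u w := by
  classical
  have h1 := FF_lower G L k m h k le_rfl
  have h2 : cq G (k+1) * (k+1) < (FF G L k).card := by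
    by_contra hcon
    push Not at hcon
    have := Nat.mul_le_mul_left k.factorial hcon
    omega
  by_contra hno
  push Not at hno
  have h3 : (FF G L k).card ≤ ((univ.filter (fun T : Finset V => G.IsNClique (k+1) T)).biUnion
      (fun T => T.powersetCard k)).card := by
    refine Finset.card_le_card ?_
    intro S hS
    rw [mem_FF] at hS
    obtain ⟨w, hw⟩ := hno S hS.1 hS.2
    rw [Finset.mem_biUnion]
    refine ⟨insert w S, ?_, ?_⟩
    · simp only [Finset.mem_filter, Finset.mem_univ, true_and]
      exact hS.1.insert (fun b hb => (hw b hb).symm)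
    · rw [Finset.mem_powersetCard]
      exact ⟨Finset.subset_insert _ _, hS.1.card_eq⟩
  have h4 : ((univ.filter (fun T : Finset V => G.IsNClique (k+1) T)).biUnion
      (fun T => T.powersetCard k)).card ≤ cq G (k+1) * (k+1) := by
    unfold cq
    refine Finset.card_biUnion_le_card_mul _ _ _ ?_
    intro T hT
    simp only [Finset.mem_filter, Finset.mem_univ, true_and] at hT
    rw [Finset.card_powersetCard, hT.card_eq, Nat.choose_succ_self_right]
  omega

/-- number of extensions from degrees -/
theorem ext_lower (G : SimpleGraph V) (T Q : Finset V) :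
    (T.card : ℝ) - ∑ x ∈ Q, ((NA G x ∩ T).card : ℝ) ≤ ((ext G T Q).card : ℝ) := by
  classical
  have h1 : T ⊆ ext G T Q ∪ Q.biUnion (fun x => NA G x ∩ T) := by
    intro w hw
    by_cases h : ∀ x ∈ Q, G.Adj w x
    · exact Finset.mem_union_left _ ((mem_ext G T Q w).mpr ⟨hw, h⟩)
    · push Not at h
      obtain ⟨x, hx, hwx⟩ := h
      refine Finset.mem_union_right _ (Finset.mem_biUnion.mpr ⟨x, hx, ?_⟩)
      rw [Finset.mem_inter, mem_NA]
      exact ⟨fun h => hwx h.symm, hw⟩
  have h2 := (Finset.card_le_card h1).trans (Finset.card_union_le _ _)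
  have h3 : (Q.biUnion (fun x => NA G x ∩ T)).card ≤ ∑ x ∈ Q, (NA G x ∩ T).card :=
    Finset.card_biUnion_le
  have h4 : (T.card : ℝ) ≤ ((ext G T Q).card : ℝ) + ∑ x ∈ Q, ((NA G x ∩ T).card : ℝ) := by
    exact_mod_cast h2.trans (Nat.add_le_add_left h3 _)
  linarith

end Pool.Agent.Helper56.QCl
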