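import Pool.Agent.Helper56.QCl.Struct2

set_option autoImplicit false
set_option linter.unusedSectionVars false

open Finset BigOperators

namespace Pool.Agent.Helper56.QCl

variable {V : Type} [Fintype V] [DecidableEq V]

/-- colour class -/
def cl (col : V → V) (i : V) : Finset V := univ.filter (fun v => col v = i)

theorem mem_cl (col : V → V) (i v : V) : v ∈ cl col i ↔ col v = i := by unfold cl; simp

theorem full_sum (T : Finset V) (p X : V → ℝ) :
    ∑ a ∈ T, ∑ b ∈ T, p a * p b * (X a + X b)^2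
      = 2 * ((∑ v ∈ T, p v) * (∑ v ∈ T, p v * X v ^ 2)) + 2 * (∑ v ∈ T, p v * X v)^2 := by
  have e1 : (∑ v ∈ T, p v) * (∑ v ∈ T, p v * X v ^ 2) = ∑ a ∈ T, ∑ b ∈ T, p a * (p b * X b ^ 2) := by
    rw [Finset.sum_mul_sum]
  have e2 : (∑ v ∈ T, p v) * (∑ v ∈ T, p v * X v ^ 2) = ∑ a ∈ T, ∑ b ∈ T, (p a * X a ^ 2) * p b := by
    rw [mul_comm, Finset.sum_mul_sum]
  have e3 : (∑ v ∈ T, p v * X v)^2 = ∑ a ∈ T, ∑ b ∈ T, (p a * X a) * (p b * X b) := by
    rw [sq, Finset.sum_mul_sum]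
  rw [two_mul ((∑ v ∈ T, p v) * (∑ v ∈ T, p v * X v ^ 2))]
  nth_rewrite 1 [e1]
  rw [e2, e3, Finset.mul_sum, ← Finset.sum_add_distrib, ← Finset.sum_add_distrib]
  refine Finset.sum_congr rfl fun a _ => ?_
  rw [Finset.mul_sum, ← Finset.sum_add_distrib, ← Finset.sum_add_distrib]
  refine Finset.sum_congr rfl fun b _ => ?_
  ring

theorem fiber_sum (col : V → V) (S : Finset V) (hcol : ∀ v, col v ∈ S) (f : V → ℝ) :
    ∑ i ∈ S, ∑ v ∈ cl col i, f v = ∑ v, f v := by
  unfold cl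
  exact Finset.sum_fiberwise_of_maps_to (fun v _ => hcol v) f

theorem same_sum (col : V → V) (S : Finset V) (hcol : ∀ v, col v ∈ S) (f : V → V → ℝ) :
    ∑ a, ∑ b, (if col a = col b then f a b else 0) = ∑ i ∈ S, ∑ a ∈ cl col i, ∑ b ∈ cl col i, f a b := by
  rw [← fiber_sum col S hcol]
  refine Finset.sum_congr rfl fun i _ => Finset.sum_congr rfl fun a ha => ?_
  rw [mem_cl] at ha
  rw [← Finset.sum_filter]
  refine Finset.sum_congr ?_ fun _ _ => rfl
  ext b
  simp only [Finset.mem_filter, Finset.mem_univ, true_and, mem_cl, ha]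
  exact eq_comm

noncomputable def mono (G : SimpleGraph V) (X : V → ℝ) (col : V → V) (p : V → ℝ) : ℝ :=
  (1/2) * ∑ a, ∑ b, (if col a = col b then p a * p b * wt G X a b else 0)

noncomputable def miss (G : SimpleGraph V) (X : V → ℝ) (col : V → V) (p : V → ℝ) : ℝ :=
  (1/2) * ∑ a, ∑ b, (if col a = col b then 0 else p a * p b * ((1 - ad G a b) * (X a + X b)^2))

theorem slack (G : SimpleGraph V) (X : V → ℝ) (col : V → V) (S : Finset V) (k : ℕ)
    (hcol : ∀ v, col v ∈ S) (hS : S.card = k) (hk : 3 ≤ k) (p : V → ℝ) (W P s : ℝ)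
    (hW : W = ∑ v, p v) (hP : P = ∑ v, p v * X v ^ 2) (hs : s = ∑ v, p v * X v) :
    Gam G X (2 * (1 - 1/(k:ℝ))) p = mono G X col p - miss G X col p
      - (∑ i ∈ S, ((∑ v ∈ cl col i, p v) * (∑ v ∈ cl col i, p v * X v ^ 2) - (∑ v ∈ cl col i, p v * X v)^2)
        + 2 * ∑ i ∈ S, (∑ v ∈ cl col i, p v * X v - s / k)^2 + (1 - 2 / (k:ℝ)) * (W * P - s^2)) := by
  have h1 : EE G X p = (1/2) * ∑ a, ∑ b, p a * p b * (X a + X b)^2
      - (1/2) * ∑ a, ∑ b, (if col a = col b then p a * p b * (X a + X b)^2 else 0)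
      + mono G X col p - miss G X col p := by
    unfold EE mono miss
    rw [← mul_sub, ← mul_add, ← mul_sub]
    congr 1
    rw [← Finset.sum_sub_distrib, ← Finset.sum_add_distrib, ← Finset.sum_sub_distrib]
    refine Finset.sum_congr rfl fun a _ => ?_
    rw [← Finset.sum_sub_distrib, ← Finset.sum_add_distrib, ← Finset.sum_sub_distrib]
    refine Finset.sum_congr rfl fun b _ => ?_
    unfold wt
    split_ifs <;> ring
  have h2 := full_sum univ p X
  rw [← hW, ← hP, ← hs] at h2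
  rw [h2, same_sum col S hcol] at h1
  have h3 : ∑ i ∈ S, ∑ a ∈ cl col i, ∑ b ∈ cl col i, p a * p b * (X a + X b)^2 =
      2 * ∑ i ∈ S, ((∑ v ∈ cl col i, p v) * (∑ v ∈ cl col i, p v * X v ^ 2))
      + 2 * ∑ i ∈ S, (∑ v ∈ cl col i, p v * X v)^2 := by
    rw [Finset.mul_sum, Finset.mul_sum, ← Finset.sum_add_distrib]
    exact Finset.sum_congr rfl fun i _ => full_sum (cl col i) p X
  rw [h3] at h1
  have h4 : ∑ i ∈ S, (∑ v ∈ cl col i, p v * X v - s / k)^2 =
      ∑ i ∈ S, (∑ v ∈ cl col i, p v * X v)^2 - s^2 / k := by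
    have e1 : ∀ i ∈ S, (∑ v ∈ cl col i, p v * X v - s / k)^2 = (∑ v ∈ cl col i, p v * X v)^2
        - (2 * (s / k) * ∑ v ∈ cl col i, p v * X v - (s/k)^2) := fun i _ => by ring
    rw [Finset.sum_congr rfl e1, Finset.sum_sub_distrib, Finset.sum_sub_distrib, ← Finset.mul_sum,
      fiber_sum col S hcol, ← hs, Finset.sum_const, hS, nsmul_eq_mul]
    have hk0 : (k:ℝ) ≠ 0 := by
      have : (0:ℝ) < k := by exact_mod_cast (by omega : 0 < k)
      exact this.ne'
    field_simp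
    ring
  rw [h4, Finset.sum_sub_distrib]
  unfold Gam WW PP
  rw [h1, ← hW, ← hP]
  have hk0 : (k:ℝ) ≠ 0 := by
    have : (0:ℝ) < k := by exact_mod_cast (by omega : 0 < k)
    exact this.ne'
  field_simp
  ring

theorem slack_nonneg (X : V → ℝ) (p : V → ℝ) (hp : ∀ v, 0 ≤ p v) (T : Finset V) :
    0 ≤ (∑ v ∈ T, p v) * (∑ v ∈ T, p v * X v ^ 2) - (∑ v ∈ T, p v * X v)^2 := by
  have h4 : (∑ v ∈ T, p v * X v)^2 ≤ (∑ v ∈ T, p v) * (∑ v ∈ T, p v * X v ^ 2) := by
    refine Finset.sum_sq_le_sum_mul_sum_of_sq_le_mul T (fun i _ => hp i)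
      (fun i _ => mul_nonneg (hp i) (sq_nonneg _)) (fun i _ => le_of_eq ?_)
    ring
  linarith

theorem miss_nonneg (G : SimpleGraph V) (X : V → ℝ) (col : V → V) (p : V → ℝ)
    (hp : ∀ v, 0 ≤ p v) : 0 ≤ miss G X col p := by
  unfold miss
  refine mul_nonneg (by norm_num) (Finset.sum_nonneg fun a _ => Finset.sum_nonneg fun b _ => ?_)
  split_ifs
  · exact le_rfl
  · refine mul_nonneg (mul_nonneg (hp a) (hp b)) (mul_nonneg ?_ (sq_nonneg _))
    linarith [ad_le_one G a b]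

theorem Gam_le_mono (G : SimpleGraph V) (X : V → ℝ) (col : V → V) (S : Finset V) (k : ℕ)
    (hcol : ∀ v, col v ∈ S) (hS : S.card = k) (hk : 3 ≤ k) (p : V → ℝ) (hp : ∀ v, 0 ≤ p v) :
    Gam G X (2 * (1 - 1/(k:ℝ))) p ≤ mono G X col p := by
  rw [slack G X col S k hcol hS hk p _ _ _ rfl rfl rfl]
  have h1 := miss_nonneg G X col p hp
  have h2 : 0 ≤ ∑ i ∈ S, ((∑ v ∈ cl col i, p v) * (∑ v ∈ cl col i, p v * X v ^ 2) - (∑ v ∈ cl col i, p v * X v)^2) :=
    Finset.sum_nonneg fun i _ => slack_nonneg X p hp _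
  have h3 : 0 ≤ ∑ i ∈ S, (∑ v ∈ cl col i, p v * X v - (∑ v, p v * X v) / k)^2 :=
    Finset.sum_nonneg fun i _ => sq_nonneg _
  have h4 := slack_nonneg X p hp univ
  have h5 : 0 ≤ 1 - 2 / (k:ℝ) := by
    have h3 : (3:ℝ) ≤ k := by exact_mod_cast hk
    have : 2 / (k:ℝ) ≤ 1 := by rw [div_le_one (by linarith)]; linarith
    linarith
  have h6 := mul_nonneg h5 h4
  linarith

open Classical in
noncomputable def EM (G : SimpleGraph V) (L : Finset V) (col : V → V) : Finset (V × V) :=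
  univ.filter (fun x => x.1 ∉ L ∧ x.2 ∉ L ∧ G.Adj x.1 x.2 ∧ col x.1 = col x.2)

theorem mem_EM (G : SimpleGraph V) (L : Finset V) (col : V → V) (x : V × V) :
    x ∈ EM G L col ↔ x.1 ∉ L ∧ x.2 ∉ L ∧ G.Adj x.1 x.2 ∧ col x.1 = col x.2 := by
  unfold EM; simp

theorem card_EM (G : SimpleGraph V) (L : Finset V) (col : V → V)
    (huniq : ∀ a b a' b', a ∉ L → b ∉ L → a' ∉ L → b' ∉ L → G.Adj a b → G.Adj a' b' →
        col a = col b → col a' = col b' → ({a, b} : Finset V) = {a', b'}) :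
    (EM G L col).card ≤ 2 := by
  rcases (EM G L col).eq_empty_or_nonempty with h | ⟨⟨a, b⟩, hab⟩
  · rw [h]; simp
  · have hsub : EM G L col ⊆ {(a, b), (b, a)} := by
      rintro ⟨a', b'⟩ h'
      rw [mem_EM] at hab h'
      simp only at hab h'
      have := huniq a b a' b' hab.1 hab.2.1 h'.1 h'.2.1 hab.2.2.1 h'.2.2.1 hab.2.2.2 h'.2.2.2
      have ha' : a' ∈ ({a, b} : Finset V) := by rw [this]; simp
      have hb' : b' ∈ ({a, b} : Finset V) := by rw [this]; simp
      simp only [Finset.mem_insert, Finset.mem_singleton] at ha' hb' ⊢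
      have hne := h'.2.2.1.ne
      rcases ha' with rfl | rfl <;> rcases hb' with rfl | rfl
      · exact absurd rfl hne
      · left; rfl
      · right; rfl
      · exact absurd rfl hne
    exact (Finset.card_le_card hsub).trans Finset.card_le_two

noncomputable def pL (V : Type) [Fintype V] [DecidableEq V] (L : Finset V) : V → ℝ :=
  fun v => if v ∈ L then 0 else 1 / (Fintype.card V : ℝ)

theorem mono_le (G : SimpleGraph V) (X : V → ℝ) (col : V → V) (L : Finset V)
    (hw : ∀ a b, wt G X a b ≤ 144)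
    (huniq : ∀ a b a' b', a ∉ L → b ∉ L → a' ∉ L → b' ∉ L → G.Adj a b → G.Adj a' b' →
        col a = col b → col a' = col b' → ({a, b} : Finset V) = {a', b'}) :
    mono G X col (pL V L) ≤ 144 * (1 / (Fintype.card V : ℝ))^2 := by
  have h1 : ∑ a, ∑ b, (if col a = col b then pL V L a * pL V L b * wt G X a b else 0)
      ≤ ((EM G L col).card : ℝ) * (144 * (1 / (Fintype.card V : ℝ))^2) := by
    have e1 : ∑ a, ∑ b, (if col a = col b then pL V L a * pL V L b * wt G X a b else 0)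
        = ∑ x : V × V, (if col x.1 = col x.2 then pL V L x.1 * pL V L x.2 * wt G X x.1 x.2 else 0) := by
      rw [Fintype.sum_prod_type]
    rw [e1, ← Finset.sum_subset (Finset.subset_univ (EM G L col)), ← nsmul_eq_mul, ← Finset.sum_const]
    · refine Finset.sum_le_sum fun x hx => ?_
      rw [mem_EM] at hx
      rw [if_pos hx.2.2.2]
      unfold pL
      rw [if_neg hx.1, if_neg hx.2.1]
      have := mul_le_mul_of_nonneg_left (hw x.1 x.2) (by positivity : 0 ≤ (1 / (Fintype.card V : ℝ))^2)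
      calc _ = (1 / (Fintype.card V : ℝ))^2 * wt G X x.1 x.2 := by ring
        _ ≤ _ := this
        _ = _ := by ring
    · intro x _ hx
      rw [mem_EM] at hx
      unfold pL wt ad
      by_cases h1 : x.1 ∈ L
      · simp [h1]
      by_cases h2 : x.2 ∈ L
      · simp [h2]
      by_cases h3 : G.Adj x.1 x.2
      · have : ¬ col x.1 = col x.2 := fun h => hx ⟨h1, h2, h3, h⟩
        simp [this]
      · simp [h3]
  have h2 : ((EM G L col).card : ℝ) ≤ 2 := by exact_mod_cast card_EM G L col huniq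
  have h3 : ((EM G L col).card : ℝ) * (144 * (1 / (Fintype.card V : ℝ))^2) ≤
      2 * (144 * (1 / (Fintype.card V : ℝ))^2) := mul_le_mul_of_nonneg_right h2 (by positivity)
  unfold mono
  linarith

theorem pL_nonneg (L : Finset V) (v : V) : 0 ≤ pL V L v := by
  unfold pL; split_ifs <;> positivity

end Pool.Agent.Helper56.QCl
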