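import Pool.Agent.Helper56.QCl.Seed

set_option autoImplicit false
set_option linter.unusedSectionVars false

open Finset BigOperators

namespace Pool.Agent.Helper56.QCl

variable {V : Type} [Fintype V] [DecidableEq V]

structure Reg (G : SimpleGraph V) (L : Finset V) (k : ℕ) (n κ ε θ : ℝ) : Prop where
  hn : n = Fintype.card V
  hn0 : 0 < n
  hk : 3 ≤ k
  hκ : κ = 1 / k
  hθ : θ = κ^3 / 8
  hε : ε = θ^2 / 2
  H1 : ∀ u, u ∉ L → |((NN G u).card : ℝ) - (1-κ)*n| ≤ ε * n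
  H2 : ∀ u, u ∉ L → ∑ a ∈ NA G u \ L, ((NN G a ∩ (NA G u \ L)).card : ℝ) ≤ ε * n^2
  H3 : (L.card : ℝ) ≤ ε*n
  H4 : (cq G (k+1) : ℝ) < (n*κ)^(k-1)
  H5 : (2:ℝ)^k * ((k+1).factorial : ℝ) ≤ n * κ

section
variable {G : SimpleGraph V} {L : Finset V} {k : ℕ} {n κ ε θ : ℝ}

theorem Reg.kk (R : Reg G L k n κ ε θ) : (3:ℝ) ≤ k ∧ (k:ℝ) * κ = 1 ∧ 0 < κ ∧ κ ≤ 1/3 := by
  have h3 : (3:ℝ) ≤ k := by exact_mod_cast R.hk
  refine ⟨h3, ?_, ?_, ?_⟩
  · rw [R.hκ, mul_one_div_cancel (by linarith)]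
  · rw [R.hκ]; positivity
  · rw [R.hκ]; exact one_div_le_one_div_of_le (by norm_num) h3

theorem Reg.consts (R : Reg G L k n κ ε θ) : 0 < θ ∧ 0 < ε ∧ θ ≤ 1/216 ∧ ε ≤ θ / 400 ∧
    4 * ε ≤ κ ∧ (k:ℝ) * ε ≤ κ / 2 ∧ 10 * (k:ℝ)^2 * ε ≤ θ ∧ ε = θ * (θ/2) := by
  obtain ⟨h1, h2, h3, h4⟩ := R.kk
  have hθ := R.hθ
  have hε := R.hε
  have t0 : 0 < θ := by rw [hθ]; positivity
  have e0 : 0 < ε := by rw [hε]; positivity
  have hk3 : κ^3 ≤ 1/27 := by
    calc κ^3 ≤ (1/3)^3 := pow_le_pow_left₀ h3.le h4 3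
      _ = 1/27 := by norm_num
  have t1 : θ ≤ 1/216 := by rw [hθ]; linarith
  have e1 : ε = θ * (θ/2) := by rw [hε]; ring
  have e2 : ε ≤ θ / 400 := by rw [e1]; nlinarith
  have tk : θ ≤ κ / 8 := by
    rw [hθ]
    have : κ^3 ≤ κ := by nlinarith [mul_nonneg h3.le h3.le, sq_nonneg κ]
    linarith
  have kt : (k:ℝ)^3 * θ = 1/8 := by
    have : (k:ℝ)^3 * κ^3 = 1 := by rw [← mul_pow, h2, one_pow]
    rw [hθ]; linarith
  refine ⟨t0, e0, t1, e2, by linarith, ?_, ?_, e1⟩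
  · -- k ε = k θ θ/2
    have hk3t : (k:ℝ) * θ ≤ 1/8 := by
      have : (k:ℝ) * θ ≤ (k:ℝ)^3 * θ := by
        refine mul_le_mul_of_nonneg_right ?_ t0.le
        nlinarith [mul_self_nonneg ((k:ℝ))]
      linarith
    have : (k:ℝ) * ε = ((k:ℝ) * θ) * (θ/2) := by rw [e1]; ring
    rw [this]
    have h5 : ((k:ℝ) * θ) * (θ/2) ≤ (1/8) * (θ/2) := mul_le_mul_of_nonneg_right hk3t (by linarith)
    linarith
  · have : 10 * (k:ℝ)^2 * ε = (5 * ((k:ℝ)^2 * θ)) * θ := by rw [e1]; ring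
    rw [this]
    have h5 : (k:ℝ)^2 * θ ≤ 1/24 := by
      have : 3 * ((k:ℝ)^2 * θ) ≤ (k:ℝ)^3 * θ := by
        have : (k:ℝ)^3 * θ = k * ((k:ℝ)^2 * θ) := by ring
        rw [this]
        exact mul_le_mul_of_nonneg_right h1 (by positivity)
      linarith
    have h6 : (5 * ((k:ℝ)^2 * θ)) * θ ≤ 1 * θ := mul_le_mul_of_nonneg_right (by linarith) t0.le
    linarith

theorem Reg.A_card (R : Reg G L k n κ ε θ) (u : V) (hu : u ∉ L) :
    ((NA G u).card : ℝ) ≤ (κ + ε) * n ∧ (κ - ε) * n ≤ ((NA G u).card : ℝ) := by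
  have h1 := abs_le.mp (R.H1 u hu)
  have h2 : ((NA G u).card : ℝ) + ((NN G u).card : ℝ) = n := by
    rw [R.hn]; exact_mod_cast card_NA_add G u
  constructor <;> nlinarith

theorem Reg.W_card (R : Reg G L k n κ ε θ) (u : V) (hu : u ∉ L) :
    (κ - 2 * ε) * n ≤ ((NA G u \ L).card : ℝ) := by
  have h1 := (R.A_card u hu).2
  have h2 := R.H3
  have h3 : ((NA G u).card : ℝ) ≤ ((NA G u \ L).card : ℝ) + (L.card : ℝ) := by
    have : (NA G u).card ≤ (NA G u \ L).card + L.card :=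
      Finset.card_le_card_sdiff_add_card (s := NA G u) (t := L)
    exact_mod_cast this
  nlinarith

theorem Reg.getSeed (R : Reg G L k n κ ε θ) :
    ∃ S : Finset V, G.IsNClique k S ∧ Disjoint S L ∧ ∀ w, ∃ u ∈ S, ¬ G.Adj u w := by
  obtain ⟨h1, h2, h3, h4⟩ := R.kk
  obtain ⟨c1, c2, c3, c4, c5, c6, c7, c8⟩ := R.consts
  have hn0 := R.hn0
  refine seed G L k ⌈n * κ / 2⌉₊ ?_ ?_
  · intro j hj Q hQ
    refine Nat.ceil_le.mpr ?_
    refine le_trans ?_ (ext_lower G Lᶜ Q)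
    rw [mem_FF] at hQ
    have e1 : (Lᶜ.card : ℝ) = n - L.card := by
      rw [Finset.card_compl, Nat.cast_sub (Finset.card_le_univ _), ← R.hn]
    have e2 : ∑ x ∈ Q, ((NA G x ∩ Lᶜ).card : ℝ) ≤ (j:ℝ) * ((κ + ε) * n) := by
      rw [← hQ.1.card_eq, ← nsmul_eq_mul, ← Finset.sum_const]
      refine Finset.sum_le_sum fun x hx => ?_
      have hxL : x ∉ L := Finset.disjoint_left.mp hQ.2 hx
      refine le_trans ?_ (R.A_card x hxL).1
      exact_mod_cast Finset.card_le_card Finset.inter_subset_left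
    have e3 : (j:ℝ) + 1 ≤ k := by exact_mod_cast hj
    have e4 := R.H3
    have e5 : (j:ℝ) * ((κ + ε) * n) ≤ ((k:ℝ) - 1) * ((κ + ε) * n) :=
      mul_le_mul_of_nonneg_right (by linarith) (by positivity)
    have e6 : ((k:ℝ) - 1) * ((κ + ε) * n) = ((k:ℝ) * κ) * n + (k:ℝ) * ε * n - κ * n - ε * n := by ring
    rw [h2] at e6
    have e7 : (k:ℝ) * ε * n ≤ κ / 2 * n := mul_le_mul_of_nonneg_right c6 hn0.le
    rw [e1]
    linarith
  · have hm : n * κ / 2 ≤ (⌈n * κ / 2⌉₊ : ℝ) := Nat.le_ceil _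
    have hnk : 0 < n * κ := by positivity
    have h5 : ((k.factorial * (cq G (k+1) * (k+1)) : ℕ) : ℝ) < ((⌈n * κ / 2⌉₊ ^ k : ℕ) : ℝ) := by
      push_cast
      calc (k.factorial : ℝ) * ((cq G (k+1) : ℝ) * ((k:ℝ)+1))
          = ((k+1).factorial : ℝ) * (cq G (k+1) : ℝ) := by
            rw [Nat.factorial_succ]; push_cast; ring
        _ < ((k+1).factorial : ℝ) * (n*κ)^(k-1) := by
            refine mul_lt_mul_of_pos_left R.H4 ?_
            positivity
        _ ≤ (n * κ / 2)^k := by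
            have e1 : (n * κ / 2)^k = (n*κ)^(k-1) * (n * κ) / 2^k := by
              rw [div_pow]
              congr 1
              rw [← pow_succ]
              congr 1
              have := R.hk
              omega
            rw [e1, le_div_iff₀ (by positivity)]
            have e2 := mul_le_mul_of_nonneg_left R.H5 (by positivity : 0 ≤ (n*κ)^(k-1))
            linarith
        _ ≤ (⌈n * κ / 2⌉₊ : ℝ)^k := pow_le_pow_left₀ (by positivity) hm k
    exact_mod_cast h5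

theorem inter_add (G : SimpleGraph V) (a : V) (W : Finset V) :
    ((NA G a ∩ W).card : ℝ) + ((NN G a ∩ W).card : ℝ) = (W.card : ℝ) := by
  classical
  have : (NA G a ∩ W).card + (NN G a ∩ W).card = W.card := by
    rw [← Finset.card_union_of_disjoint]
    · congr 1
      ext x
      simp only [Finset.mem_union, Finset.mem_inter, mem_NA, mem_NN]
      tauto
    · rw [Finset.disjoint_left]
      intro x hx hx'
      rw [Finset.mem_inter, mem_NA] at hx
      rw [Finset.mem_inter, mem_NN] at hx'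
      exact hx.1 hx'.1
  exact_mod_cast this

theorem Reg.miss (R : Reg G L k n κ ε θ) (u a : V) (hu : u ∉ L) (ha : a ∉ L) :
    ((NA G a \ (NA G u \ L)).card : ℝ) ≤ 3 * ε * n + ((NN G a ∩ (NA G u \ L)).card : ℝ) := by
  have h1 := inter_add G a (NA G u \ L)
  have h2 := R.W_card u hu
  have h3 := (R.A_card a ha).1
  have h4 : ((NA G a \ (NA G u \ L)).card : ℝ) + ((NA G a ∩ (NA G u \ L)).card : ℝ) = ((NA G a).card : ℝ) := by
    exact_mod_cast Finset.card_sdiff_add_card_inter (NA G a) (NA G u \ L)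
  nlinarith

theorem Reg.miss_sum (R : Reg G L k n κ ε θ) (u : V) (hu : u ∉ L) :
    ∑ a ∈ NA G u \ L, ((NA G a \ (NA G u \ L)).card : ℝ) ≤ 4 * ε * n^2 := by
  have h0 := R.H2 u hu
  obtain ⟨c1, c2, c3, c4, c5, c6, c7, c8⟩ := R.consts
  have hn0 := R.hn0
  calc ∑ a ∈ NA G u \ L, ((NA G a \ (NA G u \ L)).card : ℝ)
      ≤ ∑ a ∈ NA G u \ L, (3 * ε * n + ((NN G a ∩ (NA G u \ L)).card : ℝ)) := by
        refine Finset.sum_le_sum fun a ha => R.miss u a hu (Finset.mem_sdiff.mp ha).2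
    _ = ((NA G u \ L).card : ℝ) * (3 * ε * n) + ∑ a ∈ NA G u \ L, ((NN G a ∩ (NA G u \ L)).card : ℝ) := by
        rw [Finset.sum_add_distrib, Finset.sum_const, nsmul_eq_mul]
    _ ≤ n * (3 * ε * n) + ε * n^2 := by
        refine add_le_add (mul_le_mul_of_nonneg_right ?_ (by positivity)) h0
        rw [R.hn]; exact_mod_cast Finset.card_le_univ _
    _ = 4 * ε * n^2 := by ring

theorem Reg.idx (R : Reg G L k n κ ε θ) (S : Finset V) (hS : G.IsNClique k S) (hSL : Disjoint S L)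
    (hcov : ∀ w, ∃ u ∈ S, ¬ G.Adj u w) (w : V) (hw : w ∉ L) :
    ∃ u ∈ S, (((NA G w \ L) \ NA G u).card : ℝ) ≤ θ * n := by
  obtain ⟨h1, h2, h3, h4⟩ := R.kk
  obtain ⟨c1, c2, c3, c4, c5, c6, c7, c8⟩ := R.consts
  have hn0 := R.hn0
  have hSne : S.Nonempty := by
    rw [← Finset.card_pos, hS.card_eq]; have := R.hk; omega
  obtain ⟨u, hu, hmax⟩ := Finset.exists_max_image S (fun u => ((NA G w \ L) ∩ NA G u).card) hSne
  have huL : u ∉ L := Finset.disjoint_left.mp hSL hu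
  refine ⟨u, hu, ?_⟩
  have hW := R.W_card w hw
  have hb : ((NA G w \ L).card : ℝ) ≤ k * (((NA G w \ L) ∩ NA G u).card : ℝ) := by
    have e1 : (NA G w \ L) ⊆ S.biUnion (fun u => (NA G w \ L) ∩ NA G u) := by
      intro x hx
      obtain ⟨v, hv, hvx⟩ := hcov x
      rw [Finset.mem_biUnion]
      exact ⟨v, hv, Finset.mem_inter.mpr ⟨hx, (mem_NA G v x).mpr hvx⟩⟩
    have e2 := (Finset.card_le_card e1).trans (Finset.card_biUnion_le_card_mul S _ _ hmax)
    rw [hS.card_eq] at e2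
    exact_mod_cast e2
  set Z := (NA G w \ L) ∩ NA G u with hZ
  set Y := (NA G w \ L) \ NA G u with hY
  have hprod : (Z.card : ℝ) * (Y.card : ℝ) ≤ 5 * ε * n^2 := by
    have e1 : ∀ a ∈ Z, (Y.card : ℝ) ≤ ((NN G a ∩ (NA G w \ L)).card : ℝ)
        + ((NA G a \ (NA G u \ L)).card : ℝ) := by
      intro a _
      have : Y ⊆ (NN G a ∩ (NA G w \ L)) ∪ (NA G a \ (NA G u \ L)) := by
        intro b hb
        rw [hY, Finset.mem_sdiff] at hb
        rw [Finset.mem_union]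
        by_cases hab : G.Adj a b
        · exact Or.inl (Finset.mem_inter.mpr ⟨(mem_NN G a b).mpr hab, hb.1⟩)
        · exact Or.inr (Finset.mem_sdiff.mpr ⟨(mem_NA G a b).mpr hab,
            fun h => hb.2 (Finset.mem_sdiff.mp h).1⟩)
      exact_mod_cast (Finset.card_le_card this).trans (Finset.card_union_le _ _)
    calc (Z.card : ℝ) * (Y.card : ℝ) = ∑ a ∈ Z, (Y.card : ℝ) := by
          rw [Finset.sum_const, nsmul_eq_mul]
      _ ≤ ∑ a ∈ Z, (((NN G a ∩ (NA G w \ L)).card : ℝ) + ((NA G a \ (NA G u \ L)).card : ℝ)) :=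
          Finset.sum_le_sum e1
      _ = ∑ a ∈ Z, ((NN G a ∩ (NA G w \ L)).card : ℝ) + ∑ a ∈ Z, ((NA G a \ (NA G u \ L)).card : ℝ) :=
          Finset.sum_add_distrib
      _ ≤ ∑ a ∈ NA G w \ L, ((NN G a ∩ (NA G w \ L)).card : ℝ)
          + ∑ a ∈ NA G u \ L, ((NA G a \ (NA G u \ L)).card : ℝ) := by
          refine add_le_add ?_ ?_
          · exact Finset.sum_le_sum_of_subset_of_nonneg Finset.inter_subset_left
              (fun _ _ _ => Nat.cast_nonneg _)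
          · refine Finset.sum_le_sum_of_subset_of_nonneg ?_ (fun _ _ _ => Nat.cast_nonneg _)
            intro x hx
            rw [hZ, Finset.mem_inter, Finset.mem_sdiff] at hx
            exact Finset.mem_sdiff.mpr ⟨hx.2, hx.1.2⟩
      _ ≤ ε * n^2 + 4 * ε * n^2 := add_le_add (R.H2 w hw) (R.miss_sum u huL)
      _ = 5 * ε * n^2 := by ring
  -- k * Z ≥ κ n / 2
  have e3 : κ * n / 2 ≤ k * (Z.card : ℝ) := by nlinarith
  have hYn : 0 ≤ (Y.card : ℝ) := Nat.cast_nonneg _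
  have e4 : κ * n / 2 * (Y.card : ℝ) ≤ k * (5 * ε * n^2) := by
    calc κ * n / 2 * (Y.card : ℝ) ≤ k * (Z.card : ℝ) * (Y.card : ℝ) := mul_le_mul_of_nonneg_right e3 hYn
      _ = k * ((Z.card : ℝ) * (Y.card : ℝ)) := by ring
      _ ≤ _ := mul_le_mul_of_nonneg_left hprod (by linarith)
  have e5 : n * (Y.card : ℝ) ≤ n * (10 * (k:ℝ)^2 * ε * n) := by
    have := mul_le_mul_of_nonneg_left e4 (by linarith : 0 ≤ 2 * (k:ℝ))
    have e6 : 2 * (k:ℝ) * (κ * n / 2 * (Y.card : ℝ)) = ((k:ℝ) * κ) * (n * (Y.card : ℝ)) := by ring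
    rw [e6, h2, one_mul] at this
    calc _ ≤ _ := this
      _ = _ := by ring
  have e6 : (Y.card : ℝ) ≤ 10 * (k:ℝ)^2 * ε * n := le_of_mul_le_mul_left e5 hn0
  exact e6.trans (mul_le_mul_of_nonneg_right c7 hn0.le)

theorem Reg.overlap (R : Reg G L k n κ ε θ) (S : Finset V) (hS : G.IsNClique k S)
    (hSL : Disjoint S L) (hcov : ∀ w, ∃ u ∈ S, ¬ G.Adj u w) (u v : V) (hu : u ∈ S) (hv : v ∈ S)
    (huv : u ≠ v) : ((NA G u ∩ NA G v).card : ℝ) ≤ k * ε * n := by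
  obtain ⟨h1, h2, h3, h4⟩ := R.kk
  have hn0 := R.hn0
  have hvS : v ∈ S.erase u := Finset.mem_erase.mpr ⟨huv.symm, hv⟩
  have e1 : (univ : Finset V) ⊆ (NA G u ∪ NA G v) ∪ ((S.erase u).erase v).biUnion (NA G) := by
    intro x _
    obtain ⟨w, hw, hwx⟩ := hcov x
    by_cases hwu : w = u
    · subst hwu; simp [mem_NA, hwx]
    by_cases hwv : w = v
    · subst hwv; simp [mem_NA, hwx]
    · refine Finset.mem_union_right _ (Finset.mem_biUnion.mpr ⟨w, ?_, (mem_NA G w x).mpr hwx⟩)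
      exact Finset.mem_erase.mpr ⟨hwv, Finset.mem_erase.mpr ⟨hwu, hw⟩⟩
  have e2 : (Fintype.card V : ℝ) ≤ ((NA G u ∪ NA G v).card : ℝ)
      + ∑ x ∈ (S.erase u).erase v, ((NA G x).card : ℝ) := by
    have := (Finset.card_le_card e1).trans ((Finset.card_union_le _ _).trans
      (Nat.add_le_add_left Finset.card_biUnion_le _))
    rw [Finset.card_univ] at this
    exact_mod_cast this
  have e3 : ((NA G u ∪ NA G v).card : ℝ) + ((NA G u ∩ NA G v).card : ℝ)
      = ((NA G u).card : ℝ) + ((NA G v).card : ℝ) := by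
    exact_mod_cast Finset.card_union_add_card_inter (NA G u) (NA G v)
  have e4 : ∑ x ∈ S, ((NA G x).card : ℝ) = ((NA G u).card : ℝ) + (((NA G v).card : ℝ)
      + ∑ x ∈ (S.erase u).erase v, ((NA G x).card : ℝ)) := by
    rw [← Finset.add_sum_erase S _ hu, ← Finset.add_sum_erase (S.erase u) _ hvS]
  have e5 : ∑ x ∈ S, ((NA G x).card : ℝ) ≤ k * ((κ + ε) * n) := by
    rw [← hS.card_eq, ← nsmul_eq_mul, ← Finset.sum_const]
    refine Finset.sum_le_sum fun x hx => ?_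
    exact (R.A_card x (Finset.disjoint_left.mp hSL hx)).1
  have e6 : (k:ℝ) * ((κ + ε) * n) = ((k:ℝ) * κ) * n + k * ε * n := by ring
  rw [h2] at e6
  rw [← R.hn] at e2
  linarith

open Classical in
noncomputable def TT (G : SimpleGraph V) (L S : Finset V) (t : ℝ) (u : V) : Finset V :=
  ((NA G u \ L).filter (fun v => ((NN G v ∩ (NA G u \ L)).card : ℝ) ≤ t)) \ (S.erase u).biUnion (NA G)

theorem mem_TT (G : SimpleGraph V) (L S : Finset V) (t : ℝ) (u v : V) :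
    v ∈ TT G L S t u ↔ (¬ G.Adj u v ∧ v ∉ L) ∧ ((NN G v ∩ (NA G u \ L)).card : ℝ) ≤ t ∧
      ∀ w ∈ S, w ≠ u → G.Adj w v := by
  classical
  unfold TT
  rw [Finset.mem_sdiff, Finset.mem_filter, Finset.mem_sdiff, mem_NA, Finset.mem_biUnion]
  constructor
  · rintro ⟨⟨h1, h2⟩, h3⟩
    refine ⟨h1, h2, fun w hw hwu => ?_⟩
    by_contra hcon
    exact h3 ⟨w, Finset.mem_erase.mpr ⟨hwu, hw⟩, (mem_NA G w v).mpr hcon⟩
  · rintro ⟨h1, h2, h3⟩
    refine ⟨⟨h1, h2⟩, ?_⟩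
    rintro ⟨w, hw, hwv⟩
    rw [Finset.mem_erase] at hw
    rw [mem_NA] at hwv
    exact hwv (h3 w hw.2 hw.1)

theorem Reg.TT_card (R : Reg G L k n κ ε θ) (S : Finset V) (hS : G.IsNClique k S)
    (hSL : Disjoint S L) (hcov : ∀ w, ∃ u ∈ S, ¬ G.Adj u w) (u : V) (hu : u ∈ S) :
    (κ - 2 * θ) * n ≤ ((TT G L S (θ * n) u).card : ℝ) := by
  classical
  obtain ⟨h1, h2, h3, h4⟩ := R.kk
  obtain ⟨c1, c2, c3, c4, c5, c6, c7, c8⟩ := R.consts
  have hn0 := R.hn0
  have huL : u ∉ L := Finset.disjoint_left.mp hSL hu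
  set W := NA G u \ L with hW
  set bad := W.filter (fun v => θ * n < ((NN G v ∩ W).card : ℝ)) with hbad
  have hsub : W ⊆ TT G L S (θ * n) u ∪ (bad ∪ (S.erase u).biUnion (fun w => NA G u ∩ NA G w)) := by
    intro v hv
    have hv' := hv
    rw [hW, Finset.mem_sdiff, mem_NA] at hv'
    by_cases hb : θ * n < ((NN G v ∩ W).card : ℝ)
    · refine Finset.mem_union_right _ (Finset.mem_union_left _ ?_)
      rw [hbad, Finset.mem_filter]; exact ⟨hv, hb⟩
    · push Not at hb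
      by_cases hc : ∀ w ∈ S, w ≠ u → G.Adj w v
      · refine Finset.mem_union_left _ ((mem_TT G L S (θ*n) u v).mpr ⟨hv', ?_, hc⟩)
        rw [← hW]; exact hb
      · push Not at hc
        obtain ⟨w, hw, hwu, hwv⟩ := hc
        refine Finset.mem_union_right _ (Finset.mem_union_right _ (Finset.mem_biUnion.mpr ⟨w, ?_, ?_⟩))
        · exact Finset.mem_erase.mpr ⟨hwu, hw⟩
        · rw [Finset.mem_inter, mem_NA, mem_NA]; exact ⟨hv'.1, hwv⟩
  have e1 : (W.card : ℝ) ≤ ((TT G L S (θ * n) u).card : ℝ) + ((bad.card : ℝ)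
      + ∑ w ∈ S.erase u, ((NA G u ∩ NA G w).card : ℝ)) := by
    have := (Finset.card_le_card hsub).trans ((Finset.card_union_le _ _).trans
      (Nat.add_le_add_left ((Finset.card_union_le _ _).trans
      (Nat.add_le_add_left Finset.card_biUnion_le _)) _))
    exact_mod_cast this
  have e2 : ∑ w ∈ S.erase u, ((NA G u ∩ NA G w).card : ℝ) ≤ k * (k * ε * n) := by
    calc ∑ w ∈ S.erase u, ((NA G u ∩ NA G w).card : ℝ) ≤ ∑ w ∈ S.erase u, (k * ε * n) := by
          refine Finset.sum_le_sum fun w hw => ?_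
          rw [Finset.mem_erase] at hw
          exact R.overlap S hS hSL hcov u w hu hw.2 hw.1.symm
      _ = ((S.erase u).card : ℝ) * (k * ε * n) := by rw [Finset.sum_const, nsmul_eq_mul]
      _ ≤ k * (k * ε * n) := by
          refine mul_le_mul_of_nonneg_right ?_ (by positivity)
          have : (S.erase u).card ≤ k := by
            rw [← hS.card_eq]; exact Finset.card_le_card (Finset.erase_subset _ _)
          exact_mod_cast this
  have e3 : (bad.card : ℝ) * (θ * n) ≤ ε * n^2 := by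
    calc (bad.card : ℝ) * (θ * n) = ∑ v ∈ bad, (θ * n) := by rw [Finset.sum_const, nsmul_eq_mul]
      _ ≤ ∑ v ∈ bad, ((NN G v ∩ W).card : ℝ) := by
          refine Finset.sum_le_sum fun v hv => ?_
          rw [hbad, Finset.mem_filter] at hv
          exact hv.2.le
      _ ≤ ∑ v ∈ W, ((NN G v ∩ W).card : ℝ) :=
          Finset.sum_le_sum_of_subset_of_nonneg (Finset.filter_subset _ _)
            (fun _ _ _ => Nat.cast_nonneg _)
      _ ≤ ε * n^2 := R.H2 u huL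
  have e4 : (bad.card : ℝ) ≤ θ / 2 * n := by
    have h5 : (θ * n) * (bad.card : ℝ) ≤ (θ * n) * (θ / 2 * n) := by
      calc _ = (bad.card : ℝ) * (θ * n) := by ring
        _ ≤ ε * n^2 := e3
        _ = _ := by rw [c8]; ring
    exact le_of_mul_le_mul_left h5 (by positivity)
  have e5 := R.W_card u huL
  rw [← hW] at e5
  have e6 : (k:ℝ) * (k * ε * n) ≤ θ / 10 * n := by
    have : (k:ℝ) * (k * ε * n) = (10 * (k:ℝ)^2 * ε) / 10 * n := by ring
    rw [this]
    exact mul_le_mul_of_nonneg_right (by linarith) hn0.le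
  have e7 : ε * n ≤ θ / 400 * n := mul_le_mul_of_nonneg_right c4 hn0.le
  have e8 : 0 ≤ θ * n := by positivity
  linarith

end

end Pool.Agent.Helper56.QCl
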