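import Pool.Agent.Helper56.QCl.Struct

set_option autoImplicit false
set_option linter.unusedSectionVars false

open Finset BigOperators

namespace Pool.Agent.Helper56.QCl

variable {V : Type} [Fintype V] [DecidableEq V]

theorem sum_insert_le' (f : V → ℝ) (hf : ∀ v, 0 ≤ f v) (a : V) (s : Finset V) :
    ∑ x ∈ insert a s, f x ≤ f a + ∑ x ∈ s, f x := by
  by_cases h : a ∈ s
  · rw [Finset.insert_eq_of_mem h]; linarith [hf a]
  · rw [Finset.sum_insert h]

section
variable {G : SimpleGraph V} {L : Finset V} {k : ℕ} {n κ ε θ : ℝ}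

theorem Reg.mono_count (R : Reg G L k n κ ε θ) (S : Finset V) (hS : G.IsNClique k S)
    (hSL : Disjoint S L) (hcov : ∀ w, ∃ u ∈ S, ¬ G.Adj u w) (u : V) (hu : u ∈ S) (a b : V)
    (hab : G.Adj a b)
    (ha : (((NA G a \ L) \ NA G u).card : ℝ) ≤ θ * n)
    (hb : (((NA G b \ L) \ NA G u).card : ℝ) ≤ θ * n) (hpos : 0 ≤ (κ - 2 * k * θ) * n) :
    ((κ - 2 * k * θ) * n)^(k-1) ≤ ((cqe G (k+1) a b).card : ℝ) := by
  classical
  obtain ⟨h1, h2, h3, h4⟩ := R.kk
  obtain ⟨c1, c2, c3, c4, c5, c6, c7, c8⟩ := R.consts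
  have hn0 := R.hn0
  have hk := R.hk
  have hIc : (S.erase u).card = k - 1 := by rw [Finset.card_erase_of_mem hu, hS.card_eq]
  have hmain := greedy_count G (fun r => TT G L S (θ * n) r \ {a, b}) (S.erase u) a b hab ?_ ?_
    ((κ - 2 * k * θ) * n) hpos ?_
  · rw [hIc] at hmain
    have : k - 1 + 2 = k + 1 := by omega
    rwa [this] at hmain
  · intro r hr r' hr' hrr'
    rw [Finset.disjoint_left]
    intro v hv hv'
    rw [Finset.mem_sdiff, mem_TT] at hv hv'
    exact hv.1.1.1 (hv'.1.2.2 r (Finset.mem_of_mem_erase hr) hrr')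
  · intro r _
    constructor <;> simp
  · intro r hr R' hR' hrR' Q hQ hQc
    have hrS := Finset.mem_of_mem_erase hr
    have hru := Finset.ne_of_mem_erase hr
    have e0 : ext G (TT G L S (θ * n) r) (insert a (insert b Q)) ⊆
        ext G (TT G L S (θ * n) r \ {a, b}) (insert a (insert b Q)) := by
      intro w hw
      rw [mem_ext] at hw ⊢
      refine ⟨?_, hw.2⟩
      rw [Finset.mem_sdiff]
      refine ⟨hw.1, ?_⟩
      intro h
      rw [Finset.mem_insert, Finset.mem_singleton] at h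
      rcases h with rfl | rfl
      · exact G.irrefl (hw.2 w (by simp))
      · exact G.irrefl (hw.2 w (by simp))
    have e0' : ((ext G (TT G L S (θ * n) r) (insert a (insert b Q))).card : ℝ) ≤
        ((ext G (TT G L S (θ * n) r \ {a, b}) (insert a (insert b Q))).card : ℝ) := by
      exact_mod_cast Finset.card_le_card e0
    refine le_trans ?_ e0'
    refine le_trans ?_ (ext_lower G _ _)
    have e1 := R.TT_card S hS hSL hcov r hrS
    have key : ∀ x, (((NA G x \ L) \ NA G u).card : ℝ) ≤ θ * n →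
        ((NA G x ∩ TT G L S (θ * n) r).card : ℝ) ≤ θ * n := by
      intro x hx
      refine le_trans ?_ hx
      have : NA G x ∩ TT G L S (θ * n) r ⊆ (NA G x \ L) \ NA G u := by
        intro v hv
        rw [Finset.mem_inter, mem_TT] at hv
        rw [Finset.mem_sdiff, Finset.mem_sdiff, mem_NA G u]
        exact ⟨⟨hv.1, hv.2.1.2⟩, fun h => h (hv.2.2.2 u hu hru.symm)⟩
      exact_mod_cast Finset.card_le_card this
    have e2 : ∑ x ∈ insert a (insert b Q), ((NA G x ∩ TT G L S (θ * n) r).card : ℝ)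
        ≤ θ * n + (θ * n + ∑ x ∈ Q, ((NA G x ∩ TT G L S (θ * n) r).card : ℝ)) := by
      refine (sum_insert_le' _ (fun _ => Nat.cast_nonneg _) a _).trans ?_
      refine add_le_add (key a ha) ?_
      refine (sum_insert_le' _ (fun _ => Nat.cast_nonneg _) b _).trans ?_
      exact add_le_add (key b hb) le_rfl
    have e3 : ∑ x ∈ Q, ((NA G x ∩ TT G L S (θ * n) r).card : ℝ) ≤ ((k:ℝ) - 2) * (2 * θ * n) := by
      have e4 : ∀ x ∈ Q, ((NA G x ∩ TT G L S (θ * n) r).card : ℝ) ≤ 2 * θ * n := by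
        intro x hx
        obtain ⟨r', hr', hxr'⟩ := Finset.mem_biUnion.mp (hQ hx)
        have hr'S := Finset.mem_of_mem_erase (hR' hr')
        have hrr' : r' ≠ r := fun h => hrR' (h ▸ hr')
        rw [Finset.mem_sdiff, mem_TT] at hxr'
        have e5 : NA G x ∩ TT G L S (θ * n) r ⊆ NA G x \ (NA G r' \ L) := by
          intro v hv
          rw [Finset.mem_inter, mem_TT] at hv
          rw [Finset.mem_sdiff]
          refine ⟨hv.1, fun h => ?_⟩
          rw [Finset.mem_sdiff, mem_NA] at h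
          exact h.1 (hv.2.2.2 r' hr'S hrr')
        have e6 := R.miss r' x (Finset.disjoint_left.mp hSL hr'S) hxr'.1.1.2
        have e7 : ((NA G x ∩ TT G L S (θ * n) r).card : ℝ) ≤ ((NA G x \ (NA G r' \ L)).card : ℝ) := by
          exact_mod_cast Finset.card_le_card e5
        have e8 : ε * n ≤ θ / 400 * n := mul_le_mul_of_nonneg_right c4 hn0.le
        have e9 : 0 ≤ θ * n := by positivity
        linarith [hxr'.1.2.1]
      have e5 : (Q.card : ℝ) ≤ (k:ℝ) - 2 := by
        have : R' ⊆ (S.erase u).erase r := fun x hx =>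
          Finset.mem_erase.mpr ⟨fun h => hrR' (h ▸ hx), hR' hx⟩
        have h5 := Finset.card_le_card this
        rw [Finset.card_erase_of_mem hr, hIc, ← hQc] at h5
        have h6 : Q.card + 2 ≤ k := by omega
        have h7 : (Q.card : ℝ) + 2 ≤ k := by exact_mod_cast h6
        linarith
      calc _ ≤ ∑ x ∈ Q, (2 * θ * n) := Finset.sum_le_sum e4
        _ = (Q.card : ℝ) * (2 * θ * n) := by rw [Finset.sum_const, nsmul_eq_mul]
        _ ≤ _ := mul_le_mul_of_nonneg_right e5 (by positivity)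
    have e4 : (κ - 2 * k * θ) * n = (κ - 2 * θ) * n - (θ * n + (θ * n + ((k:ℝ) - 2) * (2 * θ * n))) := by
      ring
    linarith

theorem Reg.coloring (R : Reg G L k n κ ε θ) (H6 : 2 ≤ n * κ^(k-1)) :
    ∃ (S : Finset V) (col : V → V), S.card = k ∧ (∀ v, col v ∈ S) ∧
      ∀ a b a' b', a ∉ L → b ∉ L → a' ∉ L → b' ∉ L → G.Adj a b → G.Adj a' b' →
        col a = col b → col a' = col b' → ({a, b} : Finset V) = {a', b'} := by
  classical
  obtain ⟨h1, h2, h3, h4⟩ := R.kk
  obtain ⟨c1, c2, c3, c4, c5, c6, c7, c8⟩ := R.consts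
  have hn0 := R.hn0
  have hk := R.hk
  obtain ⟨S, hS, hSL, hcov⟩ := R.getSeed
  have hex : ∀ w, ∃ u ∈ S, w ∉ L → (((NA G w \ L) \ NA G u).card : ℝ) ≤ θ * n := by
    intro w
    by_cases hw : w ∈ L
    · have hSne : S.Nonempty := by
        rw [← Finset.card_pos, hS.card_eq]; omega
      obtain ⟨u, hu⟩ := hSne
      exact ⟨u, hu, fun h => absurd hw h⟩
    · obtain ⟨u, hu, h⟩ := R.idx S hS hSL hcov w hw
      exact ⟨u, hu, fun _ => h⟩
  choose col hcolS hcol using hex
  refine ⟨S, col, hS.card_eq, hcolS, ?_⟩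
  intro a b a' b' haL hbL ha'L hb'L hab hab' hc hc'
  by_contra hne
  have ktheta : 2 * (k:ℝ) * θ = κ * (κ / 4) := by
    have : 2 * (k:ℝ) * θ = ((k:ℝ) * κ) * κ^2 / 4 := by rw [R.hθ]; ring
    rw [this, h2]; ring
  have hm : (κ - 2 * k * θ) * n = (n * κ) * (1 + -(κ/4)) := by rw [ktheta]; ring
  have hpos : 0 ≤ (κ - 2 * k * θ) * n := by
    rw [hm]; exact mul_nonneg (by positivity) (by linarith)
  have g1 := R.mono_count S hS hSL hcov (col a) (hcolS a) a b hab (hcol a haL)
    (by rw [hc]; exact hcol b hbL) hpos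
  have g2 := R.mono_count S hS hSL hcov (col a') (hcolS a') a' b' hab' (hcol a' ha'L)
    (by rw [hc']; exact hcol b' hb'L) hpos
  have g3 := two_edges G k (by omega) a b a' b' hab.ne hab'.ne hne
  rw [← R.hn] at g3
  have g4 : (3/4) * (n*κ)^(k-1) ≤ ((κ - 2 * k * θ) * n)^(k-1) := by
    rw [hm, mul_pow (n*κ) (1 + -(κ/4))]
    have hb := one_add_mul_le_pow (by linarith : (-2:ℝ) ≤ -(κ/4)) (k-1)
    have hkc : ((k-1:ℕ):ℝ) = (k:ℝ) - 1 := by rw [Nat.cast_sub (by omega)]; simp
    rw [hkc] at hb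
    have e1 : 1 + ((k:ℝ) - 1) * -(κ/4) = 1 - ((k:ℝ) * κ)/4 + κ/4 := by ring
    rw [e1, h2] at hb
    have e2 : 3/4 ≤ (1 + -(κ/4))^(k-1) := by linarith
    have := mul_le_mul_of_nonneg_left e2 (by positivity : 0 ≤ (n*κ)^(k-1))
    linarith
  have g5 : 2 * n^(k-2) ≤ (n*κ)^(k-1) := by
    have e1 : (n*κ)^(k-1) = (n * κ^(k-1)) * n^(k-2) := by
      have : k - 1 = (k - 2) + 1 := by omega
      rw [mul_pow, this, pow_succ n (k-2)]; ring
    rw [e1]
    exact mul_le_mul_of_nonneg_right H6 (by positivity)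
  have g6 := R.H4
  linarith

end

end Pool.Agent.Helper56.QCl
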